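import Pool.Agent.R652.CEDefs

/-!
Varieties whose only operations are constants.
-/

set_option autoImplicit false

namespace Pool.Agent.R652.CE

open Pool.Agent.R652.RE

theorem Variety.Cong.ind {V : Variety} {n : ℕ} {U : Set ℕ}
    {P : Tm V.σ (Fin n) → Tm V.σ (Fin n) → Prop}
    (hrel : ∀ s t, eqCode Fin.val s t ∈ U → P s t)
    (hlaw : ∀ (s t : Tm V.σ ℕ) (θ : ℕ → Tm V.σ (Fin n)), V.law s t → P (s.subst θ) (t.subst θ))
    (hrefl : ∀ s, P s s) (hsymm : ∀ s t, P s t → P t s)
    (htrans : ∀ s t u, P s t → P t u → P s u)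
    (happ : ∀ (f : ℕ) (hf : V.σ.I f = true) (a b : Fin (V.σ.ar f) → Tm V.σ (Fin n)),
      (∀ i, P (a i) (b i)) → P (.app f hf a) (.app f hf b))
    {s t : Tm V.σ (Fin n)} (h : V.Cong n U s t) : P s t := by
  induction h with
  | rel h => exact hrel _ _ h
  | law θ h => exact hlaw _ _ θ h
  | refl s => exact hrefl s
  | symm _ ih => exact hsymm _ _ ih
  | trans _ _ ih1 ih2 => exact htrans _ _ _ ih1 ih2
  | app _ ih => exact happ _ _ _ _ ih

/-- the signature with constants `f`, `I f = true` -/
abbrev sigC (I : ℕ → Bool) (hI : Computable I) : Sig := ⟨I, fun _ => 0, hI, Computable.const 0⟩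

/-- sets with constants -/
abbrev VC (I : ℕ → Bool) (hI : Computable I) : Variety :=
  ⟨sigC I hI, fun _ _ => False, re_false.of_eq fun c => by simp⟩

section

variable {I : ℕ → Bool} {hI : Computable I} {n : ℕ}

/-- the token of a term -/
def tok : Tm (sigC I hI) (Fin n) → ℕ
  | .var i => 2 * i.val
  | .app f _ _ => 2 * f + 1

/-- valid tokens -/
def valid (I : ℕ → Bool) (n a : ℕ) : Prop := if a % 2 = 0 then a / 2 < n else I (a / 2) = true

theorem rpn_eq (s : Tm (sigC I hI) (Fin n)) : s.rpn Fin.val = [tok s] := by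
  cases s with
  | var i => rfl
  | app f hf a =>
    show (List.ofFn fun i : Fin 0 => _).flatten ++ [2 * f + 1] = [2 * f + 1]
    simp

theorem eqCode_eq (s t : Tm (sigC I hI) (Fin n)) :
    eqCode Fin.val s t = Encodable.encode ([tok s], [tok t]) := by
  unfold eqCode
  rw [rpn_eq, rpn_eq]

theorem tok_valid (s : Tm (sigC I hI) (Fin n)) : valid I n (tok s) := by
  cases s with
  | var i =>
    have h1 : (2 * i.val) % 2 = 0 := by omega
    have h2 : (2 * i.val) / 2 = i.val := by omega
    simp [valid, tok, h2]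
  | app f hf a =>
    have h1 : (2 * f + 1) % 2 = 1 := by omega
    have h2 : (2 * f + 1) / 2 = f := by omega
    show if (2 * f + 1) % 2 = 0 then (2 * f + 1) / 2 < n else I ((2 * f + 1) / 2) = true
    rw [h1, h2]
    exact hf

/-- the constant `f` -/
def cst (hI : Computable I) (n f : ℕ) (hf : I f = true) : Tm (sigC I hI) (Fin n) :=
  .app f hf (fun i : Fin 0 => i.elim0)

theorem app_eq (f : ℕ) (hf : I f = true) (a : Fin ((sigC I hI).ar f) → Tm (sigC I hI) (Fin n)) :
    Tm.app f hf a = cst hI n f hf := by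
  unfold cst
  congr 1
  funext i
  exact Fin.elim0 i

theorem exists_tm {a : ℕ} (h : valid I n a) : ∃ s : Tm (sigC I hI) (Fin n), tok s = a := by
  unfold valid at h
  split_ifs at h with h1
  · exact ⟨.var ⟨a / 2, h⟩, by simp only [tok]; omega⟩
  · exact ⟨cst hI n (a / 2) h, by simp only [tok, cst]; omega⟩

theorem tok_inj {s t : Tm (sigC I hI) (Fin n)} (h : tok s = tok t) : s = t := by
  cases s with
  | var i =>
    cases t with
    | var j => simp only [tok] at h; have : i = j := Fin.ext (by omega); rw [this]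
    | app g hg b => simp only [tok] at h; omega
  | app f hf a =>
    cases t with
    | var j => simp only [tok] at h; omega
    | app g hg b =>
      simp only [tok] at h
      have : f = g := by omega
      subst this
      exact (app_eq f hf a).trans (app_eq f hg b).symm

/-- the code of an equation between tokens -/
def ec (a b : ℕ) : ℕ := Encodable.encode ([a], [b])

theorem ec_inj {a b c d : ℕ} (h : ec a b = ec c d) : a = c ∧ b = d := by
  have := Encodable.encode_injective h
  simpa using this

/-- the relation on tokens given by a set of codes -/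
def rel1 (I : ℕ → Bool) (n : ℕ) (U : Set ℕ) (a b : ℕ) : Prop :=
  ec a b ∈ U ∧ valid I n a ∧ valid I n b

/-- the equivalence relation on tokens -/
def Eqv (I : ℕ → Bool) (n : ℕ) (U : Set ℕ) : ℕ → ℕ → Prop := Relation.EqvGen (rel1 I n U)

theorem Eqv.valid {U : Set ℕ} {a b : ℕ} (h : Eqv I n U a b) :
    a = b ∨ (valid I n a ∧ valid I n b) := by
  induction h with
  | rel x y h => exact Or.inr h.2
  | refl x => exact Or.inl rfl
  | symm x y _ ih =>
    rcases ih with rfl | ⟨h1, h2⟩
    · exact Or.inl rfl
    · exact Or.inr ⟨h2, h1⟩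
  | trans x y z _ _ ih1 ih2 =>
    rcases ih1 with rfl | ⟨h1, h2⟩
    · exact ih2
    · rcases ih2 with rfl | ⟨h3, h4⟩
      · exact Or.inr ⟨h1, h2⟩
      · exact Or.inr ⟨h1, h4⟩

theorem cong_iff {U : Set ℕ} (s t : Tm (sigC I hI) (Fin n)) :
    (VC I hI).Cong n U s t ↔ Eqv I n U (tok s) (tok t) := by
  constructor
  · intro h
    refine Variety.Cong.ind (V := VC I hI) (P := fun s t => Eqv I n U (tok s) (tok t))
      ?_ ?_ ?_ ?_ ?_ ?_ h
    · intro s t h
      refine Relation.EqvGen.rel _ _ ⟨?_, tok_valid s, tok_valid t⟩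
      have := eqCode_eq (I := I) (hI := hI) s t
      unfold ec
      rw [← this]
      exact h
    · intro s t θ h
      exact h.elim
    · intro s
      exact Relation.EqvGen.refl _
    · intro s t ih
      exact Relation.EqvGen.symm _ _ ih
    · intro s t u ih1 ih2
      exact Relation.EqvGen.trans _ _ _ ih1 ih2
    · intro f hf a b _
      have h1 := app_eq (I := I) (hI := hI) (n := n) f hf a
      have h2 := app_eq (I := I) (hI := hI) (n := n) f hf b
      show Eqv I n U (tok (Tm.app f hf a)) (tok (Tm.app f hf b))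
      rw [h1, h2]
      exact Relation.EqvGen.refl _
  · intro h
    have key : ∀ x y, Eqv I n U x y →
        (∀ s : Tm (sigC I hI) (Fin n), tok s = x → ∃ t : Tm (sigC I hI) (Fin n), tok t = y ∧
          (VC I hI).Cong n U s t) ∧
        (∀ t : Tm (sigC I hI) (Fin n), tok t = y → ∃ s : Tm (sigC I hI) (Fin n), tok s = x ∧
          (VC I hI).Cong n U s t) := by
      intro x y h
      induction h with
      | rel x y h =>
        obtain ⟨h1, h2, h3⟩ := h
        constructor
        · intro s hs
          obtain ⟨t, ht⟩ := exists_tm (hI := hI) h3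
          refine ⟨t, ht, Variety.Cong.rel ?_⟩
          have := eqCode_eq (I := I) (hI := hI) s t
          show eqCode Fin.val s t ∈ U
          rw [this, hs, ht]
          exact h1
        · intro t ht
          obtain ⟨s, hs⟩ := exists_tm (hI := hI) h2
          refine ⟨s, hs, Variety.Cong.rel ?_⟩
          have := eqCode_eq (I := I) (hI := hI) s t
          show eqCode Fin.val s t ∈ U
          rw [this, hs, ht]
          exact h1
      | refl x => exact ⟨fun s hs => ⟨s, hs, .refl _⟩, fun t ht => ⟨t, ht, .refl _⟩⟩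
      | symm x y _ ih =>
        constructor
        · intro s hs
          obtain ⟨t, ht, hc⟩ := ih.2 s hs
          exact ⟨t, ht, .symm hc⟩
        · intro t ht
          obtain ⟨s, hs, hc⟩ := ih.1 t ht
          exact ⟨s, hs, .symm hc⟩
      | trans x y z _ _ ih1 ih2 =>
        constructor
        · intro s hs
          obtain ⟨t, ht, hc⟩ := ih1.1 s hs
          obtain ⟨u, hu, hd⟩ := ih2.1 t ht
          exact ⟨u, hu, .trans hc hd⟩
        · intro u hu
          obtain ⟨t, ht, hd⟩ := ih2.2 u hu
          obtain ⟨s, hs, hc⟩ := ih1.2 t ht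
          exact ⟨s, hs, .trans hc hd⟩
    obtain ⟨t', ht', hc⟩ := (key _ _ h).1 s rfl
    have := tok_inj ht'
    rwa [this] at hc

/-- the carrier of the presented algebra -/
abbrev Car (I : ℕ → Bool) (hI : Computable I) (n : ℕ) (U : Set ℕ) : Type :=
  ((VC I hI).pres n U).A

/-- the class of a term -/
def cls (U : Set ℕ) (s : Tm (sigC I hI) (Fin n)) : Car I hI n U :=
  Quotient.mk ((VC I hI).setoid n U) s

theorem cls_eq {U : Set ℕ} {s t : Tm (sigC I hI) (Fin n)} :
    cls U s = cls U t ↔ Eqv I n U (tok s) (tok t) := by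
  rw [← cong_iff (hI := hI)]
  exact Quotient.eq (r := (VC I hI).setoid n U)

theorem cls_surj {U : Set ℕ} (q : Car I hI n U) : ∃ s : Tm (sigC I hI) (Fin n), cls U s = q := by
  obtain ⟨s, hs⟩ := Quotient.exists_rep q
  exact ⟨s, hs⟩

theorem op_eq {U : Set ℕ} (f : ℕ) (hf : I f = true)
    (a : Fin ((sigC I hI).ar f) → Car I hI n U) :
    ((VC I hI).pres n U).op f hf a = cls U (cst hI n f hf) := by
  have h := app_eq (I := I) (hI := hI) (n := n) f hf fun i => Quotient.out (a i)
  show Quotient.mk ((VC I hI).setoid n U) (Tm.app f hf fun i => Quotient.out (a i)) = _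
  rw [h]
  rfl

/-- named elements -/
def named {U : Set ℕ} (q : Car I hI n U) : Prop :=
  ∃ (f : ℕ) (hf : I f = true), q = cls U (cst hI n f hf)

theorem not_named_var {U : Set ℕ} {q : Car I hI n U} (h : ¬ named q) :
    ∃ i : Fin n, q = cls U (Tm.var i) := by
  obtain ⟨s, rfl⟩ := cls_surj q
  cases s with
  | var i => exact ⟨i, rfl⟩
  | app f hf a =>
    have := app_eq (I := I) (hI := hI) (n := n) f hf a
    exact absurd ⟨f, hf, by rw [this]⟩ h

instance {U : Set ℕ} : Finite {q : Car I hI n U // ¬ named q} := by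
  have : Set.Finite {q : Car I hI n U | ¬ named q} := by
    refine (Set.finite_range fun i : Fin n => cls (I := I) (hI := hI) U (Tm.var i)).subset ?_
    intro q hq
    obtain ⟨i, hi⟩ := not_named_var hq
    exact ⟨i, hi.symm⟩
  exact this.to_subtype

/-- the number of unnamed elements -/
noncomputable def nu (hI : Computable I) (n : ℕ) (U : Set ℕ) : ℕ :=
  Nat.card {q : Car I hI n U // ¬ named q}

theorem tok_cst (f : ℕ) (hf : I f = true) : tok (cst hI n f hf) = 2 * f + 1 := rfl

theorem iso_iff (U U' : Set ℕ) : ((VC I hI).pres n U).Iso ((VC I hI).pres n U') ↔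
    (∀ f g, I f = true → I g = true →
      (Eqv I n U (2 * f + 1) (2 * g + 1) ↔ Eqv I n U' (2 * f + 1) (2 * g + 1))) ∧
    nu hI n U = nu hI n U' := by
  constructor
  · rintro ⟨φ, hφ⟩
    have h1 : ∀ (f : ℕ) (hf : I f = true), φ (cls U (cst hI n f hf)) = cls U' (cst hI n f hf) := by
      intro f hf
      have := hφ f hf fun i => Fin.elim0 i
      rwa [op_eq, op_eq] at this
    constructor
    · intro f g hf hg
      have h2 := cls_eq (I := I) (hI := hI) (n := n) (U := U) (s := cst hI n f hf)
        (t := cst hI n g hg)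
      have h3 := cls_eq (I := I) (hI := hI) (n := n) (U := U') (s := cst hI n f hf)
        (t := cst hI n g hg)
      rw [tok_cst, tok_cst] at h2 h3
      rw [← h2, ← h3, ← h1, ← h1]
      exact φ.apply_eq_iff_eq.symm
    · refine Nat.card_congr (Equiv.subtypeEquiv φ ?_)
      intro q
      apply not_congr
      constructor
      · rintro ⟨f, hf, rfl⟩
        exact ⟨f, hf, h1 f hf⟩
      · rintro ⟨f, hf, h⟩
        refine ⟨f, hf, ?_⟩
        rw [← h1] at h
        exact φ.injective h
  · rintro ⟨h1, h2⟩
    classical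
    -- named part
    have h3 : ∀ (f g : ℕ) (hf : I f = true) (hg : I g = true),
        cls U (cst hI n f hf) = cls U (cst hI n g hg) ↔
        cls U' (cst hI n f hf) = cls U' (cst hI n g hg) := by
      intro f g hf hg
      rw [cls_eq, cls_eq, tok_cst, tok_cst]
      exact h1 f g hf hg
    let F : {q : Car I hI n U // named q} → {q : Car I hI n U' // named q} := fun q =>
      ⟨cls U' (cst hI n q.2.choose q.2.choose_spec.choose), ⟨_, _, rfl⟩⟩
    have hF : ∀ (f : ℕ) (hf : I f = true) (h : named (cls U (cst hI n f hf))),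
        (F ⟨cls U (cst hI n f hf), h⟩).1 = cls U' (cst hI n f hf) := by
      intro f hf h
      exact ((h3 _ _ _ _).mp h.choose_spec.choose_spec).symm
    have hFb : Function.Bijective F := by
      constructor
      · rintro ⟨q, f, hf, rfl⟩ ⟨q', g, hg, rfl⟩ h
        have h4 := (hF f hf ⟨f, hf, rfl⟩).symm.trans
          ((congrArg Subtype.val h).trans (hF g hg ⟨g, hg, rfl⟩))
        exact Subtype.ext ((h3 _ _ _ _).mpr h4)
      · rintro ⟨q, f, hf, rfl⟩
        exact ⟨⟨cls U (cst hI n f hf), ⟨f, hf, rfl⟩⟩, Subtype.ext (hF _ _ _)⟩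
    let e1 : {q : Car I hI n U // named q} ≃ {q : Car I hI n U' // named q} :=
      Equiv.ofBijective F hFb
    let e2 : {q : Car I hI n U // ¬ named q} ≃ {q : Car I hI n U' // ¬ named q} :=
      (Finite.card_eq.mp h2).some
    let φ : Car I hI n U ≃ Car I hI n U' :=
      (Equiv.sumCompl (named (I := I) (hI := hI) (n := n) (U := U))).symm.trans
        ((Equiv.sumCongr e1 e2).trans (Equiv.sumCompl named))
    refine ⟨φ, ?_⟩
    intro f hf a
    have h5 : named (cls U (cst hI n f hf)) := ⟨f, hf, rfl⟩
    rw [op_eq, op_eq]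
    show (Equiv.sumCompl (named (I := I) (hI := hI) (n := n) (U := U')))
      ((Equiv.sumCongr e1 e2) ((Equiv.sumCompl _).symm (cls U (cst hI n f hf)))) = _
    rw [Equiv.sumCompl_symm_apply_of_pos h5]
    exact hF f hf h5

end

end Pool.Agent.R652.CE
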