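import Pool.Agent.R652.RE

/-!
Definitions: varieties of algebras, their finitely generated c.e. presented members, and the
isomorphism relations on indices.
-/

set_option autoImplicit false

namespace Pool.Agent.R652.CE

open Pool.Agent.R652.RE

/-- An algebraic signature: the function symbols are the natural numbers `f` with `I f = true`
(a decidable set), and `ar f` is the arity of `f` (computable). -/
structure Sig where
  I : ℕ → Bool
  ar : ℕ → ℕ
  computable_I : Computable I
  computable_ar : Computable ar

/-- Terms over a signature, with variables from `X`. -/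
inductive Tm (σ : Sig) (X : Type) : Type
  | var : X → Tm σ X
  | app (f : ℕ) (hf : σ.I f = true) (a : Fin (σ.ar f) → Tm σ X) : Tm σ X

/-- Substitution. -/
def Tm.subst {σ : Sig} {X Y : Type} (θ : X → Tm σ Y) : Tm σ X → Tm σ Y
  | .var x => θ x
  | .app f hf a => .app f hf fun i => (a i).subst θ

/-- The term in reverse Polish notation: the token `2 * i` stands for the variable number `i` and
the token `2 * f + 1` for the function symbol `f`. -/
def Tm.rpn {σ : Sig} {X : Type} (ν : X → ℕ) : Tm σ X → List ℕ
  | .var x => [2 * ν x]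
  | .app f _ a => (List.ofFn fun i => (a i).rpn ν).flatten ++ [2 * f + 1]

/-- The code of the equation `s = t`. -/
def eqCode {σ : Sig} {X : Type} (ν : X → ℕ) (s t : Tm σ X) : ℕ :=
  Encodable.encode (s.rpn ν, t.rpn ν)

/-- Algebras of a signature. -/
structure Alg (σ : Sig) where
  A : Type
  op : (f : ℕ) → σ.I f = true → (Fin (σ.ar f) → A) → A

/-- The value of a term. -/
def Alg.eval {σ : Sig} (B : Alg σ) {X : Type} (θ : X → B.A) : Tm σ X → B.A
  | .var x => θ x
  | .app f hf a => B.op f hf fun i => B.eval θ (a i)

/-- Isomorphism of algebras. -/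
def Alg.Iso {σ : Sig} (B C : Alg σ) : Prop :=
  ∃ φ : B.A ≃ C.A, ∀ (f : ℕ) (hf : σ.I f = true) (a : Fin (σ.ar f) → B.A),
    φ (B.op f hf a) = C.op f hf fun i => φ (a i)

/-- Congruences of an algebra. -/
def Alg.IsCongruence {σ : Sig} (B : Alg σ) (r : Setoid B.A) : Prop :=
  ∀ (f : ℕ) (hf : σ.I f = true) (a b : Fin (σ.ar f) → B.A), (∀ i, r (a i) (b i)) →
    r (B.op f hf a) (B.op f hf b)

/-- The congruence lattice satisfies the ascending chain condition. -/
def Alg.ACC {σ : Sig} (B : Alg σ) : Prop :=
  ¬ ∃ c : ℕ → Setoid B.A, (∀ k, B.IsCongruence (c k)) ∧ StrictMono c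

/-- A variety, given by a signature and a computably enumerable set of laws. -/
structure Variety where
  σ : Sig
  law : Tm σ ℕ → Tm σ ℕ → Prop
  law_re : REPred fun c : ℕ => ∃ s t, law s t ∧ c = eqCode id s t

/-- The algebra `B` belongs to the variety. -/
def Variety.Mem (V : Variety) (B : Alg V.σ) : Prop :=
  ∀ s t, V.law s t → ∀ θ : ℕ → B.A, B.eval θ s = B.eval θ t

/-- The variety contains an algebra with at least two elements. -/
def Variety.IsNontrivial (V : Variety) : Prop :=
  ∃ B : Alg V.σ, V.Mem B ∧ ∃ x y : B.A, x ≠ y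

/-- The least congruence on the term algebra with generators `0, ..., n - 1` which contains all
equations with codes in `U` and all instances of the laws. -/
inductive Variety.Cong (V : Variety) (n : ℕ) (U : Set ℕ) : Tm V.σ (Fin n) → Tm V.σ (Fin n) → Prop
  | rel {s t} : eqCode Fin.val s t ∈ U → Variety.Cong V n U s t
  | law {s t : Tm V.σ ℕ} (θ : ℕ → Tm V.σ (Fin n)) : V.law s t →
      Variety.Cong V n U (s.subst θ) (t.subst θ)
  | refl (s) : Variety.Cong V n U s s
  | symm {s t} : Variety.Cong V n U s t → Variety.Cong V n U t s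
  | trans {s t u} : Variety.Cong V n U s t → Variety.Cong V n U t u → Variety.Cong V n U s u
  | app {f : ℕ} {hf : V.σ.I f = true} {a b : Fin (V.σ.ar f) → Tm V.σ (Fin n)} :
      (∀ i, Variety.Cong V n U (a i) (b i)) → Variety.Cong V n U (.app f hf a) (.app f hf b)

/-- the congruence as a setoid -/
def Variety.setoid (V : Variety) (n : ℕ) (U : Set ℕ) : Setoid (Tm V.σ (Fin n)) where
  r := V.Cong n U
  iseqv := ⟨fun s => .refl s, fun h => .symm h, fun h1 h2 => .trans h1 h2⟩

/-- The algebra `V_n[U]`: the free algebra of rank `n` of the variety `V` modulo the congruence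
generated by the equations with codes in `U`. -/
noncomputable def Variety.pres (V : Variety) (n : ℕ) (U : Set ℕ) : Alg V.σ where
  A := Quotient (V.setoid n U)
  op f hf a := Quotient.mk _ (.app f hf fun i => (a i).out)

/-- The isomorphism relation of the class `V_n` of `n`-generated c.e. presented algebras. -/
def Variety.isoRel (V : Variety) (n : ℕ) : ℕ → ℕ → Prop := fun e i =>
  (V.pres n (W e)).Iso (V.pres n (W i))

/-- Every algebra of the class `V_n` satisfies the ascending chain condition on congruences. -/
def Variety.ClassACC (V : Variety) (n : ℕ) : Prop := ∀ e, (V.pres n (W e)).ACC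

end Pool.Agent.R652.CE
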