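import Pool.Agent.R652.CERed

/-!
An adversary argument for isomorphism relations of classes with finitely many isomorphism types.
-/

set_option autoImplicit false

namespace Pool.Agent.R652.CE

open Pool.Agent.R652.RE

/-- the natural map between presented algebras -/
noncomputable def quotMap (V : Variety) (n : ℕ) (U U' : Set ℕ)
    (h : ∀ s t, V.Cong n U s t → V.Cong n U' s t) : (V.pres n U).A → (V.pres n U').A :=
  Quotient.map (sa := V.setoid n U) (sb := V.setoid n U') id fun s t hst => h s t hst

theorem quotMap_surj (V : Variety) (n : ℕ) (U U' : Set ℕ)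
    (h : ∀ s t, V.Cong n U s t → V.Cong n U' s t) :
    Function.Surjective (quotMap V n U U' h) := by
  intro q
  obtain ⟨s, rfl⟩ := Quotient.exists_rep q
  exact ⟨Quotient.mk (V.setoid n U) s, rfl⟩

theorem quotMap_op (V : Variety) (n : ℕ) (U U' : Set ℕ)
    (h : ∀ s t, V.Cong n U s t → V.Cong n U' s t) (f : ℕ) (hf : V.σ.I f = true)
    (a : Fin (V.σ.ar f) → (V.pres n U).A) :
    quotMap V n U U' h ((V.pres n U).op f hf a) =
      (V.pres n U').op f hf fun i => quotMap V n U U' h (a i) := by
  have h1 : ∀ i, V.Cong n U' (Quotient.out (a i))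
      (Quotient.out (quotMap V n U U' h (a i))) := by
    intro i
    refine Quotient.exact (s := V.setoid n U') ?_
    have h2 : Quotient.mk (V.setoid n U') (Quotient.out (quotMap V n U U' h (a i))) =
        quotMap V n U U' h (a i) := Quotient.out_eq (s := V.setoid n U') _
    have h3 : quotMap V n U U' h (Quotient.mk (V.setoid n U) (Quotient.out (a i))) =
        quotMap V n U U' h (a i) :=
      congrArg (quotMap V n U U' h) (Quotient.out_eq (s := V.setoid n U) (a i))
    exact h3.trans h2.symm
  exact Quotient.sound (s := V.setoid n U') (Variety.Cong.app h1)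

theorem card_lt_of_not_iso (V : Variety) (n : ℕ) (U U' : Set ℕ)
    (h : ∀ s t, V.Cong n U s t → V.Cong n U' s t) (hfin : Finite (V.pres n U).A)
    (hni : ¬ (V.pres n U).Iso (V.pres n U')) :
    Nat.card (V.pres n U').A < Nat.card (V.pres n U).A := by
  have hs := quotMap_surj V n U U' h
  have h1 := Nat.card_le_card_of_surjective _ hs
  refine lt_of_le_of_ne h1 fun h2 => hni ?_
  have hfin' : Finite (V.pres n U').A := Finite.of_surjective _ hs
  have h3 : Function.Bijective (quotMap V n U U' h) := by
    refine ⟨?_, hs⟩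
    obtain ⟨e⟩ := Finite.card_eq.mp h2.symm
    have h4 : Function.Surjective (fun x => e.symm (quotMap V n U U' h x)) :=
      e.symm.surjective.comp hs
    have h5 := Finite.injective_iff_surjective.mpr h4
    intro x y hxy
    apply h5
    show e.symm _ = e.symm _
    rw [hxy]
  exact ⟨Equiv.ofBijective _ h3, fun f hf a => quotMap_op V n U U' h f hf a⟩

theorem card_lt_of_strict (V : Variety) (n : ℕ) (U U' : Set ℕ)
    (h : ∀ s t, V.Cong n U s t → V.Cong n U' s t) (hfin : Finite (V.pres n U).A)
    {s t : Tm V.σ (Fin n)} (h1 : V.Cong n U' s t) (h2 : ¬ V.Cong n U s t) :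
    Nat.card (V.pres n U').A < Nat.card (V.pres n U).A := by
  have hs := quotMap_surj V n U U' h
  have h3 := Nat.card_le_card_of_surjective _ hs
  refine lt_of_le_of_ne h3 fun h4 => h2 ?_
  have hfin' : Finite (V.pres n U').A := Finite.of_surjective _ hs
  obtain ⟨e⟩ := Finite.card_eq.mp h4.symm
  have h5 : Function.Surjective (fun x => e.symm (quotMap V n U U' h x)) :=
    e.symm.surjective.comp hs
  have h6 := Finite.injective_iff_surjective.mpr h5
  refine Quotient.exact (s := V.setoid n U) (h6 ?_)
  show e.symm _ = e.symm _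
  congr 1
  exact Quotient.sound (s := V.setoid n U') h1

theorem Alg.Iso.card {σ : Sig} {B C : Alg σ} (h : B.Iso C) : Nat.card B.A = Nat.card C.A := by
  obtain ⟨φ, _⟩ := h
  exact Nat.card_congr φ

section

variable {I : ℕ → Bool} {hI : Computable I} {n : ℕ}

/-- the class of a token -/
theorem finite_car (T : Finset ℕ) (hT : ∀ a, valid I n a → a ∈ T) (U : Set ℕ) :
    Finite ((VC I hI).pres n U).A ∧ Nat.card ((VC I hI).pres n U).A ≤ T.card := by
  classical
  -- an injection into `T`
  have h1 : ∀ q : Car I hI n U, ∃ s : Tm (sigC I hI) (Fin n), cls U s = q := cls_surj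
  choose g hg using h1
  have h2 : Function.Injective fun q => (⟨tok (g q), hT _ (tok_valid (g q))⟩ : T) := by
    intro q q' h
    have h3 : tok (g q) = tok (g q') := congrArg Subtype.val h
    rw [← hg q, ← hg q', tok_inj h3]
  constructor
  · exact Finite.of_injective _ h2
  · have h3 := Nat.card_le_card_of_injective _ h2
    have h4 : Nat.card T = T.card := by rw [Nat.card_eq_fintype_card, Fintype.card_coe]
    exact h3.trans h4.le

/-- the adversary argument -/
theorem adversary (T : Finset ℕ) (hT : ∀ a, valid I n a → a ∈ T)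
    {EA : ℕ → ℕ → Prop} (hEA : ∀ e i, W e = W i → EA e i) {f : ℕ → ℕ} (hf : Computable f)
    (hr : ∀ x y, EA x y ↔ (VC I hI).isoRel n (f x) (f y)) {e e' : ℕ} (hsub : W e ⊆ W e')
    (hne : ¬ EA e e') :
    Nat.card ((VC I hI).pres n (W (f e'))).A < Nat.card ((VC I hI).pres n (W (f e))).A := by
  classical
  let S : Finset (Finset (ℕ × ℕ)) := (T ×ˢ T).powerset.filter fun r =>
    ∃ i, (VC I hI).isoRel n i (f e) ∧ ∀ p ∈ T ×ˢ T, p ∈ r ↔ Eqv I n (W i) p.1 p.2
  let Ev : ℕ → Prop := fun x => ∃ r ∈ S, ∀ p ∈ r, Eqv I n (W (f x)) p.1 p.2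
  have hEv : REPred Ev := by
    refine re_finset_ex S fun r _ => re_finset_all r fun p _ => ?_
    exact re_comp (re_Eqv hI n) (f := fun x => (f x, p.1, p.2))
      (Computable.pair hf (Computable.const _))
  obtain ⟨h, hh, hhW⟩ := smn (P := fun x y => y ∈ W e ∨ (Ev x ∧ y ∈ W e')) (by
    refine re_or ?_ (re_and ?_ ?_)
    · exact re_comp re_mem_W (f := fun p : ℕ × ℕ => (e, p.2))
        (Computable.pair (Computable.const _) Computable.snd)
    · exact re_comp hEv Computable.fst
    · exact re_comp re_mem_W (f := fun p : ℕ × ℕ => (e', p.2))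
        (Computable.pair (Computable.const _) Computable.snd))
  obtain ⟨x, hx⟩ := fixed hh
  have hxW : ∀ y, y ∈ W x ↔ (y ∈ W e ∨ (Ev x ∧ y ∈ W e')) := by
    intro y
    rw [← hx]
    exact hhW x y
  by_cases hE : Ev x
  · have h1 : W x = W e' := by
      ext y
      rw [hxW]
      constructor
      · rintro (h2 | ⟨_, h2⟩)
        · exact hsub h2
        · exact h2
      · intro h2
        exact Or.inr ⟨hE, h2⟩
    have h2 : (VC I hI).isoRel n (f x) (f e') := (hr _ _).mp (hEA _ _ h1)
    obtain ⟨r, hrS, hrE⟩ := hE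
    obtain ⟨hrT, i, hi, hir⟩ := Finset.mem_filter.mp hrS
    have h3 : ∀ s t, (VC I hI).Cong n (W i) s t → (VC I hI).Cong n (W (f x)) s t := by
      intro s t hst
      rw [cong_iff] at hst ⊢
      refine hrE (tok s, tok t) ?_
      rw [hir]
      · exact hst
      · exact Finset.mem_product.mpr ⟨hT _ (tok_valid s), hT _ (tok_valid t)⟩
    have h4 : ¬ ((VC I hI).pres n (W i)).Iso ((VC I hI).pres n (W (f x))) := by
      intro h5
      apply hne
      rw [hr]
      exact (Alg.Iso.symm hi).trans (h5.trans h2)
    have h5 := card_lt_of_not_iso (VC I hI) n (W i) (W (f x)) h3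
      (finite_car T hT (W i)).1 h4
    rw [Alg.Iso.card hi, Alg.Iso.card h2] at h5
    exact h5
  · exfalso
    apply hE
    have h1 : W x = W e := by
      ext y
      rw [hxW]
      constructor
      · rintro (h2 | ⟨h2, _⟩)
        · exact h2
        · exact absurd h2 hE
      · exact Or.inl
    have h2 : (VC I hI).isoRel n (f x) (f e) := (hr _ _).mp (hEA _ _ h1)
    refine ⟨(T ×ˢ T).filter fun p => Eqv I n (W (f x)) p.1 p.2, ?_, ?_⟩
    · refine Finset.mem_filter.mpr ⟨?_, f x, h2, ?_⟩
      · rw [Finset.mem_powerset]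
        exact Finset.filter_subset _ _
      · intro p hp
        rw [Finset.mem_filter]
        exact ⟨fun h => h.2, fun h => ⟨hp, h⟩⟩
    · intro p hp
      exact (Finset.mem_filter.mp hp).2

end

end Pool.Agent.R652.CE
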