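import Pool.Agent.R652.CE

/-!
Sets with constants: the isomorphism relation and equality of c.e. sets.
-/

set_option autoImplicit false

namespace Pool.Agent.R652.CE

open Pool.Agent.R652.RE

section

variable {I : ℕ → Bool} {hI : Computable I} {n : ℕ}

theorem nu_le_iff (U : Set ℕ) (m : ℕ) : nu hI n U ≤ m ↔ ∃ G : List ℕ, G.length ≤ m ∧
    ∀ i ∈ Finset.range n, ∃ y, (y % 2 = 1 ∨ y ∈ G) ∧ Eqv I n U (2 * i) y := by
  classical
  constructor
  · intro h
    have : Fintype {q : Car I hI n U // ¬ named q} := Fintype.ofFinite _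
    let r : {q : Car I hI n U // ¬ named q} → Fin n := fun q => (not_named_var q.2).choose
    have hr : ∀ q, q.1 = cls U (Tm.var (r q)) := fun q => (not_named_var q.2).choose_spec
    refine ⟨(Finset.univ : Finset {q : Car I hI n U // ¬ named q}).toList.map
      fun q => 2 * (r q).val, ?_, ?_⟩
    · rw [List.length_map, Finset.length_toList, Finset.card_univ]
      rw [nu, Nat.card_eq_fintype_card] at h
      exact h
    · intro i hi
      rw [Finset.mem_range] at hi
      by_cases hq : named (cls (I := I) (hI := hI) U (Tm.var ⟨i, hi⟩))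
      · obtain ⟨f, hf, h1⟩ := hq
        refine ⟨2 * f + 1, Or.inl (by omega), ?_⟩
        exact cls_eq.mp h1
      · refine ⟨2 * (r ⟨_, hq⟩).val, Or.inr ?_, ?_⟩
        · rw [List.mem_map]
          exact ⟨⟨_, hq⟩, by simp, rfl⟩
        · have h1 := hr ⟨_, hq⟩
          exact cls_eq.mp h1
  · rintro ⟨G, hG, h⟩
    have h1 : ∀ q : {q : Car I hI n U // ¬ named q}, ∃ y ∈ G, ∃ s : Tm (sigC I hI) (Fin n),
        cls U s = q.1 ∧ Eqv I n U (tok s) y := by
      intro q
      obtain ⟨i, hi⟩ := not_named_var q.2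
      obtain ⟨y, hy, he⟩ := h i.val (Finset.mem_range.mpr i.2)
      rcases hy with hy | hy
      · exfalso
        apply q.2
        have h2 : valid I n y := by
          rcases he.valid with h3 | h3
          · omega
          · exact h3.2
        have h4 : I (y / 2) = true := by
          unfold valid at h2
          rwa [if_neg (by omega)] at h2
        refine ⟨y / 2, h4, ?_⟩
        rw [hi]
        refine cls_eq.mpr ?_
        rw [tok_cst]
        have h5 : 2 * (y / 2) + 1 = y := by omega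
        rw [h5]
        exact he
      · exact ⟨y, hy, Tm.var i, hi.symm, he⟩
    choose g hg1 hg2 hg3 using h1
    have h2 : Function.Injective fun q => (⟨g q, List.mem_toFinset.mpr (hg1 q)⟩ : G.toFinset) := by
      intro q q' h3
      have h4 : g q = g q' := congrArg Subtype.val h3
      obtain ⟨h5, h6⟩ := hg3 q
      obtain ⟨h7, h8⟩ := hg3 q'
      apply Subtype.ext
      rw [← h5, ← h7]
      refine cls_eq.mpr ?_
      rw [← h4] at h8
      exact Relation.EqvGen.trans _ _ _ h6 (Relation.EqvGen.symm _ _ h8)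
    have h3 := Nat.card_le_card_of_injective _ h2
    have h4 : Nat.card G.toFinset ≤ G.length := by
      rw [Nat.card_eq_fintype_card, Fintype.card_coe]
      exact List.toFinset_card_le G
    exact (h3.trans h4).trans hG

/-- boolean version of `valid` -/
def validB (I : ℕ → Bool) (n a : ℕ) : Bool :=
  (decide (a % 2 = 0) && decide (a / 2 < n)) || (!decide (a % 2 = 0) && I (a / 2))

theorem validB_iff (I : ℕ → Bool) (n a : ℕ) : validB I n a = true ↔ valid I n a := by
  unfold validB valid
  by_cases h : a % 2 = 0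
  · simp [h]
  · simp [h]

theorem comp_validB {α : Type} [Primcodable α] (hI : Computable I) {f : α → ℕ}
    (hf : Computable f) : Computable fun a => validB I n (f a) := by
  have hev : Computable fun a => decide (f a % 2 = 0) :=
    ((Primrec.eq.decide.comp (Primrec.nat_mod.comp Primrec.id (Primrec.const 2))
      (Primrec.const 0)).to_comp).comp hf
  have hdiv : Computable fun a => f a / 2 :=
    ((Primrec.nat_div.comp Primrec.id (Primrec.const 2)).to_comp).comp hf
  have hlt : Computable fun a => decide (f a / 2 < n) :=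
    (Primrec.nat_lt.decide.comp Primrec.id (Primrec.const n)).to_comp.comp hdiv
  exact Primrec.or.to_comp.comp (Primrec.and.to_comp.comp hev hlt)
    (Primrec.and.to_comp.comp (Primrec.not.to_comp.comp hev) (hI.comp hdiv))

theorem comp_ec {α : Type} [Primcodable α] {f g : α → ℕ}
    (hf : Computable f) (hg : Computable g) : Computable fun a => ec (f a) (g a) :=
  Computable.encode.comp (Computable.pair
    (Computable.list_cons.comp hf (Computable.const []))
    (Computable.list_cons.comp hg (Computable.const [])))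

theorem re_Eqv (hI : Computable I) (n : ℕ) :
    REPred fun p : ℕ × ℕ × ℕ => Eqv I n (W p.1) p.2.1 p.2.2 := by
  refine re_eqvGen (r := fun e => rel1 I n (W e)) ?_
  have h1 : Computable fun p : ℕ × ℕ × ℕ => p.2.1 := Computable.fst.comp Computable.snd
  have h2 : Computable fun p : ℕ × ℕ × ℕ => p.2.2 := Computable.snd.comp Computable.snd
  refine re_and ?_ (re_and ?_ ?_)
  · exact re_comp re_mem_W (f := fun p : ℕ × ℕ × ℕ => (p.1, ec p.2.1 p.2.2))
      (Computable.pair Computable.fst (comp_ec h1 h2))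
  · exact (re_dec (comp_validB (n := n) hI h1)).of_eq fun p => validB_iff _ _ _
  · exact (re_dec (comp_validB (n := n) hI h2)).of_eq fun p => validB_iff _ _ _

theorem re_nu_le (hI : Computable I) (n : ℕ) :
    REPred fun p : ℕ × ℕ => nu hI n (W p.1) ≤ p.2 := by
  have key : REPred fun p : ℕ × ℕ => ∃ G : List ℕ, G.length ≤ p.2 ∧
      ∀ i ∈ Finset.range n, ∃ y, (y % 2 = 1 ∨ y ∈ G) ∧ Eqv I n (W p.1) (2 * i) y := by
    refine re_ex (p := fun (p : ℕ × ℕ) (G : List ℕ) => G.length ≤ p.2 ∧
      ∀ i ∈ Finset.range n, ∃ y, (y % 2 = 1 ∨ y ∈ G) ∧ Eqv I n (W p.1) (2 * i) y) ?_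
    refine re_and ?_ (re_finset_all _ ?_)
    · have h1 : Computable fun q : (ℕ × ℕ) × List ℕ => decide (q.2.length ≤ q.1.2) :=
        (Primrec.nat_le.decide.comp (Primrec.list_length.comp Primrec.snd)
          (Primrec.snd.comp Primrec.fst)).to_comp
      exact (re_dec h1).of_eq fun q => by simp
    · intro i _
      refine re_ex (p := fun (q : (ℕ × ℕ) × List ℕ) (y : ℕ) =>
        (y % 2 = 1 ∨ y ∈ q.2) ∧ Eqv I n (W q.1.1) (2 * i) y) ?_
      refine re_and (re_or ?_ ?_) ?_
      · have h1 : Computable fun q : ((ℕ × ℕ) × List ℕ) × ℕ => decide (q.2 % 2 = 1) :=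
          (Primrec.eq.decide.comp (Primrec.nat_mod.comp Primrec.snd (Primrec.const 2))
            (Primrec.const 1)).to_comp
        exact (re_dec h1).of_eq fun q => by simp
      · have h1 : REPred fun q : ((ℕ × ℕ) × List ℕ) × ℕ => ∃ k : ℕ,
            decide (q.1.2[k]? = some q.2) = true := by
          refine re_ex (p := fun (q : ((ℕ × ℕ) × List ℕ) × ℕ) (k : ℕ) =>
            decide (q.1.2[k]? = some q.2) = true) (re_dec ?_)
          exact (Primrec.eq.decide.comp (Primrec.list_getElem?.comp (Primrec.snd.comp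
            (Primrec.fst.comp Primrec.fst)) Primrec.snd)
            (Primrec.option_some.comp (Primrec.snd.comp Primrec.fst))).to_comp
        refine h1.of_eq fun q => ?_
        simp only [decide_eq_true_eq]
        exact (List.mem_iff_getElem?).symm
      · exact re_comp (re_Eqv hI n) (f := fun q : ((ℕ × ℕ) × List ℕ) × ℕ =>
          (q.1.1.1, 2 * i, q.2)) (Computable.pair (Computable.fst.comp
            (Computable.fst.comp Computable.fst)) (Computable.pair (Computable.const _)
            Computable.snd))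
  exact key.of_eq fun p => (nu_le_iff _ _).symm

/-- the isomorphism relation of `n`-generated sets with constants is reducible to equality of c.e.
sets -/
theorem isoRel_red (hI : Computable I) (n : ℕ) : CRed ((VC I hI).isoRel n) EqCE := by
  have hP : REPred fun p : ℕ × ℕ => (∃ q : ℕ × ℕ, p.2 = 2 * Nat.pair q.1 q.2 ∧ I q.1 = true ∧
      I q.2 = true ∧ Eqv I n (W p.1) (2 * q.1 + 1) (2 * q.2 + 1)) ∨
      (∃ m, p.2 = 2 * m + 1 ∧ nu hI n (W p.1) ≤ m) := by
    refine re_or ?_ ?_
    · refine re_ex (p := fun (p : ℕ × ℕ) (q : ℕ × ℕ) => p.2 = 2 * Nat.pair q.1 q.2 ∧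
        I q.1 = true ∧ I q.2 = true ∧ Eqv I n (W p.1) (2 * q.1 + 1) (2 * q.2 + 1)) ?_
      have h1 : Computable fun r : (ℕ × ℕ) × (ℕ × ℕ) => r.2.1 :=
        Computable.fst.comp Computable.snd
      have h2 : Computable fun r : (ℕ × ℕ) × (ℕ × ℕ) => r.2.2 :=
        Computable.snd.comp Computable.snd
      have hodd : Primrec fun x : ℕ => 2 * x + 1 :=
        Primrec.succ.comp (Primrec.nat_mul.comp (Primrec.const 2) Primrec.id)
      refine re_and ?_ (re_and (re_dec (hI.comp h1)) (re_and (re_dec (hI.comp h2)) ?_))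
      · have h3 : Computable fun r : (ℕ × ℕ) × (ℕ × ℕ) =>
            decide (r.1.2 = 2 * Nat.pair r.2.1 r.2.2) :=
          (Primrec.eq.decide.comp (Primrec.snd.comp Primrec.fst) (Primrec.nat_mul.comp
            (Primrec.const 2) (Primrec₂.natPair.comp (Primrec.fst.comp Primrec.snd)
            (Primrec.snd.comp Primrec.snd)))).to_comp
        exact (re_dec h3).of_eq fun q => by simp
      · exact re_comp (re_Eqv hI n) (f := fun r : (ℕ × ℕ) × (ℕ × ℕ) =>
          (r.1.1, 2 * r.2.1 + 1, 2 * r.2.2 + 1)) (Computable.pair (Computable.fst.comp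
            Computable.fst) (Computable.pair (hodd.to_comp.comp h1) (hodd.to_comp.comp h2)))
    · refine re_ex (p := fun (p : ℕ × ℕ) (m : ℕ) => p.2 = 2 * m + 1 ∧
        nu hI n (W p.1) ≤ m) (re_and ?_ ?_)
      · have h3 : Computable fun r : (ℕ × ℕ) × ℕ => decide (r.1.2 = 2 * r.2 + 1) :=
          (Primrec.eq.decide.comp (Primrec.snd.comp Primrec.fst) (Primrec.succ.comp
            (Primrec.nat_mul.comp (Primrec.const 2) Primrec.snd))).to_comp
        exact (re_dec h3).of_eq fun q => by simp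
      · exact re_comp (re_nu_le hI n) (f := fun r : (ℕ × ℕ) × ℕ => (r.1.1, r.2))
          (Computable.pair (Computable.fst.comp Computable.fst) Computable.snd)
  obtain ⟨f, hf, hfW⟩ := smn (P := fun e x => (∃ q : ℕ × ℕ, x = 2 * Nat.pair q.1 q.2 ∧
    I q.1 = true ∧ I q.2 = true ∧ Eqv I n (W e) (2 * q.1 + 1) (2 * q.2 + 1)) ∨
      (∃ m, x = 2 * m + 1 ∧ nu hI n (W e) ≤ m)) hP
  have he : ∀ e a b, 2 * Nat.pair a b ∈ W (f e) ↔
      (I a = true ∧ I b = true ∧ Eqv I n (W e) (2 * a + 1) (2 * b + 1)) := by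
    intro e a b
    rw [hfW]
    constructor
    · rintro (⟨⟨c, d⟩, h1, h2⟩ | ⟨m, h1, _⟩)
      · have h1' : 2 * Nat.pair a b = 2 * Nat.pair c d := h1
        have h3 : Nat.pair a b = Nat.pair c d := by omega
        rw [Nat.pair_eq_pair] at h3
        obtain ⟨rfl, rfl⟩ := h3
        exact h2
      · omega
    · intro h
      exact Or.inl ⟨(a, b), rfl, h⟩
  have ho : ∀ e m, 2 * m + 1 ∈ W (f e) ↔ nu hI n (W e) ≤ m := by
    intro e m
    rw [hfW]
    constructor
    · rintro (⟨⟨c, d⟩, h1, h2⟩ | ⟨m', h1, h2⟩)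
      · omega
      · have h3 : m = m' := by omega
        rw [h3]
        exact h2
    · intro h
      exact Or.inr ⟨m, rfl, h⟩
  refine ⟨f, hf, fun e i => ?_⟩
  have h := iso_iff (I := I) (hI := hI) (n := n) (W e) (W i)
  show ((VC I hI).pres n (W e)).Iso ((VC I hI).pres n (W i)) ↔ W (f e) = W (f i)
  rw [h]
  constructor
  · rintro ⟨h1, h2⟩
    ext x
    rcases Nat.even_or_odd' x with ⟨k, rfl | rfl⟩
    · obtain ⟨a, b, rfl⟩ : ∃ a b, k = Nat.pair a b := ⟨_, _, (Nat.pair_unpair k).symm⟩
      rw [he, he]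
      constructor
      · rintro ⟨h3, h4, h5⟩
        exact ⟨h3, h4, (h1 a b h3 h4).mp h5⟩
      · rintro ⟨h3, h4, h5⟩
        exact ⟨h3, h4, (h1 a b h3 h4).mpr h5⟩
    · rw [ho, ho, h2]
  · intro h1
    constructor
    · intro a b h3 h4
      have h5 := he e a b
      have h6 := he i a b
      rw [h1] at h5
      have h7 := h5.symm.trans h6
      constructor
      · intro h8
        exact (h7.mp ⟨h3, h4, h8⟩).2.2
      · intro h8
        exact (h7.mpr ⟨h3, h4, h8⟩).2.2
    · apply le_antisymm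
      · have h5 := ho e (nu hI n (W i))
        have h6 := ho i (nu hI n (W i))
        rw [h1] at h5
        exact h5.mp (h6.mpr le_rfl)
      · have h5 := ho e (nu hI n (W e))
        have h6 := ho i (nu hI n (W e))
        rw [h1] at h5
        exact h6.mp (h5.mpr le_rfl)

/-- the set of all constants -/
abbrev allC : ℕ → Bool := fun _ => true

theorem comp_allC : Computable allC := Computable.const true

/-- sets with infinitely many constants -/
abbrev VA : Variety := VC allC comp_allC

theorem eqv_inv {n : ℕ} {S : Set ℕ} {a b : ℕ}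
    (h : Eqv allC n {x | ∃ k, k ∈ S ∧ x = ec (4 * k + 1) (4 * k + 3)} a b) :
    a = b ∨ (a / 4 = b / 4 ∧ a / 4 ∈ S) := by
  induction h with
  | rel x y h =>
    obtain ⟨⟨k, hk, h1⟩, _⟩ := h
    obtain ⟨rfl, rfl⟩ := ec_inj h1
    right
    have h2 : (4 * k + 1) / 4 = k := by omega
    have h3 : (4 * k + 3) / 4 = k := by omega
    rw [h2, h3]
    exact ⟨rfl, hk⟩
  | refl x => exact Or.inl rfl
  | symm x y _ ih =>
    rcases ih with h | ⟨h1, h2⟩
    · exact Or.inl h.symm
    · exact Or.inr ⟨h1.symm, by rw [← h1]; exact h2⟩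
  | trans x y z _ _ ih1 ih2 =>
    rcases ih1 with h | ⟨h1, h2⟩
    · rw [h]; exact ih2
    · rcases ih2 with h | ⟨h3, h4⟩
      · rw [← h]; exact Or.inr ⟨h1, h2⟩
      · exact Or.inr ⟨h1.trans h3, h2⟩

theorem red_isoRel (n : ℕ) : CRed EqCE (VA.isoRel n) := by
  obtain ⟨f, hf, hfW⟩ := smn (P := fun e x => ∃ k, k ∈ W e ∧ x = ec (4 * k + 1) (4 * k + 3)) (by
    refine re_ex (p := fun (p : ℕ × ℕ) (k : ℕ) => k ∈ W p.1 ∧
      p.2 = ec (4 * k + 1) (4 * k + 3)) (re_and ?_ ?_)
    · exact re_comp re_mem_W (f := fun q : (ℕ × ℕ) × ℕ => (q.1.1, q.2))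
        (Computable.pair (Computable.fst.comp Computable.fst) Computable.snd)
    · have h1 : Computable fun q : (ℕ × ℕ) × ℕ => ec (4 * q.2 + 1) (4 * q.2 + 3) := by
        refine comp_ec ?_ ?_
        · exact (Primrec.nat_add.comp (Primrec.nat_mul.comp (Primrec.const 4) Primrec.snd)
            (Primrec.const 1)).to_comp
        · exact (Primrec.nat_add.comp (Primrec.nat_mul.comp (Primrec.const 4) Primrec.snd)
            (Primrec.const 3)).to_comp
      have h2 : Computable fun q : (ℕ × ℕ) × ℕ =>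
          decide (q.1.2 = ec (4 * q.2 + 1) (4 * q.2 + 3)) :=
        (Primrec.eq.decide (α := ℕ)).to_comp.comp (Computable.snd.comp Computable.fst) h1
      exact (re_dec h2).of_eq fun q => by simp)
  have hset : ∀ e, W (f e) = {x | ∃ k, k ∈ W e ∧ x = ec (4 * k + 1) (4 * k + 3)} := by
    intro e
    ext x
    exact hfW e x
  refine ⟨f, hf, fun e i => ?_⟩
  show W e = W i ↔ (VA.pres n (W (f e))).Iso (VA.pres n (W (f i)))
  have h := iso_iff (I := allC) (hI := comp_allC) (n := n) (W (f e)) (W (f i))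
  rw [h]
  have hk : ∀ e k, Eqv allC n (W (f e)) (2 * (2 * k) + 1) (2 * (2 * k + 1) + 1) ↔ k ∈ W e := by
    intro e k
    rw [hset]
    constructor
    · intro h
      rcases eqv_inv h with h1 | ⟨_, h1⟩
      · omega
      · have h2 : (2 * (2 * k) + 1) / 4 = k := by omega
        rwa [h2] at h1
    · intro h
      refine Relation.EqvGen.rel _ _ ⟨⟨k, h, ?_⟩, ?_, ?_⟩
      · congr 1 <;> omega
      · unfold valid
        rw [if_neg (by omega)]
      · unfold valid
        rw [if_neg (by omega)]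
  constructor
  · intro h1
    have h2 : W (f e) = W (f i) := by rw [hset, hset, h1]
    rw [h2]
    exact ⟨fun _ _ _ _ => Iff.rfl, rfl⟩
  · rintro ⟨h1, _⟩
    ext k
    rw [← hk e k, ← hk i k]
    exact h1 _ _ rfl rfl

theorem VA_nontrivial : VA.IsNontrivial :=
  ⟨⟨Bool, fun _ _ _ => false⟩, fun _ _ h => h.elim, false, true, by simp⟩

theorem Alg.Iso.refl {σ : Sig} (B : Alg σ) : B.Iso B := ⟨Equiv.refl _, fun _ _ _ => rfl⟩

theorem Alg.Iso.symm {σ : Sig} {B C : Alg σ} (h : B.Iso C) : C.Iso B := by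
  obtain ⟨φ, hφ⟩ := h
  refine ⟨φ.symm, fun f hf a => ?_⟩
  rw [Equiv.symm_apply_eq, hφ]
  congr 1
  funext i
  simp

theorem Alg.Iso.trans {σ : Sig} {B C D : Alg σ} (h1 : B.Iso C) (h2 : C.Iso D) : B.Iso D := by
  obtain ⟨φ, hφ⟩ := h1
  obtain ⟨ψ, hψ⟩ := h2
  refine ⟨φ.trans ψ, fun f hf a => ?_⟩
  show ψ (φ _) = _
  rw [hφ, hψ]
  rfl

theorem isoRel_equivalence (V : Variety) (n : ℕ) : Equivalence (V.isoRel n) :=
  ⟨fun _ => Alg.Iso.refl _, fun h => h.symm, fun h1 h2 => h1.trans h2⟩

end

end Pool.Agent.R652.CE
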