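import Mathlib
import Pool.Agent.Helper247.UecPcp
import Pool.Agent.Helper247.Univ

/-!
A family of correspondence instances with undecidable solvability, in which only one word varies
(repackaged from the file of the frozen statement S15446).
-/

set_option autoImplicit false

namespace Pool.Agent.R652.PCPBase

open Turing Relation Pool.Agent.Helper247 Pool.Agent.Helper247.Queue

/-- The image of the index word `x` under the list of words `L`. -/
def im (L : List (List ℕ)) (x : List ℕ) : List ℕ := x.flatMap fun i => L.getD i []

/-- The correspondence problem given by the lists `H` and `G` has a solution. -/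
def Sol (H G : List (List ℕ)) : Prop :=
  ∃ x : List ℕ, x ≠ [] ∧ (∀ i ∈ x, i < H.length) ∧ im H x = im G x

theorem base : ∃ (H' G' : List (List ℕ)) (w : ℕ → List ℕ), Computable w ∧
    G'.length = H'.length + 1 ∧
    (∀ n, Sol (w n :: H') G' ↔ (Univ.u n).Dom) := by
  classical
  obtain ⟨Λ, i1, i2, M, hM⟩ := Univ.exists_machine
  let S := Queue.Sym (TM2to1.Γ' PartrecToTM2.K' (fun _ => PartrecToTM2.Γ')) Λ
  have fK : Finite PartrecToTM2.K' := by
    refine Finite.of_injective (fun k : PartrecToTM2.K' => match k with
      | .main => (0 : Fin 4)
      | .rev => 1
      | .aux => 2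
      | .stack => 3) ?_
    intro a b h
    cases a <;> cases b <;> simp_all
  have fG : Finite (TM2to1.Γ' PartrecToTM2.K' (fun _ => PartrecToTM2.Γ')) :=
    inferInstanceAs (Finite (Bool × (PartrecToTM2.K' → Option PartrecToTM2.Γ')))
  have fS : Finite S := inferInstanceAs (Finite (Queue.Sym _ _))
  let _ : Fintype S := Fintype.ofFinite S
  let e := Fintype.equivFin (S × Bool)
  let c : S × Bool → ℕ := fun z => (e z : ℕ) + 2
  have hc : Function.Injective c := by
    intro a b hab
    have : (e a : ℕ) = (e b : ℕ) := by simpa [c] using hab
    exact e.injective (Fin.ext this)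
  have hc2 : ∀ x, 2 ≤ c x := fun x => by simp [c]
  let P : S → S → List S := Queue.prod M
  have hP1 : ∀ x y, 2 ≤ (P x y).length ∨ P x y = [Queue.Sym.kill] := prod_length M
  have hP2 : ∀ y, (P Queue.Sym.kill y).head? ≠ some y := by
    intro y
    rcases y with b | ⟨r, b⟩ | _ | _
    · simp [P, Queue.prod]
    · intro h
      simp only [P, Queue.prod] at h
      split at h <;> simp at h
    · simp [P, Queue.prod]
    · simp [P, Queue.prod]
  let tape : ℕ → List (TM2to1.Γ' PartrecToTM2.K' (fun _ => PartrecToTM2.Γ')) := fun n =>
    Univ.sym true .cons :: (PartrecToTM2.trNat n).reverse.map (Univ.sym false)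
  let w0 : ℕ → List (S × Bool) := fun n => (initWord (tape n)).map (fun z => (z, false))
  have hw0 : ∀ n, 2 ≤ (w0 n).length := fun n => by
    simp only [w0, List.length_map]
    exact initWord_length _
  refine ⟨UecPcp.Htail P c, UecPcp.G Queue.Sym.kill c, fun n => 0 :: (w0 n).map c, ?_, ?_, ?_⟩
  · have hw : Computable (fun n => (w0 n).map c) := by
      have hd := Univ.digits_computable (fun a => c (Queue.Sym.cell (Univ.sym false a), false))
      have : (fun n => (w0 n).map c) = fun n =>
          (if (((PartrecToTM2.trNat n).map
              (fun a => c (Queue.Sym.cell (Univ.sym false a), false))).length + 1) % 2 = 0 then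
            [c (Queue.Sym.mark, false), c (Queue.Sym.head default (Univ.sym true .cons), false)]
          else [c (Queue.Sym.mark, false), c (Queue.Sym.cell default, false),
            c (Queue.Sym.head default (Univ.sym true .cons), false)]) ++
          ((PartrecToTM2.trNat n).map
            (fun a => c (Queue.Sym.cell (Univ.sym false a), false))).reverse := by
        funext n
        simp only [w0, tape, initWord, List.length_cons, List.length_map, List.length_reverse]
        split_ifs <;> simp [Function.comp_def]
      rw [this]
      have hlen := Computable.list_length.comp hd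
      have hmod : Computable (fun n : ℕ => ((((PartrecToTM2.trNat n).map
              (fun a => c (Queue.Sym.cell (Univ.sym false a), false))).length + 1) % 2)) :=
        (Primrec.nat_mod.comp (Primrec.succ.comp Primrec.id) (Primrec.const 2)).to_comp.comp hlen
      have hite : Computable (fun n : ℕ => (if (((PartrecToTM2.trNat n).map
              (fun a => c (Queue.Sym.cell (Univ.sym false a), false))).length + 1) % 2 = 0 then
            [c (Queue.Sym.mark, false), c (Queue.Sym.head default (Univ.sym true .cons), false)]
          else [c (Queue.Sym.mark, false), c (Queue.Sym.cell default, false),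
            c (Queue.Sym.head default (Univ.sym true .cons), false)])) := by
        have hp : Primrec (fun m : ℕ => if m = 0 then
            [c (Queue.Sym.mark, false), c (Queue.Sym.head default (Univ.sym true .cons), false)]
          else [c (Queue.Sym.mark, false), c (Queue.Sym.cell default, false),
            c (Queue.Sym.head default (Univ.sym true .cons), false)]) :=
          Primrec.ite (PrimrecRel.comp Primrec.eq Primrec.id (Primrec.const 0))
            (Primrec.const _) (Primrec.const _)
        exact hp.to_comp.comp hmod
      exact Computable.list_append.comp hite (Computable.list_reverse.comp hd)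
    exact Computable.list_cons.comp (Computable.const 0) hw
  · have := UecPcp.length_eq P Queue.Sym.kill c []
    simp only [UecPcp.H, List.length_cons] at this
    omega
  · intro n
    rw [← hM n]
    have hrep : Rep (TM0.init (tape n) : TM0.Cfg _ Λ) (initWord (tape n)) :=
      rep_init (tape n) (by simp [tape])
    rw [← rep_halts M hrep, UecPcp.reach_iff P Queue.Sym.kill (initWord (tape n))]
    constructor
    · rintro ⟨x, hx, hv, he⟩
      exact UecPcp.solution_reach P Queue.Sym.kill c hc hc2 hP1 hP2 (w0 n) (hw0 n) x hx hv he
    · rintro ⟨b, hb⟩
      exact UecPcp.reach_solution P Queue.Sym.kill c (w0 n) hb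

/-- The halting set used is not computable. -/
theorem not_computable : ¬ ComputablePred fun n => (Univ.u n).Dom := Univ.u_not_computable

/-- A convenient form: if solvability of correspondence instances reduces to `p`, then `p` is not
computable. -/
theorem not_computable_of_reduces {α : Type} [Primcodable α] {p : α → Prop}
    (h : ∃ f : List (List ℕ) × List (List ℕ) → α, Computable f ∧
      ∀ H G, H.length = G.length → (Sol H G ↔ p (f (H, G)))) : ¬ ComputablePred p := by
  obtain ⟨f, hf, hs⟩ := h
  obtain ⟨H', G', w, hw, hlen, hb⟩ := base
  intro hp
  apply not_computable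
  refine ComputablePred.computable_of_manyOneReducible (p := fun n => (Univ.u n).Dom) (q := p)
    ⟨fun n => f (w n :: H', G'), ?_, fun n => ?_⟩ hp
  · exact hf.comp (Computable.pair (Computable.list_cons.comp hw (Computable.const _))
      (Computable.const _))
  · change (Univ.u n).Dom ↔ p (f (w n :: H', G'))
    rw [← hb n]
    exact hs _ _ (by simp [hlen])

end Pool.Agent.R652.PCPBase
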