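import Mathlib
import Pool.Agent.R652.PCPBase

/-!
Global index grammars and a reduction of the correspondence problem to their emptiness problem.
-/

set_option autoImplicit false

namespace Pool.Agent.R652.GIG

open Relation

/-- Grammar symbols: `Sum.inl A` is the nonterminal `A`, `Sum.inr a` is the terminal `a`. -/
abbrev Symb := ℕ ⊕ ℕ

/-- The type of a production, that is, its action on the stack of indices:
`inl (inl ())`: no condition and no change (form (i.1));
`inl (inr y)`: the top of the stack must be `y`, no change (form (i.2)), where `none` is the bottom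
symbol;
`inr (inl (x, a))`: push the index `x`, the right hand side begins with the terminal `a`
(form (ii));
`inr (inr x)`: pop the index `x` (form (iii)). -/
abbrev Op := (Unit ⊕ Option ℕ) ⊕ ((ℕ × ℕ) ⊕ ℕ)

/-- A global index grammar: the start symbol and the list of productions. A production
`(A, o, α)` has left hand side `A`, type `o` and right hand side `α` (preceded by the terminal `a`
if `o` is a push with terminal `a`). The alphabets are the finite sets of the symbols which
occur. -/
abbrev Grammar := ℕ × List (ℕ × Op × List Symb)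

/-- A configuration: the stack of indices above the bottom symbol (top first), and the sentential
form. -/
abbrev Cfg := List ℕ × List Symb

/-- A leftmost derivation step. -/
inductive Step (G : Grammar) : Cfg → Cfg → Prop
  | eps (A : ℕ) (α : List Symb) (h : (A, .inl (.inl ()), α) ∈ G.2) (δ u : List ℕ)
      (γ : List Symb) :
      Step G (δ, u.map .inr ++ .inl A :: γ) (δ, u.map .inr ++ (α ++ γ))
  | test (A : ℕ) (y : Option ℕ) (α : List Symb) (h : (A, .inl (.inr y), α) ∈ G.2) (δ u : List ℕ)
      (γ : List Symb) (hy : δ.head? = y) :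
      Step G (δ, u.map .inr ++ .inl A :: γ) (δ, u.map .inr ++ (α ++ γ))
  | push (A x a : ℕ) (α : List Symb) (h : (A, .inr (.inl (x, a)), α) ∈ G.2) (δ u : List ℕ)
      (γ : List Symb) :
      Step G (δ, u.map .inr ++ .inl A :: γ) (x :: δ, u.map .inr ++ (.inr a :: α ++ γ))
  | pop (A x : ℕ) (α : List Symb) (h : (A, .inr (.inr x), α) ∈ G.2) (δ u : List ℕ)
      (γ : List Symb) :
      Step G (x :: δ, u.map .inr ++ .inl A :: γ) (δ, u.map .inr ++ (α ++ γ))

/-- The language generated by a grammar. -/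
def Lang (G : Grammar) : Set (List ℕ) :=
  {w | ReflTransGen (Step G) ([], [.inl G.1]) ([], w.map .inr)}

/-! ### The reduction -/

/-- the nonterminal which pushes `x` -/
def pu (x : ℕ) : Symb := .inl (2 * x + 1)

/-- the nonterminal which pops `x` -/
def po (x : ℕ) : Symb := .inl (2 * x + 2)

/-- the productions for one tile -/
def tile (h g : List ℕ) : List (ℕ × Op × List Symb) :=
  [(0, .inl (.inl ()), h.map pu ++ .inl 0 :: g.reverse.map po),
    (0, .inl (.inl ()), h.map pu ++ g.reverse.map po)]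

/-- the productions for one letter -/
def letter (x : ℕ) : List (ℕ × Op × List Symb) :=
  [(2 * x + 1, .inr (.inl (x, 0)), []), (2 * x + 2, .inr (.inr x), [])]

/-- the grammar for a correspondence instance -/
def gr (H G : List (List ℕ)) : Grammar :=
  (0, ((List.range H.length).flatMap fun i => tile (H.getD i []) (G.getD i [])) ++
    ((H ++ G).flatten.flatMap letter))

theorem mem_gr {H G : List (List ℕ)} {p : ℕ × Op × List Symb} (hp : p ∈ (gr H G).2) :
    (∃ i < H.length, p = (0, .inl (.inl ()), (H.getD i []).map pu ++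
        .inl 0 :: (G.getD i []).reverse.map po)) ∨
    (∃ i < H.length, p = (0, .inl (.inl ()), (H.getD i []).map pu ++
        (G.getD i []).reverse.map po)) ∨
    (∃ x, p = (2 * x + 1, .inr (.inl (x, 0)), [])) ∨
    (∃ x, p = (2 * x + 2, .inr (.inr x), [])) := by
  simp only [gr, tile, letter, List.mem_append, List.mem_flatMap, List.mem_range, List.mem_cons,
    List.not_mem_nil, or_false] at hp
  rcases hp with ⟨i, hi, h | h⟩ | ⟨x, _, h | h⟩
  · exact Or.inl ⟨i, hi, h⟩
  · exact Or.inr (Or.inl ⟨i, hi, h⟩)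
  · exact Or.inr (Or.inr (Or.inl ⟨x, h⟩))
  · exact Or.inr (Or.inr (Or.inr ⟨x, h⟩))

theorem mem_tile1 {H G : List (List ℕ)} {i : ℕ} (hi : i < H.length) :
    ((0 : ℕ), (.inl (.inl ()) : Op), (H.getD i []).map pu ++
        .inl 0 :: (G.getD i []).reverse.map po) ∈ (gr H G).2 := by
  simp only [gr, tile, List.mem_append, List.mem_flatMap, List.mem_range, List.mem_cons]
  exact Or.inl ⟨i, hi, Or.inl rfl⟩

theorem mem_tile2 {H G : List (List ℕ)} {i : ℕ} (hi : i < H.length) :
    ((0 : ℕ), (.inl (.inl ()) : Op), (H.getD i []).map pu ++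
        (G.getD i []).reverse.map po) ∈ (gr H G).2 := by
  simp only [gr, tile, List.mem_append, List.mem_flatMap, List.mem_range, List.mem_cons]
  exact Or.inl ⟨i, hi, Or.inr (Or.inl rfl)⟩

theorem mem_letter {H G : List (List ℕ)} {x : ℕ} {L : List ℕ} (hL : L ∈ H ++ G) (hx : x ∈ L) :
    ((2 * x + 1 : ℕ), (.inr (.inl (x, 0)) : Op), ([] : List Symb)) ∈ (gr H G).2 ∧
    ((2 * x + 2 : ℕ), (.inr (.inr x) : Op), ([] : List Symb)) ∈ (gr H G).2 := by
  simp only [gr, letter, List.mem_append, List.mem_flatMap, List.mem_cons, List.mem_flatten]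
  constructor
  · exact Or.inr ⟨x, ⟨L, by simpa using hL, hx⟩, Or.inl rfl⟩
  · exact Or.inr ⟨x, ⟨L, by simpa using hL, hx⟩, Or.inr (Or.inl rfl)⟩

section

variable (H G : List (List ℕ))

open PCPBase

/-- all letters of the word occur in the tiles -/
def Ok (w : List ℕ) : Prop := ∀ x ∈ w, ∃ L ∈ H ++ G, x ∈ L

theorem ok_getD_H (i : ℕ) : Ok H G (H.getD i []) := by
  intro x hx
  rw [List.getD_eq_getElem?_getD] at hx
  cases h : H[i]? with
  | none => rw [h] at hx; simp at hx
  | some L =>
    rw [h] at hx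
    exact ⟨L, List.mem_append_left _ (List.mem_of_getElem? h), hx⟩

theorem ok_getD_G (i : ℕ) : Ok H G (G.getD i []) := by
  intro x hx
  rw [List.getD_eq_getElem?_getD] at hx
  cases h : G[i]? with
  | none => rw [h] at hx; simp at hx
  | some L =>
    rw [h] at hx
    exact ⟨L, List.mem_append_right _ (List.mem_of_getElem? h), hx⟩

theorem push_run (w : List ℕ) (hw : Ok H G w) : ∀ (δ u : List ℕ) (γ : List Symb), ∃ u' : List ℕ,
    ReflTransGen (Step (gr H G)) (δ, u.map .inr ++ (w.map pu ++ γ))
      (w.reverse ++ δ, u'.map .inr ++ γ) := by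
  induction w with
  | nil => intro δ u γ; exact ⟨u, by simpa using ReflTransGen.refl⟩
  | cons x w ih =>
    intro δ u γ
    obtain ⟨L, hL, hx⟩ := hw x (List.mem_cons_self)
    obtain ⟨u', hu'⟩ := ih (fun y hy => hw y (List.mem_cons_of_mem _ hy)) (x :: δ) (u ++ [0]) γ
    refine ⟨u', ReflTransGen.head ?_ (by simpa using hu')⟩
    have := Step.push (G := gr H G) (2 * x + 1) x 0 [] (mem_letter hL hx).1 δ u (w.map pu ++ γ)
    simpa [pu] using this

theorem pop_run (w : List ℕ) (hw : Ok H G w) : ∀ (δ u : List ℕ) (γ : List Symb),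
    ReflTransGen (Step (gr H G)) (w ++ δ, u.map .inr ++ (w.map po ++ γ))
      (δ, u.map .inr ++ γ) := by
  induction w with
  | nil => intro δ u γ; simpa using ReflTransGen.refl
  | cons x w ih =>
    intro δ u γ
    obtain ⟨L, hL, hx⟩ := hw x (List.mem_cons_self)
    have hu' := ih (fun y hy => hw y (List.mem_cons_of_mem _ hy)) δ u γ
    refine ReflTransGen.head ?_ hu'
    have := Step.pop (G := gr H G) (2 * x + 2) x [] (mem_letter hL hx).2 (w ++ δ) u (w.map po ++ γ)
    simpa [po] using this

theorem tile_run (x : List ℕ) (hx : ∀ i ∈ x, i < H.length) : ∀ (δ u : List ℕ) (γ : List Symb),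
    ∃ u' : List ℕ,
    ReflTransGen (Step (gr H G)) (δ, u.map .inr ++ (.inl 0 :: γ))
      ((im H x).reverse ++ δ, u'.map .inr ++ (.inl 0 :: ((im G x).reverse.map po ++ γ))) := by
  induction x with
  | nil => intro δ u γ; exact ⟨u, by simpa [im] using ReflTransGen.refl⟩
  | cons i x ih =>
    intro δ u γ
    have h1 := Step.eps (G := gr H G) 0 _ (mem_tile1 (hx i (List.mem_cons_self))) δ u γ
    rw [List.append_assoc, List.cons_append] at h1
    obtain ⟨u1, h2⟩ := push_run H G (H.getD i []) (ok_getD_H H G i) δ u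
      (.inl 0 :: ((G.getD i []).reverse.map po ++ γ))
    obtain ⟨u2, h3⟩ := ih (fun y hy => hx y (List.mem_cons_of_mem _ hy)) ((H.getD i []).reverse ++ δ)
      u1 ((G.getD i []).reverse.map po ++ γ)
    refine ⟨u2, ReflTransGen.head h1 (h2.trans ?_)⟩
    simpa [im] using h3

theorem nonempty_of_sol (h : Sol H G) : (Lang (gr H G)).Nonempty := by
  obtain ⟨x, hx0, hx, he⟩ := h
  obtain ⟨y, i, rfl⟩ : ∃ y i, x = y ++ [i] :=
    ⟨x.dropLast, x.getLast hx0, (List.dropLast_append_getLast hx0).symm⟩
  obtain ⟨u1, h1⟩ := tile_run H G y (fun j hj => hx j (by simp [hj])) [] [] []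
  have h2 := Step.eps (G := gr H G) 0 _ (mem_tile2 (hx i (by simp)))
    ((im H y).reverse ++ []) u1 ((im G y).reverse.map po ++ [])
  rw [List.append_assoc] at h2
  obtain ⟨u2, h3⟩ := push_run H G (H.getD i []) (ok_getD_H H G i) ((im H y).reverse ++ []) u1
    ((G.getD i []).reverse.map po ++ ((im G y).reverse.map po ++ []))
  have hok : Ok H G (im G (y ++ [i])).reverse := by
    intro z hz
    rw [List.mem_reverse, im, List.mem_flatMap] at hz
    obtain ⟨j, _, hj⟩ := hz
    exact ok_getD_G H G j z hj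
  have h4 := pop_run H G (im G (y ++ [i])).reverse hok [] u2 []
  refine ⟨u2, ?_⟩
  have e1 : (H.getD i []).reverse ++ ((im H y).reverse ++ []) = (im G (y ++ [i])).reverse ++ [] := by
    rw [← he]
    simp [im]
  have e2 : (G.getD i []).reverse.map po ++ ((im G y).reverse.map po ++ []) =
      (im G (y ++ [i])).reverse.map po ++ [] := by
    simp [im]
  rw [e2] at h2
  rw [e1, e2] at h3
  have h5 : ReflTransGen (Step (gr H G)) ([], [.inl (gr H G).1]) ([], u2.map .inr ++ []) := by
    refine ReflTransGen.trans ?_ (ReflTransGen.head h2 (h3.trans h4))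
    simpa [gr] using h1
  simpa [Lang] using h5

/-- the invariant -/
def Inv (c : Cfg) : Prop :=
  (∃ (x : List ℕ) (u ws : List ℕ), (∀ i ∈ x, i < H.length) ∧ im H x = c.1.reverse ++ ws ∧
      c.2 = u.map .inr ++ (ws.map pu ++ .inl 0 :: (im G x).reverse.map po)) ∨
  (∃ (x : List ℕ) (u ws : List ℕ), x ≠ [] ∧ (∀ i ∈ x, i < H.length) ∧
      im H x = c.1.reverse ++ ws ∧
      c.2 = u.map .inr ++ (ws.map pu ++ (im G x).reverse.map po)) ∨
  (∃ (x : List ℕ) (u ps cs : List ℕ), x ≠ [] ∧ (∀ i ∈ x, i < H.length) ∧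
      (im H x).reverse = cs ++ c.1 ∧ (im G x).reverse = cs ++ ps ∧
      c.2 = u.map .inr ++ ps.map po)

theorem inv_start : Inv H G ([], [.inl 0]) :=
  Or.inl ⟨[], [], [], by simp, by simp [im], by simp [im]⟩

/-- leftmost nonterminals are unique -/
theorem leftmost {u v : List ℕ} {A : ℕ} {γ β : List Symb}
    (h : u.map .inr ++ .inl A :: γ = v.map .inr ++ β) :
    ∃ w, u = v ++ w ∧ β = w.map .inr ++ .inl A :: γ := by
  induction v generalizing u with
  | nil => exact ⟨u, rfl, by simpa using h.symm⟩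
  | cons y v ih =>
    cases u with
    | nil => simp at h
    | cons z u =>
      simp only [List.map_cons, List.cons_append, List.cons.injEq, Sum.inr.injEq] at h
      obtain ⟨rfl, h⟩ := h
      obtain ⟨w, rfl, hw⟩ := ih h
      exact ⟨w, rfl, hw⟩

theorem leftmost_cons {u v : List ℕ} {A B : ℕ} {γ β : List Symb}
    (h : u.map .inr ++ .inl A :: γ = v.map .inr ++ .inl B :: β) :
    u = v ∧ A = B ∧ γ = β := by
  obtain ⟨w, rfl, hw⟩ := leftmost h
  cases w with
  | nil =>
    simp only [List.map_nil, List.nil_append, List.cons.injEq, Sum.inl.injEq] at hw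
    exact ⟨by simp, hw.1.symm, hw.2.symm⟩
  | cons y w => simp at hw

/-- the three shapes of the right hand side of a matching -/
theorem inv_cases {δ u : List ℕ} {A : ℕ} {γ : List Symb}
    (h : Inv H G (δ, u.map .inr ++ .inl A :: γ)) :
    (∃ (x : List ℕ), A = 0 ∧ (∀ i ∈ x, i < H.length) ∧ im H x = δ.reverse ∧
      γ = (im G x).reverse.map po) ∨
    (∃ (x : List ℕ) (y : ℕ) (ws : List ℕ), A = 2 * y + 1 ∧ (∀ i ∈ x, i < H.length) ∧
      im H x = δ.reverse ++ y :: ws ∧ γ = ws.map pu ++ .inl 0 :: (im G x).reverse.map po) ∨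
    (∃ (x : List ℕ) (y : ℕ) (ws : List ℕ), x ≠ [] ∧ A = 2 * y + 1 ∧ (∀ i ∈ x, i < H.length) ∧
      im H x = δ.reverse ++ y :: ws ∧ γ = ws.map pu ++ (im G x).reverse.map po) ∨
    (∃ (x : List ℕ) (y : ℕ) (ps cs : List ℕ), x ≠ [] ∧ A = 2 * y + 2 ∧
      (∀ i ∈ x, i < H.length) ∧
      (im H x).reverse = cs ++ δ ∧ (im G x).reverse = cs ++ y :: ps ∧
      γ = ps.map po) := by
  rcases h with ⟨x, v, ws, hx, h1, h2⟩ | ⟨x, v, ws, hx0, hx, h1, h2⟩ |
    ⟨x, v, ps, cs, hx0, hx, h1, h2, h3⟩
  · cases ws with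
    | nil =>
      obtain ⟨_, rfl, rfl⟩ := leftmost_cons (B := 0) (β := (im G x).reverse.map po) h2
      exact Or.inl ⟨x, rfl, hx, by simpa using h1, rfl⟩
    | cons y ws =>
      obtain ⟨_, rfl, rfl⟩ := leftmost_cons
        (B := 2 * y + 1) (β := ws.map pu ++ .inl 0 :: (im G x).reverse.map po)
        (by simpa [pu] using h2)
      exact Or.inr (Or.inl ⟨x, y, ws, rfl, hx, h1, rfl⟩)
  · cases ws with
    | nil =>
      cases hg : (im G x).reverse with
      | nil =>
        obtain ⟨w, _, hw⟩ := leftmost h2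
        rw [hg] at hw
        simp at hw
      | cons y ps =>
        rw [hg] at h2
        obtain ⟨_, rfl, rfl⟩ := leftmost_cons (B := 2 * y + 2) (β := ps.map po) h2
        refine Or.inr (Or.inr (Or.inr ⟨x, y, ps, [], hx0, rfl, hx, ?_, hg, rfl⟩))
        rw [h1]; simp
    | cons y ws =>
      obtain ⟨_, rfl, rfl⟩ := leftmost_cons
        (B := 2 * y + 1) (β := ws.map pu ++ (im G x).reverse.map po)
        (by simpa [pu] using h2)
      exact Or.inr (Or.inr (Or.inl ⟨x, y, ws, hx0, rfl, hx, h1, rfl⟩))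
  · cases ps with
    | nil =>
      obtain ⟨w, _, hw⟩ := leftmost h3
      simp at hw
    | cons y ps =>
      obtain ⟨_, rfl, rfl⟩ := leftmost_cons (B := 2 * y + 2) (β := ps.map po)
        (by simpa [po] using h3)
      exact Or.inr (Or.inr (Or.inr ⟨x, y, ps, cs, hx0, rfl, hx, h1, h2, rfl⟩))

theorem im_cons (L : List (List ℕ)) (i : ℕ) (x : List ℕ) :
    im L (i :: x) = L.getD i [] ++ im L x := rfl

theorem im_snoc (L : List (List ℕ)) (i : ℕ) (x : List ℕ) :
    im L (x ++ [i]) = im L x ++ L.getD i [] := by simp [im]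

theorem inv_step {c d : Cfg} (hc : Inv H G c) (h : Step (gr H G) c d) : Inv H G d := by
  cases h with
  | eps A α h δ u γ =>
    rcases mem_gr h with ⟨i, hi, hp⟩ | ⟨i, hi, hp⟩ | ⟨y, hp⟩ | ⟨y, hp⟩
    · simp only [Prod.mk.injEq, true_and] at hp
      obtain ⟨rfl, rfl⟩ := hp
      rcases inv_cases H G hc with ⟨x, _, hx, h1, rfl⟩ | ⟨x, y, ws, hA, _⟩ | ⟨x, y, ws, _, hA, _⟩ |
        ⟨x, y, ps, cs, _, hA, _⟩
      · refine Or.inl ⟨x ++ [i], u, H.getD i [], ?_, ?_, ?_⟩
        · intro j hj
          rcases List.mem_append.1 hj with hj | hj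
          · exact hx j hj
          · rw [List.mem_singleton.1 hj]; exact hi
        · rw [im_snoc, h1]
        · rw [im_snoc]; simp
      all_goals omega
    · simp only [Prod.mk.injEq, true_and] at hp
      obtain ⟨rfl, rfl⟩ := hp
      rcases inv_cases H G hc with ⟨x, _, hx, h1, rfl⟩ | ⟨x, y, ws, hA, _⟩ | ⟨x, y, ws, _, hA, _⟩ |
        ⟨x, y, ps, cs, _, hA, _⟩
      · refine Or.inr (Or.inl ⟨x ++ [i], u, H.getD i [], by simp, ?_, ?_, ?_⟩)
        · intro j hj
          rcases List.mem_append.1 hj with hj | hj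
          · exact hx j hj
          · rw [List.mem_singleton.1 hj]; exact hi
        · rw [im_snoc, h1]
        · rw [im_snoc]; simp
      all_goals omega
    · simp at hp
    · simp at hp
  | test A y α h δ u γ hy =>
    rcases mem_gr h with ⟨i, hi, hp⟩ | ⟨i, hi, hp⟩ | ⟨y, hp⟩ | ⟨y, hp⟩ <;> simp at hp
  | push A z a α h δ u γ =>
    rcases mem_gr h with ⟨i, hi, hp⟩ | ⟨i, hi, hp⟩ | ⟨y, hp⟩ | ⟨y, hp⟩
    · simp at hp
    · simp at hp
    · simp only [Prod.mk.injEq, Sum.inr.injEq, Sum.inl.injEq] at hp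
      obtain ⟨rfl, ⟨rfl, rfl⟩, rfl⟩ := hp
      rcases inv_cases H G hc with ⟨x, hA, _⟩ | ⟨x, y, ws, hA, hx, h1, rfl⟩ |
        ⟨x, y, ws, hx0, hA, hx, h1, rfl⟩ | ⟨x, y, ps, cs, _, hA, _⟩
      · omega
      · obtain rfl : z = y := by omega
        exact Or.inl ⟨x, u ++ [0], ws, hx, by rw [h1]; simp, by simp⟩
      · obtain rfl : z = y := by omega
        exact Or.inr (Or.inl ⟨x, u ++ [0], ws, hx0, hx, by rw [h1]; simp, by simp⟩)
      · omega
    · simp at hp
  | pop A z α h δ u γ =>
    rcases mem_gr h with ⟨i, hi, hp⟩ | ⟨i, hi, hp⟩ | ⟨y, hp⟩ | ⟨y, hp⟩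
    · simp at hp
    · simp at hp
    · simp at hp
    · simp only [Prod.mk.injEq, Sum.inr.injEq] at hp
      obtain ⟨rfl, rfl, rfl⟩ := hp
      rcases inv_cases H G hc with ⟨x, hA, _⟩ | ⟨x, y, ws, hA, hx, h1, _⟩ |
        ⟨x, y, ws, hx0, hA, hx, h1, _⟩ | ⟨x, y, ps, cs, hx0, hA, hx, h1, h2, rfl⟩
      · omega
      · omega
      · omega
      · obtain rfl : z = y := by omega
        exact Or.inr (Or.inr ⟨x, u, ps, cs ++ [z], hx0, hx, by rw [h1]; simp, by rw [h2]; simp,
          by simp⟩)

theorem sol_of_nonempty (h : (Lang (gr H G)).Nonempty) : Sol H G := by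
  obtain ⟨w, hw⟩ := h
  have hinv : ∀ c, ReflTransGen (Step (gr H G)) ([], [.inl (gr H G).1]) c → Inv H G c := by
    intro c hc
    induction hc with
    | refl => exact inv_start H G
    | tail _ h ih => exact inv_step H G ih h
  have no : ∀ (w u : List ℕ) (A : ℕ) (β : List Symb), w.map Sum.inr ≠ u.map .inr ++ .inl A :: β := by
    intro w u A β h
    have : (Sum.inl A : Symb) ∈ w.map Sum.inr := by rw [h]; simp
    simp at this
  rcases hinv _ hw with ⟨x, u, ws, hx, h1, h2⟩ | ⟨x, u, ws, hx0, hx, h1, h2⟩ |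
    ⟨x, u, ps, cs, hx0, hx, h1, h2, h3⟩
  · exfalso
    cases ws with
    | nil => exact no _ _ _ _ (by simpa using h2)
    | cons y ws => exact no _ u (2 * y + 1) _ (by simpa [pu] using h2)
  · cases ws with
    | nil =>
      refine ⟨x, hx0, hx, ?_⟩
      cases hg : (im G x).reverse with
      | nil =>
        rw [h1]
        simp only [List.reverse_nil, List.nil_append]
        exact (List.reverse_eq_nil_iff.1 hg).symm
      | cons y ps =>
        exfalso
        rw [hg] at h2
        exact no _ u (2 * y + 2) _ (by simpa [po] using h2)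
    | cons y ws =>
      exfalso
      exact no _ u (2 * y + 1) _ (by simpa [pu] using h2)
  · cases ps with
    | nil =>
      refine ⟨x, hx0, hx, ?_⟩
      have : (im H x).reverse = (im G x).reverse := by
        rw [h1, h2]
      exact List.reverse_injective this
    | cons y ps =>
      exfalso
      exact no _ u (2 * y + 2) _ (by simpa [po] using h3)

theorem sol_iff : Sol H G ↔ (Lang (gr H G)).Nonempty :=
  ⟨nonempty_of_sol H G, sol_of_nonempty H G⟩

end

/-! ### Computability -/

theorem primrec_pu : Primrec pu :=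
  Primrec.sumInl.comp (Primrec.nat_add.comp (Primrec.nat_mul.comp (Primrec.const 2) Primrec.id)
    (Primrec.const 1))

theorem primrec_po : Primrec po :=
  Primrec.sumInl.comp (Primrec.nat_add.comp (Primrec.nat_mul.comp (Primrec.const 2) Primrec.id)
    (Primrec.const 2))

theorem primrec_tile : Primrec₂ tile := by
  have h1 : Primrec fun p : List ℕ × List ℕ => p.1.map pu :=
    Primrec.list_map Primrec.fst (primrec_pu.comp Primrec.snd).to₂
  have h2 : Primrec fun p : List ℕ × List ℕ => p.2.reverse.map po :=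
    Primrec.list_map (Primrec.list_reverse.comp Primrec.snd) (primrec_po.comp Primrec.snd).to₂
  have h3 : Primrec fun p : List ℕ × List ℕ =>
      ((0 : ℕ), (.inl (.inl ()) : Op), p.1.map pu ++ .inl 0 :: p.2.reverse.map po) :=
    Primrec.pair (Primrec.const 0) (Primrec.pair (Primrec.const _)
      (Primrec.list_append.comp h1 (Primrec.list_cons.comp (Primrec.const _) h2)))
  have h4 : Primrec fun p : List ℕ × List ℕ =>
      ((0 : ℕ), (.inl (.inl ()) : Op), p.1.map pu ++ p.2.reverse.map po) :=
    Primrec.pair (Primrec.const 0) (Primrec.pair (Primrec.const _)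
      (Primrec.list_append.comp h1 h2))
  exact Primrec.list_cons.comp h3 (Primrec.list_cons.comp h4 (Primrec.const []))

theorem primrec_letter : Primrec letter := by
  have h3 : Primrec fun x : ℕ => (2 * x + 1, (.inr (.inl (x, 0)) : Op), ([] : List Symb)) :=
    Primrec.pair (Primrec.nat_add.comp (Primrec.nat_mul.comp (Primrec.const 2) Primrec.id)
      (Primrec.const 1)) (Primrec.pair (Primrec.sumInr.comp (Primrec.sumInl.comp
        (Primrec.pair Primrec.id (Primrec.const 0)))) (Primrec.const _))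
  have h4 : Primrec fun x : ℕ => (2 * x + 2, (.inr (.inr x) : Op), ([] : List Symb)) :=
    Primrec.pair (Primrec.nat_add.comp (Primrec.nat_mul.comp (Primrec.const 2) Primrec.id)
      (Primrec.const 2)) (Primrec.pair (Primrec.sumInr.comp (Primrec.sumInr.comp
        Primrec.id)) (Primrec.const _))
  exact Primrec.list_cons.comp h3 (Primrec.list_cons.comp h4 (Primrec.const []))

theorem primrec_gr : Primrec fun p : List (List ℕ) × List (List ℕ) => gr p.1 p.2 := by
  have hH : Primrec fun q : (List (List ℕ) × List (List ℕ)) × ℕ => q.1.1.getD q.2 [] :=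
    (Primrec.list_getD []).comp (Primrec.fst.comp Primrec.fst) Primrec.snd
  have hG : Primrec fun q : (List (List ℕ) × List (List ℕ)) × ℕ => q.1.2.getD q.2 [] :=
    (Primrec.list_getD []).comp (Primrec.snd.comp Primrec.fst) Primrec.snd
  refine Primrec.pair (Primrec.const 0) (Primrec.list_append.comp ?_ ?_)
  · exact Primrec.list_flatMap (Primrec.list_range.comp (Primrec.list_length.comp Primrec.fst))
      (primrec_tile.comp hH hG).to₂
  · exact Primrec.list_flatMap (Primrec.list_flatten.comp Primrec.list_append)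
      (primrec_letter.comp Primrec.snd).to₂

end Pool.Agent.R652.GIG
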