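import Mathlib

/-!
Words of minimal length which are trivial in a group with triangulations and nontrivial in another
group.
-/

set_option autoImplicit false

namespace Pool.Agent.R652.HP

universe u v w

section Core

variable {ι : Type u} {H : Type v} [Group H] {G : Type w} [Group G]

/-- The value of a word in letters and inverse letters. -/
def val (h : ι → H) (w : List (ι × Bool)) : H :=
  (w.map fun x => cond x.2 (h x.1) (h x.1)⁻¹).prod

theorem val_nil (h : ι → H) : val h [] = 1 := rfl

theorem val_append (h : ι → H) (u v : List (ι × Bool)) : val h (u ++ v) = val h u * val h v := by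
  simp [val]

theorem val_cons (h : ι → H) (x : ι × Bool) (v : List (ι × Bool)) :
    val h (x :: v) = cond x.2 (h x.1) (h x.1)⁻¹ * val h v := by
  simp [val]

/-- positive letters come first -/
def PN (x y : ι × Bool) : Prop := x.2 = true ∨ y.2 = false

/-- the signs which occur -/
def sgn (w : List (ι × Bool)) : Bool × Bool := (w.any fun x => x.2, w.any fun x => !x.2)

theorem pn_iff (u v : List (ι × Bool)) : (∀ x ∈ u, ∀ y ∈ v, PN x y) ↔
    ¬ ((sgn u).2 = true ∧ (sgn v).1 = true) := by
  simp only [sgn, List.any_eq_true, PN]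
  constructor
  · rintro h ⟨⟨x, hx, hx'⟩, ⟨y, hy, hy'⟩⟩
    rcases h x hx y hy with h1 | h1
    · rw [h1] at hx'; simp at hx'
    · rw [h1] at hy'; simp at hy'
  · intro h x hx y hy
    by_contra hc
    push Not at hc
    apply h
    refine ⟨⟨x, hx, ?_⟩, ⟨y, hy, ?_⟩⟩
    · simpa using hc.1
    · simpa using hc.2

theorem pairwise_replace {u v v' z : List (ι × Bool)} (h : (u ++ v ++ z).Pairwise PN)
    (hv : v'.Pairwise PN) (hs : sgn v' = sgn v) : (u ++ v' ++ z).Pairwise PN := by
  rw [List.pairwise_append, List.pairwise_append] at h ⊢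
  obtain ⟨⟨h1, _, h3⟩, h4, h5⟩ := h
  have e1 : ∀ x ∈ u, ∀ y ∈ v', PN x y := by
    rw [pn_iff, hs, ← pn_iff]
    exact h3
  have e2 : ∀ x ∈ v', ∀ y ∈ z, PN x y := by
    rw [pn_iff, hs, ← pn_iff]
    intro x hx y hy
    exact h5 x (List.mem_append_right _ hx) y hy
  refine ⟨⟨h1, hv, e1⟩, h4, ?_⟩
  intro x hx y hy
  rcases List.mem_append.1 hx with hx | hx
  · exact h5 x (List.mem_append_left _ hx) y hy
  · exact e2 x hx y hy

/-- Triangulation property of a set of elements. -/
def Tri (h : ι → H) (D : Set H) : Prop :=
  ∀ w : List (ι × Bool), 2 ≤ w.length → val h w ∈ D →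
    ∃ w1 w2, w = w1 ++ w2 ∧ w1 ≠ [] ∧ w2 ≠ [] ∧ val h w1 ∈ D ∧ val h w2 ∈ D

theorem exists_chain {h : ι → H} {D : Set H} (hD : Tri h D) (k : ℕ) :
    ∀ w : List (ι × Bool), val h w ∈ D → 2 ^ k ≤ w.length →
      ∃ W : ℕ → List (ι × Bool), W 0 = w ∧ (∀ i ≤ k, val h (W i) ∈ D) ∧
        ∀ i < k, W (i + 1) <:+: W i ∧ (W (i + 1)).length < (W i).length := by
  induction k with
  | zero =>
    intro w hw _
    exact ⟨fun _ => w, rfl, fun _ _ => hw, fun i hi => by omega⟩
  | succ k ih =>
    intro w hw hl
    have h2 : 2 ≤ w.length := by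
      have : 2 ^ 1 ≤ 2 ^ (k + 1) := Nat.pow_le_pow_right (by norm_num) (by omega)
      omega
    obtain ⟨w1, w2, rfl, n1, n2, m1, m2⟩ := hD w h2 hw
    have l1 : 0 < w1.length := List.length_pos_iff.2 n1
    have l2 : 0 < w2.length := List.length_pos_iff.2 n2
    rw [List.length_append, pow_succ] at hl
    have key : ∀ v : List (ι × Bool), val h v ∈ D → 2 ^ k ≤ v.length → v <:+: w1 ++ w2 →
        v.length < (w1 ++ w2).length →
        ∃ W : ℕ → List (ι × Bool), W 0 = w1 ++ w2 ∧ (∀ i ≤ k + 1, val h (W i) ∈ D) ∧
          ∀ i < k + 1, W (i + 1) <:+: W i ∧ (W (i + 1)).length < (W i).length := by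
      intro v hv hvl hi hlt
      obtain ⟨W, h0, h1, h2⟩ := ih v hv hvl
      refine ⟨fun i => match i with
        | 0 => w1 ++ w2
        | i + 1 => W i, rfl, ?_, ?_⟩
      · intro i hi
        cases i with
        | zero => exact hw
        | succ i => exact h1 i (by omega)
      · intro i hi'
        cases i with
        | zero =>
          simp only [h0]
          exact ⟨hi, hlt⟩
        | succ i => exact h2 i (by omega)
    by_cases hc : 2 ^ k ≤ w1.length
    · refine key w1 m1 hc (List.infix_append' [] w1 w2) ?_
      rw [List.length_append]; omega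
    · refine key w2 m2 (by omega) (List.suffix_append _ _).isInfix ?_
      rw [List.length_append]; omega

theorem chain_lt {W : ℕ → List (ι × Bool)} {k : ℕ}
    (h : ∀ i < k, W (i + 1) <:+: W i ∧ (W (i + 1)).length < (W i).length) {i j : ℕ} (hij : i < j)
    (hj : j ≤ k) : W j <:+: W i ∧ (W j).length < (W i).length := by
  induction j, hij using Nat.le_induction with
  | base => exact h i (by omega)
  | succ j hij ih =>
    obtain ⟨h1, h2⟩ := ih (by omega)
    obtain ⟨h3, h4⟩ := h j (by omega)
    exact ⟨h3.trans h1, by omega⟩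

theorem chain_le {W : ℕ → List (ι × Bool)} {k : ℕ}
    (h : ∀ i < k, W (i + 1) <:+: W i ∧ (W (i + 1)).length < (W i).length) {i : ℕ}
    (hi : i ≤ k) : W i <:+: W 0 := by
  rcases Nat.eq_zero_or_pos i with rfl | h0
  · exact List.infix_rfl
  · exact (chain_lt h h0 hi).1

theorem three_of_card {n : ℕ} {α : Type*} [Fintype α] [DecidableEq α] (f : Fin n → α)
    (h : Fintype.card α * 2 < n) : ∃ i j l : Fin n, i < j ∧ j < l ∧ f i = f j ∧ f j = f l := by
  obtain ⟨y, hy⟩ := Fintype.exists_lt_card_fiber_of_mul_lt_card f (n := 2) (by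
    rw [Fintype.card_fin]; exact h)
  rw [Finset.two_lt_card] at hy
  obtain ⟨a, ha, b, hb, c, hc, hab, hac, hbc⟩ := hy
  rw [Finset.mem_filter] at ha hb hc
  have ea := ha.2
  have eb := hb.2
  have ec := hc.2
  rcases lt_or_gt_of_ne hab with h1 | h1 <;> rcases lt_or_gt_of_ne hac with h2 | h2 <;>
    rcases lt_or_gt_of_ne hbc with h3 | h3
  · exact ⟨a, b, c, h1, h3, by rw [ea, eb], by rw [eb, ec]⟩
  · exact ⟨a, c, b, h2, h3, by rw [ea, ec], by rw [ec, eb]⟩
  · exact absurd (h1.trans h3) (not_lt.2 h2.le)
  · exact ⟨c, a, b, h2, h1, by rw [ec, ea], by rw [ea, eb]⟩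
  · exact ⟨b, a, c, h1, h2, by rw [eb, ea], by rw [ea, ec]⟩
  · exact absurd (h1.trans h2) (not_lt.2 h3.le)
  · exact ⟨b, c, a, h3, h2, by rw [eb, ec], by rw [ec, ea]⟩
  · exact ⟨c, b, a, h3, h1, by rw [ec, eb], by rw [eb, ea]⟩

/-- If all short words with trivial value in the first group have trivial value in the second
group, then all words do. -/
theorem core {h : ι → H} (g : ι → G) {D : Set H} (hf : D.Finite) (h1 : (1 : H) ∈ D)
    (hD : Tri h D) {N : ℕ} (hN : 2 ^ (8 * D.ncard) ≤ N)
    (hs : ∀ w : List (ι × Bool), w.length < N → w.Pairwise PN → val h w = 1 → val g w = 1) :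
    ∀ w : List (ι × Bool), w.Pairwise PN → val h w = 1 → val g w = 1 := by
  classical
  intro w
  induction hn : w.length using Nat.strong_induction_on generalizing w with
  | _ n ih =>
    subst hn
    intro hp hw
    by_cases hlt : w.length < N
    · exact hs w hlt hp hw
    have ih' : ∀ v : List (ι × Bool), v.length < w.length → v.Pairwise PN → val h v = 1 →
        val g v = 1 := fun v hv => ih _ hv v rfl
    obtain ⟨W, hW0, hWD, hW⟩ := exists_chain hD (8 * D.ncard) w (by rw [hw]; exact h1)
      (by omega)
    have : Fintype D := hf.fintype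
    let f : Fin (8 * D.ncard + 1) → D × (Bool × Bool) := fun i =>
      (⟨val h (W i), hWD i (by omega)⟩, sgn (W i))
    obtain ⟨i, j, l, hij, hjl, e1, e2⟩ := three_of_card f (by
      rw [Fintype.card_prod, Fintype.card_prod, Fintype.card_bool, ← Nat.card_eq_fintype_card,
        Nat.card_coe_set_eq]
      omega)
    have hi := i.2
    have hj := j.2
    have hl := l.2
    have hij' : (i : ℕ) < j := hij
    have hjl' : (j : ℕ) < l := hjl
    have a1 : val h (W i) = val h (W j) := congrArg (fun p => (p.1 : H)) e1
    have a2 : val h (W j) = val h (W l) := congrArg (fun p => (p.1 : H)) e2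
    have b1 : sgn (W i) = sgn (W j) := congrArg (fun p => p.2) e1
    have b2 : sgn (W j) = sgn (W l) := congrArg (fun p => p.2) e2
    have c0 := chain_le hW (i := i) (by omega)
    obtain ⟨c1, d1⟩ := chain_lt hW hij' (by omega)
    obtain ⟨c2, d2⟩ := chain_lt hW hjl' (by omega)
    have pj : (W j).Pairwise PN := by
      have := (c1.trans c0).sublist
      rw [hW0] at this
      exact hp.sublist this
    have pl : (W l).Pairwise PN := by
      have := ((c2.trans c1).trans c0).sublist
      rw [hW0] at this
      exact hp.sublist this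
    rw [hW0] at c0
    obtain ⟨α1, δ1, k1⟩ := c0
    obtain ⟨α2, δ2, k2⟩ := c1
    set V1 := W i
    set V2 := W j
    set V3 := W l
    have hlw : w.length = α1.length + V1.length + δ1.length := by
      rw [← k1, List.length_append, List.length_append]
    have hl1 : V1.length = α2.length + V2.length + δ2.length := by
      rw [← k2, List.length_append, List.length_append]
    -- first replacement
    have r1 : val g (α1 ++ V2 ++ δ1) = 1 := by
      apply ih'
      · simp only [List.length_append]; omega
      · rw [← k1] at hp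
        exact pairwise_replace hp pj b1.symm
      · rw [← k1] at hw
        rw [val_append, val_append, a1] at hw
        rw [val_append, val_append]
        exact hw
    have r2 : val g (α1 ++ V3 ++ δ1) = 1 := by
      apply ih'
      · simp only [List.length_append]; omega
      · rw [← k1] at hp
        exact pairwise_replace hp pl (b1.trans b2).symm
      · rw [← k1] at hw
        rw [val_append, val_append, a1, a2] at hw
        rw [val_append, val_append]
        exact hw
    have r3 : val g ((α1 ++ α2) ++ V3 ++ (δ2 ++ δ1)) = 1 := by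
      have kk : (α1 ++ α2) ++ V2 ++ (δ2 ++ δ1) = w := by
        rw [← k1, ← k2]
        simp only [List.append_assoc]
      apply ih'
      · simp only [List.length_append]; omega
      · rw [← kk] at hp
        exact pairwise_replace hp pl b2.symm
      · rw [← kk] at hw
        rw [val_append, val_append, a2] at hw
        rw [val_append, val_append]
        exact hw
    have e : val g V2 = val g V3 := by
      rw [val_append, val_append] at r1 r2
      rw [← r2] at r1
      exact mul_left_cancel (mul_right_cancel r1)
    have kk : w = (α1 ++ α2) ++ V2 ++ (δ2 ++ δ1) := by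
      rw [← k1, ← k2]
      simp only [List.append_assoc]
    rw [kk, val_append, val_append, e, ← val_append, ← val_append]
    exact r3

end Core

end Pool.Agent.R652.HP
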