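import Mathlib

/-!
Geometry of the Cayley tree of a free group.
-/

set_option autoImplicit false

namespace Pool.Agent.R652.HP

universe u

section Free

variable {α : Type u} [DecidableEq α]

open FreeGroup

theorem take_eq_of_le {x y : FreeGroup α} {k : ℕ} (h : x.toWord.take k = y.toWord.take k)
    (hx : k ≤ x.norm) (hy : k ≤ y.norm) : (x⁻¹ * y).norm + 2 * k ≤ x.norm + y.norm := by
  have ex : x = mk (x.toWord.take k) * mk (x.toWord.drop k) := by
    rw [mul_mk, List.take_append_drop, mk_toWord]
  have ey : y = mk (x.toWord.take k) * mk (y.toWord.drop k) := by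
    rw [h, mul_mk, List.take_append_drop, mk_toWord]
  have e : x⁻¹ * y = (mk (x.toWord.drop k))⁻¹ * mk (y.toWord.drop k) := by
    conv_lhs => rw [ex, ey]
    group
  have h1 : (x⁻¹ * y).norm ≤ (x.toWord.drop k).length + (y.toWord.drop k).length := by
    rw [e]
    refine (FreeGroup.norm_mul_le _ _).trans ?_
    rw [norm_inv_eq]
    exact add_le_add norm_mk_le norm_mk_le
  rw [List.length_drop, List.length_drop] at h1
  have h2 : x.toWord.length = x.norm := rfl
  have h3 : y.toWord.length = y.norm := rfl
  omega

theorem take_eq_aux (u : List (α × Bool)) : ∀ (v : List (α × Bool)) (k : ℕ), IsReduced u →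
    IsReduced v → (reduce (invRev u ++ v)).length + 2 * k ≤ u.length + v.length →
    u.take k = v.take k := by
  induction u with
  | nil =>
    intro v k _ hv h
    rw [invRev_empty, List.nil_append, hv.reduce_eq, List.length_nil] at h
    have : k = 0 := by omega
    subst this
    simp
  | cons a u ih =>
    intro v k hu hv h
    cases v with
    | nil =>
      have hr : reduce (invRev (a :: u)) = invRev (a :: u) := by
        rw [reduce_invRev, hu.reduce_eq]
      rw [List.append_nil, hr, invRev_length, List.length_nil] at h
      have : k = 0 := by omega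
      subst this
      simp
    | cons b v =>
      by_cases hab : a = b
      · subst hab
        have hr : reduce (invRev (a :: u) ++ a :: v) = reduce (invRev u ++ v) := by
          apply reduce.Step.eq
          have : invRev (a :: u) ++ a :: v = invRev u ++ (a.1, !a.2) :: (a.1, a.2) :: v := by
            simp [invRev]
          rw [this]
          exact Red.Step.not_rev
        rw [hr, List.length_cons, List.length_cons] at h
        cases k with
        | zero => simp
        | succ k =>
          rw [List.take_succ_cons, List.take_succ_cons, ih v k ?_ ?_ (by omega)]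
          · exact List.IsChain.tail hu
          · exact List.IsChain.tail hv
      · have hr : IsReduced (invRev (a :: u) ++ b :: v) := by
          have e : invRev (a :: u) ++ b :: v = invRev u ++ [(a.1, !a.2)] ++ b :: v := by
            simp [invRev]
          have h1 : IsReduced (invRev u ++ [(a.1, !a.2)]) := by
            have : IsReduced (invRev (a :: u)) := by
              rw [isReduced_iff_reduce_eq, reduce_invRev, hu.reduce_eq]
            simpa [invRev] using this
          rw [e]
          unfold FreeGroup.IsReduced at h1 hv ⊢
          rw [List.isChain_append]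
          refine ⟨h1, hv, ?_⟩
          intro x hx y hy
          simp only [List.getLast?_append, List.getLast?_singleton, Option.some_or,
            Option.mem_def, Option.some.injEq, List.head?_cons] at hx hy
          subst hx
          subst hy
          intro h2
          by_contra h3
          apply hab
          have h4 : a.2 = b.2 := by
            revert h3
            cases a.2 <;> cases b.2 <;> simp
          exact Prod.ext h2 h4
        rw [hr.reduce_eq, List.length_append, invRev_length] at h
        have : k = 0 := by omega
        subst this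
        simp

theorem take_eq {x y : FreeGroup α} {k : ℕ} (h : (x⁻¹ * y).norm + 2 * k ≤ x.norm + y.norm) :
    x.toWord.take k = y.toWord.take k := by
  apply take_eq_aux _ _ _ isReduced_toWord isReduced_toWord
  rw [← toWord_inv, ← toWord_mul]
  exact h

/-- A discrete path from the identity to an element of the ball of radius `R` with steps of
length at most `m ≤ R / 2` can be split. -/
theorem split {m R : ℕ} (hR : 2 * m ≤ R) {n : ℕ} (hn : 2 ≤ n) (f : ℕ → FreeGroup α)
    (h0 : f 0 = 1) (hm : ∀ i < n, ((f i)⁻¹ * f (i + 1)).norm ≤ m) (hd : (f n).norm ≤ R) :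
    ∃ k, 0 < k ∧ k < n ∧ (f k).norm ≤ R ∧ ((f k)⁻¹ * f n).norm ≤ R := by
  have step : ∀ i < n, (f (i + 1)).norm ≤ (f i).norm + m ∧ (f i).norm ≤ (f (i + 1)).norm + m := by
    intro i hi
    have h1 := hm i hi
    constructor
    · have : f (i + 1) = f i * ((f i)⁻¹ * f (i + 1)) := by group
      calc (f (i + 1)).norm = (f i * ((f i)⁻¹ * f (i + 1))).norm := by rw [← this]
        _ ≤ _ := FreeGroup.norm_mul_le _ _
        _ ≤ _ := by omega
    · have : f i = f (i + 1) * ((f i)⁻¹ * f (i + 1))⁻¹ := by group
      calc (f i).norm = (f (i + 1) * ((f i)⁻¹ * f (i + 1))⁻¹).norm := by rw [← this]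
        _ ≤ _ := FreeGroup.norm_mul_le _ _
        _ ≤ _ := by rw [norm_inv_eq]; omega
  obtain ⟨n, rfl⟩ : ∃ n', n = n' + 1 := ⟨n - 1, by omega⟩
  by_cases hl : (f n).norm ≤ R
  · exact ⟨n, by omega, by omega, hl, (hm n (by omega)).trans (by omega)⟩
  -- last index with small norm
  have h1 : (f 1).norm ≤ R := by
    have := (step 0 (by omega)).1
    rw [h0, FreeGroup.norm_one] at this
    simp only [zero_add] at this
    omega
  obtain ⟨k, hk1, hkn, hkR, hk⟩ : ∃ k, 1 ≤ k ∧ k < n ∧ (f k).norm ≤ R ∧
      ∀ j, k < j → j ≤ n → R < (f j).norm := by
    classical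
    let P : ℕ → Prop := fun k => 1 ≤ k ∧ (f k).norm ≤ R
    have hP : P (Nat.findGreatest P n) := Nat.findGreatest_spec (m := 1) (by omega) ⟨le_rfl, h1⟩
    refine ⟨Nat.findGreatest P n, hP.1, ?_, hP.2, ?_⟩
    · refine lt_of_le_of_ne (Nat.findGreatest_le n) ?_
      intro h
      rw [h] at hP
      exact hl hP.2
    · intro j hj hjn
      have := Nat.findGreatest_is_greatest hj hjn
      by_contra hc
      exact this ⟨by omega, by omega⟩
  refine ⟨k, by omega, by omega, hkR, ?_⟩
  -- common prefixes
  obtain ⟨p, hp⟩ : ∃ p, p + m = R + 1 := ⟨R + 1 - m, by omega⟩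
  have e1 : ∀ j, k ≤ j → j ≤ n → (f (j + 1)).toWord.take p = (f j).toWord.take p := by
    intro j hj hjn
    symm
    apply take_eq
    have := hm j (by omega)
    have s := step j (by omega)
    rcases Nat.lt_or_ge k j with h | h
    · have a1 := hk j h hjn
      rcases Nat.lt_or_ge j n with h' | h'
      · have a2 := hk (j + 1) (by omega) h'
        omega
      · omega
    · have a2 := hk (j + 1) (by omega) (by omega)
      omega
  have e2 : ∀ j, k ≤ j → j ≤ n + 1 → (f j).toWord.take p = (f k).toWord.take p := by
    intro j hj
    induction j, hj using Nat.le_induction with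
    | base => intro _; rfl
    | succ j hj ih =>
      intro h
      rw [e1 j hj (by omega), ih (by omega)]
  have e3 := e2 (n + 1) (by omega) le_rfl
  have a1 := hk (k + 1) (by omega) (by omega)
  have a2 := step k (by omega)
  have a3 := step n (by omega)
  have a4 : R < (f n).norm := by omega
  have := take_eq_of_le e3.symm (by omega) (by omega)
  omega

end Free

end Pool.Agent.R652.HP
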