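import Mathlib
import Pool.Agent.R652.HomCore
import Pool.Agent.R652.HomFree

/-!
Coordinates on virtually free groups.
-/

set_option autoImplicit false

namespace Pool.Agent.R652.HP

universe u v w

/-- Coordinates on a group with respect to a family of elements: every element which is a
product of members of the family and their inverses is in a unique way the product of an element
of a free subgroup and of one of finitely many representatives. -/
structure Coord {H : Type v} [Group H] {ι : Type u} (a : ι → H) where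
  q : ℕ
  p : ℕ
  rep : Fin q → H
  t0 : Fin q
  rep_t0 : rep t0 = 1
  ψ : FreeGroup (Fin p) →* H
  inj : ∀ f f' t t', ψ f * rep t = ψ f' * rep t' → f = f' ∧ t = t'
  δ : ι × Bool → Fin q → Fin q
  c : ι × Bool → Fin q → List (Fin p × Bool)
  step : ∀ x t, rep t * cond x.2 (a x.1) (a x.1)⁻¹ = ψ (FreeGroup.mk (c x t)) * rep (δ x t)

theorem exists_letters {X : Type w} [DecidableEq X] {κ : Type*} [Finite κ] (f : κ → FreeGroup X) :
    ∃ (p : ℕ) (j : Fin p → X) (c : κ → List (Fin p × Bool)), Function.Injective j ∧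
      ∀ k, FreeGroup.map j (FreeGroup.mk (c k)) = f k := by
  classical
  let X0 : Set X := {x | ∃ k, ∃ y ∈ (f k).toWord, y.1 = x}
  have hfin : X0.Finite := by
    have : X0 = ⋃ k, ((fun y : X × Bool => y.1) '' {y | y ∈ (f k).toWord}) := by
      ext x
      simp [X0]
    rw [this]
    apply Set.finite_iUnion
    intro k
    exact (List.finite_toSet _).image _
  have := hfin.fintype
  obtain ⟨p, ⟨e⟩⟩ := Finite.exists_equiv_fin X0
  refine ⟨p, fun i => (e.symm i : X), fun k => (f k).toWord.attach.map fun y =>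
    (e ⟨y.1.1, ⟨k, y.1, y.2, rfl⟩⟩, y.1.2), ?_, ?_⟩
  · intro i i' h
    exact e.symm.injective (Subtype.ext h)
  · intro k
    rw [FreeGroup.map.mk, List.map_map]
    have : (List.map ((fun x : Fin p × Bool => ((e.symm x.1 : X), x.2)) ∘ fun y :
        {y // y ∈ (f k).toWord} => (e ⟨y.1.1, ⟨k, y.1, y.2, rfl⟩⟩, y.1.2))
        (f k).toWord.attach) = (f k).toWord := by
      conv_rhs => rw [← List.attach_map_subtype_val (f k).toWord]
      apply List.map_congr_left
      intro y _
      simp
    rw [this, FreeGroup.mk_toWord]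

theorem exists_coord {H : Type v} [Group H] (F : Subgroup H) [F.FiniteIndex] [IsFreeGroup F]
    {ι : Type u} [Finite ι] (a : ι → H) : Nonempty (Coord a) := by
  classical
  obtain ⟨T, hT, h1⟩ := F.exists_isComplement_right 1
  have hTf : Finite T := hT.finite_right
  obtain ⟨q, ⟨e⟩⟩ := Finite.exists_equiv_fin T
  -- unique decomposition
  have hex : ∀ (x : ι × Bool) (t : Fin q), ∃ (f : F) (t' : Fin q),
      (e.symm t : H) * cond x.2 (a x.1) (a x.1)⁻¹ = (f : H) * (e.symm t' : H) := by
    intro x t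
    obtain ⟨⟨f, s⟩, hs, _⟩ := hT.existsUnique ((e.symm t : H) * cond x.2 (a x.1) (a x.1)⁻¹)
    refine ⟨f, e s, ?_⟩
    rw [e.symm_apply_apply]
    exact hs.symm
  choose f δ hf using hex
  obtain ⟨p, j, c, hj, hc⟩ := exists_letters
    (fun k : (ι × Bool) × Fin q => IsFreeGroup.toFreeGroup F (f k.1 k.2))
  refine ⟨⟨q, p, fun t => (e.symm t : H), e ⟨1, h1⟩, by simp,
    F.subtype.comp ((IsFreeGroup.toFreeGroup F).symm.toMonoidHom.comp (FreeGroup.map j)), ?_, δ,
    fun x t => c (x, t), ?_⟩⟩
  · intro f1 f2 t t' h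
    have h' : (F.subtype.comp ((IsFreeGroup.toFreeGroup F).symm.toMonoidHom.comp
        (FreeGroup.map j))) f1 = ((IsFreeGroup.toFreeGroup F).symm (FreeGroup.map j f1) : H) := rfl
    have h'' : (F.subtype.comp ((IsFreeGroup.toFreeGroup F).symm.toMonoidHom.comp
        (FreeGroup.map j))) f2 = ((IsFreeGroup.toFreeGroup F).symm (FreeGroup.map j f2) : H) := rfl
    rw [h', h''] at h
    have := hT.1 (a₁ := ((IsFreeGroup.toFreeGroup F).symm (FreeGroup.map j f1), e.symm t))
      (a₂ := ((IsFreeGroup.toFreeGroup F).symm (FreeGroup.map j f2), e.symm t')) h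
    rw [Prod.mk.injEq] at this
    refine ⟨?_, e.symm.injective this.2⟩
    exact FreeGroup.map_injective hj ((IsFreeGroup.toFreeGroup F).symm.injective this.1)
  · intro x t
    have h' : (F.subtype.comp ((IsFreeGroup.toFreeGroup F).symm.toMonoidHom.comp
        (FreeGroup.map j))) (FreeGroup.mk (c (x, t))) =
        ((IsFreeGroup.toFreeGroup F).symm (FreeGroup.map j (FreeGroup.mk (c (x, t)))) : H) := rfl
    rw [h', hc]
    simp only [MulEquiv.symm_apply_apply]
    exact hf x t

namespace Coord

variable {H : Type v} [Group H] {ι : Type u} {a : ι → H} (C : Coord a)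

/-- the state after reading a word -/
def runS : List (ι × Bool) → Fin C.q → Fin C.q
  | [], t => t
  | x :: w, t => runS w (C.δ x t)

/-- the output after reading a word -/
def runW : List (ι × Bool) → Fin C.q → List (Fin C.p × Bool)
  | [], _ => []
  | x :: w, t => C.c x t ++ runW w (C.δ x t)

theorem run_spec (w : List (ι × Bool)) : ∀ t, C.rep t * val a w =
    C.ψ (FreeGroup.mk (C.runW w t)) * C.rep (C.runS w t) := by
  induction w with
  | nil =>
    intro t
    simp [val_nil, runW, runS, FreeGroup.one_eq_mk.symm]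
  | cons x w ih =>
    intro t
    rw [val_cons, ← mul_assoc, C.step, mul_assoc, ih, ← mul_assoc, ← map_mul, FreeGroup.mul_mk]
    rfl

theorem val_eq_one_iff (w : List (ι × Bool)) :
    val a w = 1 ↔ C.runS w C.t0 = C.t0 ∧ FreeGroup.reduce (C.runW w C.t0) = [] := by
  have h := C.run_spec w C.t0
  rw [C.rep_t0, one_mul] at h
  have h1 : FreeGroup.reduce (C.runW w C.t0) = [] ↔ FreeGroup.mk (C.runW w C.t0) = 1 := by
    rw [← FreeGroup.toWord_mk, FreeGroup.toWord_eq_nil_iff]
  rw [h1]
  constructor
  · intro hv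
    rw [hv] at h
    have h2 : C.ψ 1 * C.rep C.t0 = C.ψ (FreeGroup.mk (C.runW w C.t0)) *
        C.rep (C.runS w C.t0) := by
      rw [← h, map_one, C.rep_t0, one_mul]
    obtain ⟨h3, h4⟩ := C.inj _ _ _ _ h2
    exact ⟨h4.symm, h3.symm⟩
  · rintro ⟨h3, h4⟩
    rw [h, h3, h4, map_one, C.rep_t0, one_mul]

/-- the elements with coordinates in the ball of radius `R` -/
def ball (R : ℕ) : Set H :=
  {z | ∃ (t t' : Fin C.q) (f : FreeGroup (Fin C.p)), f.norm ≤ R ∧ C.rep t * z = C.ψ f * C.rep t'}

theorem exists_pad {A : Type*} (R : ℕ) : ∀ l : List A, l.length ≤ R →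
    ∃ g : Fin R → Option A, (List.ofFn g).reduceOption = l := by
  induction R with
  | zero =>
    intro l hl
    have : l = [] := List.length_eq_zero_iff.1 (by omega)
    subst this
    exact ⟨fun _ => none, by simp⟩
  | succ R ih =>
    intro l hl
    cases l with
    | nil =>
      obtain ⟨g, hg⟩ := ih [] (by simp)
      refine ⟨Fin.cons none g, ?_⟩
      rw [List.ofFn_cons, List.reduceOption_cons_of_none]
      exact hg
    | cons x l =>
      obtain ⟨g, hg⟩ := ih l (by simpa using hl)
      refine ⟨Fin.cons (some x) g, ?_⟩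
      rw [List.ofFn_cons, List.reduceOption_cons_of_some, hg]

theorem ball_subset (R : ℕ) : C.ball R ⊆ Set.range
    (fun y : Fin C.q × Fin C.q × (Fin R → Option (Fin C.p × Bool)) =>
      (C.rep y.1)⁻¹ * (C.ψ (FreeGroup.mk (List.ofFn y.2.2).reduceOption) * C.rep y.2.1)) := by
  rintro z ⟨t, t', f, hf, hz⟩
  obtain ⟨g, hg⟩ := exists_pad R f.toWord hf
  refine ⟨(t, t', g), ?_⟩
  simp only [hg, FreeGroup.mk_toWord]
  rw [← hz]
  group

theorem ball_finite (R : ℕ) : (C.ball R).Finite :=
  (Set.finite_range _).subset (C.ball_subset R)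

theorem ball_ncard (R : ℕ) : (C.ball R).ncard ≤ C.q * (C.q * (2 * C.p + 1) ^ R) := by
  refine (Set.ncard_le_ncard (C.ball_subset R) (Set.finite_range _)).trans ?_
  rw [← Set.image_univ]
  refine (Set.ncard_image_le Set.finite_univ).trans ?_
  rw [Set.ncard_univ, Nat.card_eq_fintype_card]
  simp only [Fintype.card_prod, Fintype.card_fin, Fintype.card_fun, Fintype.card_option,
    Fintype.card_bool]
  rw [mul_comm C.p 2]

theorem one_mem_ball (R : ℕ) : (1 : H) ∈ C.ball R :=
  ⟨C.t0, C.t0, 1, by rw [FreeGroup.norm_one]; exact Nat.zero_le _, by simp⟩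

/-- bound on the lengths of the output words -/
theorem exists_bound [Finite ι] : ∃ B : ℕ, ∀ x t, (C.c x t).length ≤ B := by
  have := Fintype.ofFinite ι
  refine ⟨(Finset.univ : Finset ((ι × Bool) × Fin C.q)).sup fun k => (C.c k.1 k.2).length, ?_⟩
  intro x t
  exact Finset.le_sup (f := fun k : (ι × Bool) × Fin C.q => (C.c k.1 k.2).length)
    (Finset.mem_univ (x, t))

theorem length_runW {B : ℕ} (hB : ∀ x t, (C.c x t).length ≤ B) (w : List (ι × Bool)) :
    ∀ t, (C.runW w t).length ≤ B * w.length := by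
  induction w with
  | nil => intro t; simp [runW]
  | cons x w ih =>
    intro t
    rw [runW, List.length_append, List.length_cons]
    have := ih (C.δ x t)
    have := hB x t
    rw [mul_add]
    omega

end Coord

/-- inverse of a word -/
def winv {ι : Type u} (w : List (ι × Bool)) : List (ι × Bool) := (w.map fun x => (x.1, !x.2)).reverse

theorem val_winv {H : Type v} [Group H] {ι : Type u} (a : ι → H) (w : List (ι × Bool)) :
    val a (winv w) = (val a w)⁻¹ := by
  induction w with
  | nil => simp [winv, val]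
  | cons x w ih =>
    have : winv (x :: w) = winv w ++ [(x.1, !x.2)] := by simp [winv]
    rw [this, val_append, ih, val_cons a x w, mul_inv_rev]
    congr 1
    cases hx : x.2 <;> simp [val]

theorem length_winv {ι : Type u} (w : List (ι × Bool)) : (winv w).length = w.length := by
  simp [winv]

/-- A family of products of at most `ℓ` letters satisfies the triangulation property for large
balls. -/
theorem Coord.tri {H : Type v} [Group H] {ι : Type u} {a : ι → H} (C : Coord a) {B : ℕ}
    (hB : ∀ x t, (C.c x t).length ≤ B) {κ : Type*} (h : κ → H) {ℓ : ℕ}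
    (hh : ∀ k, ∃ u : List (ι × Bool), u.length ≤ ℓ ∧ h k = val a u) {R : ℕ}
    (hR : 2 * (B * ℓ) ≤ R) : Tri h (C.ball R) := by
  -- one letter
  have h1 : ∀ (x : κ × Bool) (t : Fin C.q), ∃ (g : FreeGroup (Fin C.p)) (t' : Fin C.q),
      g.norm ≤ B * ℓ ∧ C.rep t * cond x.2 (h x.1) (h x.1)⁻¹ = C.ψ g * C.rep t' := by
    intro x t
    obtain ⟨u, hu, hx⟩ := hh x.1
    have : ∃ u' : List (ι × Bool), u'.length ≤ ℓ ∧ cond x.2 (h x.1) (h x.1)⁻¹ = val a u' := by
      cases hx2 : x.2
      · exact ⟨winv u, by rw [length_winv]; exact hu, by rw [val_winv, hx]; rfl⟩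
      · exact ⟨u, hu, by rw [hx]; rfl⟩
    obtain ⟨u', hu', hx'⟩ := this
    refine ⟨FreeGroup.mk (C.runW u' t), C.runS u' t, ?_, ?_⟩
    · exact FreeGroup.norm_mk_le.trans ((C.length_runW hB u' t).trans
        (Nat.mul_le_mul_left _ hu'))
    · rw [hx', C.run_spec]
  -- words
  have h2 : ∀ (w : List (κ × Bool)) (t : Fin C.q), ∃ (g : FreeGroup (Fin C.p)) (t' : Fin C.q),
      C.rep t * val h w = C.ψ g * C.rep t' := by
    intro w
    induction w with
    | nil => intro t; exact ⟨1, t, by simp [val_nil]⟩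
    | cons x w ih =>
      intro t
      obtain ⟨g, t', _, hg⟩ := h1 x t
      obtain ⟨g', t'', hg'⟩ := ih t'
      refine ⟨g * g', t'', ?_⟩
      rw [val_cons, ← mul_assoc, hg, mul_assoc, hg', ← mul_assoc, map_mul]
  intro w hw ⟨t, t', f, hf, hv⟩
  choose G S hGS using fun k => h2 (w.take k) t
  have hn := hGS w.length
  rw [List.take_length, hv] at hn
  obtain ⟨en1, en2⟩ := C.inj _ _ _ _ hn
  have h0 := hGS 0
  rw [List.take_zero, val_nil, mul_one] at h0
  have h0' : C.ψ 1 * C.rep t = C.ψ (G 0) * C.rep (S 0) := by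
    rw [← h0, map_one, one_mul]
  obtain ⟨e01, e02⟩ := C.inj _ _ _ _ h0'
  have hstep : ∀ i < w.length, ((G i)⁻¹ * G (i + 1)).norm ≤ B * ℓ := by
    intro i hi
    obtain ⟨g, t'', hg1, hg2⟩ := h1 w[i] (S i)
    have := hGS (i + 1)
    rw [List.take_succ_eq_append_getElem hi, val_append, ← mul_assoc, hGS i, mul_assoc] at this
    have e : val h [w[i]] = cond w[i].2 (h w[i].1) (h w[i].1)⁻¹ := by
      rw [val_cons, val_nil, mul_one]
    rw [e, hg2, ← mul_assoc, ← map_mul] at this
    obtain ⟨e1, _⟩ := C.inj _ _ _ _ this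
    rw [← e1]
    have : (G i)⁻¹ * (G i * g) = g := by group
    rw [this]
    exact hg1
  obtain ⟨k, hk0, hkn, hk1, hk2⟩ := split hR hw G e01.symm hstep (by rw [← en1]; exact hf)
  refine ⟨w.take k, w.drop k, (List.take_append_drop k w).symm, ?_, ?_, ?_, ?_⟩
  · intro hc
    have := congrArg List.length hc
    rw [List.length_take, List.length_nil] at this
    omega
  · intro hc
    have := congrArg List.length hc
    rw [List.length_drop, List.length_nil] at this
    omega
  · exact ⟨t, S k, G k, hk1, hGS k⟩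
  · refine ⟨S k, t', (G k)⁻¹ * G w.length, hk2, ?_⟩
    rw [← List.take_append_drop k w, val_append, ← mul_assoc, hGS k, en1, mul_assoc] at hv
    rw [map_mul, map_inv, mul_assoc, ← hv]
    group

end Pool.Agent.R652.HP
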