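import Mathlib
import Pool.Agent.R652.HomCoord

/-!
The homomorphism problem: reduction to a finite check and computability.
-/

set_option autoImplicit false

namespace Pool.Agent.R652.HP

universe u v w

section Algebra

variable {κ : Type u} {H : Type v} [Group H] {G : Type w} [Group G]

/-- the word `s t⁻¹` -/
def quo (s t : List κ) : List (κ × Bool) :=
  s.map (fun x => (x, true)) ++ (t.map fun x => (x, false)).reverse

theorem val_quo (h : κ → H) (s t : List κ) : val h (quo s t) = (s.map h).prod * ((t.map h).prod)⁻¹ := by
  rw [quo, val_append]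
  congr 1
  · simp [val, Function.comp_def]
  · induction t with
    | nil => simp [val]
    | cons x t ih =>
      rw [List.map_cons, List.reverse_cons, val_append, ih, List.map_cons, List.prod_cons,
        mul_inv_rev]
      simp [val]

theorem pairwise_quo (s t : List κ) : (quo s t).Pairwise PN := by
  rw [quo, List.pairwise_append]
  refine ⟨?_, ?_, ?_⟩
  · rw [List.pairwise_map]
    exact List.pairwise_of_forall (fun _ _ => Or.inl rfl)
  · rw [← List.map_reverse, List.pairwise_map]
    exact List.pairwise_of_forall (fun _ _ => Or.inr rfl)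
  · intro x hx y _
    obtain ⟨x', _, rfl⟩ := List.mem_map.1 hx
    exact Or.inl rfl

theorem exists_quo (w : List (κ × Bool)) (hw : w.Pairwise PN) : ∃ s t, w = quo s t := by
  induction w with
  | nil => exact ⟨[], [], rfl⟩
  | cons x w ih =>
    rw [List.pairwise_cons] at hw
    obtain ⟨x, b⟩ := x
    cases b with
    | true =>
      obtain ⟨s, t, rfl⟩ := ih hw.2
      exact ⟨x :: s, t, rfl⟩
    | false =>
      have h : ∀ y ∈ w, y.2 = false := by
        intro y hy
        rcases hw.1 y hy with h | h
        · simp at h
        · exact h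
      refine ⟨[], ((x, false) :: w).reverse.map Prod.fst, ?_⟩
      rw [quo, List.map_nil, List.nil_append, ← List.map_reverse, ← List.map_reverse,
        List.reverse_reverse, List.map_map]
      have : ∀ y ∈ (x, false) :: w, ((fun x => (x, false)) ∘ Prod.fst) y = y := by
        intro y hy
        rcases List.mem_cons.1 hy with rfl | hy
        · rfl
        · exact Prod.ext rfl (h y hy).symm
      rw [List.map_congr_left this, List.map_id']

theorem exists_list {h : κ → H} {z : H} (hz : z ∈ Submonoid.closure (Set.range h)) :
    ∃ s : List κ, (s.map h).prod = z := by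
  induction hz using Submonoid.closure_induction with
  | mem x hx =>
    obtain ⟨k, rfl⟩ := hx
    exact ⟨[k], by simp⟩
  | one => exact ⟨[], rfl⟩
  | mul x y _ _ hx hy =>
    obtain ⟨s, rfl⟩ := hx
    obtain ⟨t, rfl⟩ := hy
    exact ⟨s ++ t, by simp⟩

theorem prod_mem (h : κ → H) (s : List κ) :
    (s.map h).prod ∈ Submonoid.closure (Set.range h) := by
  apply Submonoid.list_prod_mem
  intro x hx
  obtain ⟨k, _, rfl⟩ := List.mem_map.1 hx
  exact Submonoid.subset_closure ⟨k, rfl⟩

/-- A map on generators extends to a homomorphism if and only if it respects relations. -/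
theorem exists_hom_iff (h : κ → H) (g : κ → G) (S : Set H) (hS : S = Set.range h) :
    (∃ Φ : Submonoid.closure S →* G, ∀ (k : κ) (hk : h k ∈ S),
      Φ ⟨h k, Submonoid.subset_closure hk⟩ = g k) ↔
      ∀ s t : List κ, (s.map h).prod = (t.map h).prod → (s.map g).prod = (t.map g).prod := by
  subst hS
  constructor
  · rintro ⟨Φ, hΦ⟩ s t hst
    have key : ∀ s : List κ, Φ ⟨(s.map h).prod, prod_mem h s⟩ = (s.map g).prod := by
      intro s
      induction s with
      | nil =>
        have : (⟨(([] : List κ).map h).prod, prod_mem h []⟩ : Submonoid.closure (Set.range h)) =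
          1 := rfl
        rw [this, map_one]
        rfl
      | cons x s ih =>
        have : (⟨((x :: s).map h).prod, prod_mem h (x :: s)⟩ :
            Submonoid.closure (Set.range h)) = ⟨h x, Submonoid.subset_closure ⟨x, rfl⟩⟩ *
              ⟨(s.map h).prod, prod_mem h s⟩ := by
          apply Subtype.ext
          simp
        rw [this, map_mul, ih, hΦ x ⟨x, rfl⟩]
        simp
    rw [← key s, ← key t]
    congr 1
    exact Subtype.ext hst
  · intro hr
    choose f hf using fun z : Submonoid.closure (Set.range h) => exists_list z.2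
    refine ⟨⟨⟨fun z => ((f z).map g).prod, ?_⟩, ?_⟩, ?_⟩
    · have := hr (f 1) [] (by rw [hf]; rfl)
      simpa using this
    · intro x y
      have := hr (f (x * y)) (f x ++ f y) (by
        rw [hf, List.map_append, List.prod_append, hf, hf]
        rfl)
      simpa using this
    · intro k hk
      have := hr (f ⟨h k, Submonoid.subset_closure hk⟩) [k] (by rw [hf]; simp)
      simpa using this

theorem rel_iff (h : κ → H) (s t : List κ) : (s.map h).prod = (t.map h).prod ↔
    val h (quo s t) = 1 := by
  rw [val_quo, mul_inv_eq_one]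

end Algebra

section Bound

variable {ι : Type u} {H : Type v} [Group H] {a : ι → H} (C : Coord a)

/-- the bound on the length of relations which have to be checked -/
def bnd (B : ℕ) (ℓ : ℕ) : ℕ := 2 ^ (8 * (C.q * (C.q * (2 * C.p + 1) ^ (2 * (B * ℓ)))))

theorem check {κ : Type w} {G : Type*} [Group G] {B : ℕ} (hB : ∀ x t, (C.c x t).length ≤ B)
    (h : κ → H) (g : κ → G) {ℓ : ℕ}
    (hh : ∀ k, ∃ u : List (ι × Bool), u.length ≤ ℓ ∧ h k = val a u)
    (hs : ∀ s t : List κ, s.length ≤ bnd C B ℓ → t.length ≤ bnd C B ℓ →
      val h (quo s t) = 1 → val g (quo s t) = 1) :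
    ∀ s t : List κ, val h (quo s t) = 1 → val g (quo s t) = 1 := by
  intro s t
  have hN : 2 ^ (8 * (C.ball (2 * (B * ℓ))).ncard) ≤ bnd C B ℓ := by
    apply Nat.pow_le_pow_right (by norm_num)
    exact Nat.mul_le_mul_left _ (C.ball_ncard _)
  refine core g (C.ball_finite _) (C.one_mem_ball _) (C.tri hB h hh le_rfl) hN ?_ (quo s t)
    (pairwise_quo s t)
  intro w hw hp hv
  obtain ⟨s', t', rfl⟩ := exists_quo w hp
  have hl : (quo s' t').length = s'.length + t'.length := by
    simp [quo]
  exact hs s' t' (by omega) (by omega) hv

end Bound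

section Words

variable {A : Type u}

/-- all words of bounded length over a list of letters -/
def words (n : ℕ) (L : List A) : List (List A) :=
  Nat.rec [[]] (fun _ ih => [] :: L.flatMap fun x => ih.map (x :: ·)) n

theorem words_succ (n : ℕ) (L : List A) :
    words (n + 1) L = [] :: L.flatMap fun x => (words n L).map (x :: ·) := rfl

theorem mem_words (L : List A) (n : ℕ) : ∀ s : List A, s ∈ words n L ↔
    s.length ≤ n ∧ ∀ x ∈ s, x ∈ L := by
  induction n with
  | zero =>
    intro s
    have : words 0 L = [[]] := rfl
    rw [this, List.mem_singleton]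
    constructor
    · rintro rfl
      simp
    · rintro ⟨h, _⟩
      exact List.length_eq_zero_iff.1 (by omega)
  | succ n ih =>
    intro s
    rw [words_succ, List.mem_cons, List.mem_flatMap]
    constructor
    · rintro (rfl | ⟨x, hx, hs⟩)
      · simp
      · obtain ⟨s', hs', rfl⟩ := List.mem_map.1 hs
        obtain ⟨h1, h2⟩ := (ih s').1 hs'
        refine ⟨by simpa using h1, ?_⟩
        intro y hy
        rcases List.mem_cons.1 hy with rfl | hy
        · exact hx
        · exact h2 y hy
    · rintro ⟨h1, h2⟩
      cases s with
      | nil => exact Or.inl rfl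
      | cons x s =>
        right
        refine ⟨x, h2 x (List.mem_cons_self), List.mem_map.2 ⟨s, (ih s).2 ⟨by simpa using h1,
          fun y hy => h2 y (List.mem_cons_of_mem _ hy)⟩, rfl⟩⟩

end Words

/-- The map given by the list of pairs of words `L` extends to a homomorphism from the submonoid
generated by the first words to `G`. -/
def Extends {ι : Type u} {H : Type v} [Group H] (a : ι → H) {β : Type*} {G : Type w} [Group G]
    (b : β → G) (L : List (List (ι × Bool) × List (β × Bool))) : Prop :=
  ∃ Φ : Submonoid.closure {z : H | ∃ x ∈ L, z = val a x.1} →* G,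
    ∀ x (hx : x ∈ L), Φ ⟨val a x.1, Submonoid.subset_closure ⟨x, hx, rfl⟩⟩ = val b x.2

section Main

variable {ι : Type u} {H : Type v} [Group H] {a : ι → H} (C : Coord a)
variable {β : Type*} {G : Type w} [Group G] (b : β → G)

/-- the first word of a relation -/
def rel1 {γ : Type*} (st : List (List (ι × Bool) × γ) × List (List (ι × Bool) × γ)) :
    List (ι × Bool) :=
  st.1.flatMap Prod.fst ++ winv (st.2.flatMap Prod.fst)

/-- the second word of a relation -/
def rel2 {γ : Type*} (st : List (γ × List (β × Bool)) × List (γ × List (β × Bool))) :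
    List (β × Bool) :=
  st.1.flatMap Prod.snd ++ winv (st.2.flatMap Prod.snd)

theorem val_flatMap {α κ : Type*} {K : Type*} [Group K] (a : α → K) (f : κ → List (α × Bool))
    (s : List κ) : val a (s.flatMap f) = (s.map fun k => val a (f k)).prod := by
  induction s with
  | nil => rfl
  | cons x s ih => rw [List.flatMap_cons, val_append, ih, List.map_cons, List.prod_cons]

/-- total length of the words in the input -/
def tot (L : List (List (ι × Bool) × List (β × Bool))) : ℕ := (L.flatMap Prod.fst).length

theorem le_tot (L : List (List (ι × Bool) × List (β × Bool))) (x) (hx : x ∈ L) :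
    x.1.length ≤ tot L := by
  unfold tot
  induction L with
  | nil => simp at hx
  | cons y L ih =>
    rw [List.flatMap_cons, List.length_append]
    rcases List.mem_cons.1 hx with rfl | hx
    · omega
    · have := ih hx
      omega

theorem extends_iff {B : ℕ} (hB : ∀ x t, (C.c x t).length ≤ B)
    (L : List (List (ι × Bool) × List (β × Bool))) :
    Extends a b L ↔ ∀ s ∈ words (bnd C B (tot L)) L, ∀ t ∈ words (bnd C B (tot L)) L,
      val a (rel1 (s, t)) = 1 → val b (rel2 (s, t)) = 1 := by
  have e1 : Extends a b L ↔ ∀ s t : List {x // x ∈ L},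
      val (fun x : {x // x ∈ L} => val a x.1.1) (quo s t) = 1 →
      val (fun x : {x // x ∈ L} => val b x.1.2) (quo s t) = 1 := by
    have hS : {z : H | ∃ x ∈ L, z = val a x.1} = Set.range
        (fun x : {x // x ∈ L} => val a x.1.1) := by
      ext z
      constructor
      · rintro ⟨x, hx, rfl⟩
        exact ⟨⟨x, hx⟩, rfl⟩
      · rintro ⟨⟨x, hx⟩, rfl⟩
        exact ⟨x, hx, rfl⟩
    have := exists_hom_iff (fun x : {x // x ∈ L} => val a x.1.1)
      (fun x : {x // x ∈ L} => val b x.1.2) _ hS
    simp only [rel_iff] at this
    rw [← this]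
    constructor
    · rintro ⟨Φ, hΦ⟩
      exact ⟨Φ, fun k _ => hΦ k.1 k.2⟩
    · rintro ⟨Φ, hΦ⟩
      exact ⟨Φ, fun x hx => hΦ ⟨x, hx⟩ ⟨x, hx, rfl⟩⟩
  have e2 : ∀ s t : List {x // x ∈ L}, val (fun x : {x // x ∈ L} => val a x.1.1) (quo s t) =
      val a (rel1 (s.map Subtype.val, t.map Subtype.val)) := by
    intro s t
    rw [val_quo, rel1, val_append, val_winv, val_flatMap, val_flatMap, List.map_map, List.map_map]
    rfl
  have e3 : ∀ s t : List {x // x ∈ L}, val (fun x : {x // x ∈ L} => val b x.1.2) (quo s t) =
      val b (rel2 (s.map Subtype.val, t.map Subtype.val)) := by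
    intro s t
    rw [val_quo, rel2, val_append, val_winv, val_flatMap, val_flatMap, List.map_map, List.map_map]
    rfl
  rw [e1]
  constructor
  · intro h s hs t ht
    rw [mem_words] at hs ht
    have := h (s.attachWith _ hs.2) (t.attachWith _ ht.2)
    rw [e2, e3, List.attachWith_map_subtype_val, List.attachWith_map_subtype_val] at this
    exact this
  · intro h
    apply check C hB (ℓ := tot L)
    · intro x
      exact ⟨x.1.1, le_tot L x.1 x.2, rfl⟩
    · intro s t hs ht
      rw [e2, e3]
      apply h
      · rw [mem_words, List.length_map]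
        refine ⟨hs, ?_⟩
        intro x hx
        obtain ⟨y, _, rfl⟩ := List.mem_map.1 hx
        exact y.2
      · rw [mem_words, List.length_map]
        refine ⟨ht, ?_⟩
        intro x hx
        obtain ⟨y, _, rfl⟩ := List.mem_map.1 hx
        exact y.2

end Main

end Pool.Agent.R652.HP
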