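import Mathlib
import Pool.Agent.R652.HomDec

/-!
The homomorphism problem: computability.
-/

set_option autoImplicit false

namespace Pool.Agent.R652.HP

universe u v w

/-- bounded universal quantification over a computable list -/
theorem computable_all {α σ : Type*} [Primcodable α] [Primcodable σ] {l : α → List σ}
    {d : α → σ → Bool} (hl : Computable l) (hd : Computable₂ d) :
    Computable fun a => (l a).all (d a) := by
  let step : α → ℕ × Bool → Bool := fun a p =>
    Option.casesOn ((l a)[p.1]?) p.2 (fun x => p.2 && d a x)
  have hstep : Computable₂ step := by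
    apply Computable.option_casesOn (o := fun q : α × (ℕ × Bool) => (l q.1)[q.2.1]?)
      (f := fun q => q.2.2) (g := fun q x => q.2.2 && d q.1 x)
    · exact Primrec.list_getElem?.to_comp.comp (hl.comp Computable.fst)
        (Computable.fst.comp Computable.snd)
    · exact Computable.snd.comp Computable.snd
    · exact Primrec.and.to_comp.comp (Computable.snd.comp (Computable.snd.comp Computable.fst))
        (hd.comp (Computable.fst.comp Computable.fst) Computable.snd)
  have h : Computable fun a => (Nat.rec true (fun y IH => step a (y, IH)) (l a).length : Bool) :=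
    Computable.nat_rec (Computable.list_length.comp hl) (Computable.const true) hstep
  refine h.of_eq fun a => ?_
  have key : ∀ n ≤ (l a).length, (Nat.rec true (fun y IH => step a (y, IH)) n : Bool) =
      ((l a).take n).all (d a) := by
    intro n
    induction n with
    | zero => intro _; simp
    | succ n ih =>
      intro hn
      have e : (Nat.rec true (fun y IH => step a (y, IH)) (n + 1) : Bool) =
        step a (n, Nat.rec true (fun y IH => step a (y, IH)) n) := rfl
      rw [e, ih (by omega)]
      have hn' : n < (l a).length := by omega
      simp only [step]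
      rw [List.getElem?_eq_getElem hn', List.take_succ_eq_append_getElem hn', List.all_append]
      simp
  rw [key _ le_rfl, List.take_length]

theorem primrec_pow : Primrec₂ (fun m n : ℕ => m ^ n) := by
  have : Primrec₂ (fun m n : ℕ => (Nat.rec 1 (fun _ ih => ih * m) n : ℕ)) :=
    Primrec.nat_rec (Primrec.const 1) (Primrec.nat_mul.comp (Primrec.snd.comp Primrec.snd)
      Primrec.fst).to₂
  refine this.of_eq fun m n => ?_
  induction n with
  | zero => rfl
  | succ n ih => rw [pow_succ, ← ih]

theorem primrec_words {A : Type*} [Primcodable A] : Primrec₂ (words (A := A)) := by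
  have : Primrec₂ (fun (L : List A) (n : ℕ) =>
      (Nat.rec [[]] (fun _ ih => [] :: L.flatMap fun x => ih.map (x :: ·)) n : List (List A))) := by
    have h : Primrec fun q : List A × (ℕ × List (List A)) =>
        ([] : List A) :: q.1.flatMap fun x => q.2.2.map (x :: ·) := by
      refine Primrec.list_cons.comp (Primrec.const []) ?_
      refine Primrec.list_flatMap Primrec.fst ?_
      have h2 : Primrec fun y : (List A × (ℕ × List (List A))) × A =>
          y.1.2.2.map (y.2 :: ·) := by
        refine Primrec.list_map (Primrec.snd.comp (Primrec.snd.comp Primrec.fst)) ?_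
        exact (Primrec.list_cons.comp (Primrec.snd.comp Primrec.fst) Primrec.snd).to₂
      exact h2.to₂
    exact Primrec.nat_rec (Primrec.const [[]]) h.to₂
  exact this.swap

theorem primrec_winv {A : Type*} [Primcodable A] : Primrec (winv (ι := A)) := by
  apply Primrec.list_reverse.comp
  refine Primrec.list_map Primrec.id ?_
  exact (Primrec.pair (Primrec.fst.comp Primrec.snd)
    (Primrec.not.comp (Primrec.snd.comp Primrec.snd))).to₂

/-- one step of free reduction -/
def rstep {α : Type*} [DecidableEq α] (x : α × Bool) (acc : List (α × Bool)) :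
    List (α × Bool) :=
  List.casesOn acc [x] fun y tl => if x.1 = y.1 ∧ x.2 = !y.2 then tl else x :: y :: tl

theorem reduce_eq_foldr {α : Type*} [DecidableEq α] (L : List (α × Bool)) :
    FreeGroup.reduce L = L.foldr rstep [] := by
  induction L with
  | nil => rfl
  | cons x L ih =>
    rw [FreeGroup.reduce.cons, List.foldr_cons, ← ih]
    rfl

theorem primrec_reduce {p : ℕ} : Primrec (FreeGroup.reduce (α := Fin p)) := by
  have h : Primrec fun L : List (Fin p × Bool) => L.foldr (fun b s => rstep b s) [] := by
    have h1 : Primrec fun y : List (Fin p × Bool) × ((Fin p × Bool) × List (Fin p × Bool)) =>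
        rstep y.2.1 y.2.2 := by
      unfold rstep
      refine Primrec.list_casesOn
        (f := fun y : List (Fin p × Bool) × ((Fin p × Bool) × List (Fin p × Bool)) => y.2.2)
        (g := fun y => [y.2.1])
        (h := fun y z => if y.2.1.1 = z.1.1 ∧ y.2.1.2 = !z.1.2 then z.2 else y.2.1 :: z.1 :: z.2)
        (Primrec.snd.comp Primrec.snd) ?_ ?_
      · exact Primrec.list_cons.comp (Primrec.fst.comp Primrec.snd)
          (Primrec.const ([] : List (Fin p × Bool)))
      · have h2 : Primrec fun z : (List (Fin p × Bool) ×
            ((Fin p × Bool) × List (Fin p × Bool))) × ((Fin p × Bool) × List (Fin p × Bool)) =>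
            if z.1.2.1.1 = z.2.1.1 ∧ z.1.2.1.2 = !z.2.1.2 then z.2.2
            else z.1.2.1 :: z.2.1 :: z.2.2 := by
          have hx : Primrec fun z : (List (Fin p × Bool) ×
            ((Fin p × Bool) × List (Fin p × Bool))) × ((Fin p × Bool) × List (Fin p × Bool)) =>
            z.1.2.1 := Primrec.fst.comp (Primrec.snd.comp Primrec.fst)
          have hy : Primrec fun z : (List (Fin p × Bool) ×
            ((Fin p × Bool) × List (Fin p × Bool))) × ((Fin p × Bool) × List (Fin p × Bool)) =>
            z.2.1 := Primrec.fst.comp Primrec.snd
          have ht : Primrec fun z : (List (Fin p × Bool) ×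
            ((Fin p × Bool) × List (Fin p × Bool))) × ((Fin p × Bool) × List (Fin p × Bool)) =>
            z.2.2 := Primrec.snd.comp Primrec.snd
          refine Primrec.ite ?_ ht (Primrec.list_cons.comp hx (Primrec.list_cons.comp hy ht))
          refine PrimrecPred.and ?_ ?_
          · exact Primrec.eq.comp (Primrec.fst.comp hx) (Primrec.fst.comp hy)
          · exact Primrec.eq.comp (Primrec.snd.comp hx) (Primrec.not.comp (Primrec.snd.comp hy))
        exact h2.to₂
    exact Primrec.list_foldr Primrec.id (Primrec.const [])
      (h := fun _ q => rstep q.1 q.2) h1.to₂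
  exact h.of_eq fun L => (reduce_eq_foldr L).symm

namespace Coord

variable {H : Type v} [Group H] {r : ℕ} {a : Fin r → H} (C : Coord a)

/-- the automaton step -/
def astep (s : Fin C.q × List (Fin C.p × Bool)) (x : Fin r × Bool) :
    Fin C.q × List (Fin C.p × Bool) :=
  (C.δ x s.1, s.2 ++ C.c x s.1)

theorem foldl_astep (w : List (Fin r × Bool)) : ∀ (t : Fin C.q) (u : List (Fin C.p × Bool)),
    w.foldl C.astep (t, u) = (C.runS w t, u ++ C.runW w t) := by
  induction w with
  | nil => intro t u; simp [runS, runW]
  | cons x w ih =>
    intro t u
    rw [List.foldl_cons, astep, ih]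
    simp [runS, runW]

theorem primrec_run : Primrec fun w : List (Fin r × Bool) => (C.runS w C.t0, C.runW w C.t0) := by
  have h : Primrec fun w : List (Fin r × Bool) =>
      w.foldl (fun s x => C.astep s x) (C.t0, []) := by
    have h1 : Primrec fun k : (Fin r × Bool) × Fin C.q => C.δ k.1 k.2 := Primrec.dom_finite _
    have h2 : Primrec fun k : (Fin r × Bool) × Fin C.q => C.c k.1 k.2 := Primrec.dom_finite _
    have h3 : Primrec fun y : List (Fin r × Bool) ×
        ((Fin C.q × List (Fin C.p × Bool)) × (Fin r × Bool)) => C.astep y.2.1 y.2.2 := by
      have hk : Primrec fun y : List (Fin r × Bool) ×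
        ((Fin C.q × List (Fin C.p × Bool)) × (Fin r × Bool)) => (y.2.2, y.2.1.1) :=
        Primrec.pair (Primrec.snd.comp Primrec.snd) (Primrec.fst.comp (Primrec.fst.comp
          Primrec.snd))
      exact Primrec.pair (h1.comp hk) (Primrec.list_append.comp (Primrec.snd.comp
        (Primrec.fst.comp Primrec.snd)) (h2.comp hk))
    exact Primrec.list_foldl Primrec.id (Primrec.const _) (h := fun _ q => C.astep q.1 q.2) h3.to₂
  exact h.of_eq fun w => by rw [C.foldl_astep]; simp

include C in
/-- the word problem is decidable -/
theorem primrec_wp : PrimrecPred fun w : List (Fin r × Bool) => val a w = 1 := by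
  have h : PrimrecPred fun w : List (Fin r × Bool) =>
      C.runS w C.t0 = C.t0 ∧ FreeGroup.reduce (C.runW w C.t0) = [] :=
    PrimrecPred.and (Primrec.eq.comp (Primrec.fst.comp C.primrec_run) (Primrec.const _))
      (Primrec.eq.comp (primrec_reduce.comp (Primrec.snd.comp C.primrec_run)) (Primrec.const _))
  exact h.of_eq fun w => (C.val_eq_one_iff w).symm

end Coord

section Final

variable {H : Type v} [Group H] {r : ℕ} {a : Fin r → H} (C : Coord a)
variable {β : Type u} [Primcodable β] {G : Type w} [Group G] (b : β → G)

/-- inputs -/
abbrev Inp (r : ℕ) (β : Type u) := List (List (Fin r × Bool) × List (β × Bool))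

theorem primrec_bnd (B : ℕ) : Primrec fun L : Inp r β => bnd C B (tot L) := by
  have ht : Primrec fun L : Inp r β => tot L := by
    unfold tot
    exact Primrec.list_length.comp (Primrec.list_flatMap Primrec.id
      (Primrec.fst.comp Primrec.snd).to₂)
  unfold bnd
  refine primrec_pow.comp (Primrec.const 2) (Primrec.nat_mul.comp (Primrec.const 8)
    (Primrec.nat_mul.comp (Primrec.const C.q) (Primrec.nat_mul.comp (Primrec.const C.q)
      (primrec_pow.comp (Primrec.const _) (Primrec.nat_mul.comp (Primrec.const 2)
        (Primrec.nat_mul.comp (Primrec.const B) ht))))))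

theorem primrec_rel1 : Primrec fun st : Inp r β × Inp r β => rel1 st := by
  unfold rel1
  refine Primrec.list_append.comp ?_ (primrec_winv.comp ?_)
  · exact Primrec.list_flatMap Primrec.fst (Primrec.fst.comp Primrec.snd).to₂
  · exact Primrec.list_flatMap Primrec.snd (Primrec.fst.comp Primrec.snd).to₂

theorem primrec_rel2 : Primrec fun st : Inp r β × Inp r β => rel2 st := by
  unfold rel2
  refine Primrec.list_append.comp ?_ (primrec_winv.comp ?_)
  · exact Primrec.list_flatMap Primrec.fst (Primrec.snd.comp Primrec.snd).to₂
  · exact Primrec.list_flatMap Primrec.snd (Primrec.snd.comp Primrec.snd).to₂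

include C in
/-- **Decidability of the homomorphism problem.** -/
theorem decidable_extends (hb : ComputablePred fun w : List (β × Bool) => val b w = 1) :
    ComputablePred fun L : Inp r β => Extends a b L := by
  classical
  obtain ⟨B, hB⟩ := C.exists_bound
  obtain ⟨db, hdb⟩ := hb
  obtain ⟨da, hda⟩ := C.primrec_wp
  -- the test for one pair
  let test : Inp r β × Inp r β → Bool := fun st =>
    !(@decide (val a (rel1 st) = 1) (da _)) || @decide (val b (rel2 st) = 1) (db _)
  have htest : Computable test := by
    refine Primrec.or.to_comp.comp (Primrec.not.to_comp.comp ?_) ?_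
    · exact (hda.comp primrec_rel1).to_comp
    · exact hdb.comp primrec_rel2.to_comp
  have hw : Primrec fun L : Inp r β => words (bnd C B (tot L)) L :=
    primrec_words.comp (primrec_bnd C B) Primrec.id
  have h1 : Computable fun y : Inp r β × Inp r β =>
      (words (bnd C B (tot y.1)) y.1).all fun t => test (y.2, t) := by
    apply computable_all
    · exact (hw.comp Primrec.fst).to_comp
    · exact htest.comp (Computable.pair (Computable.snd.comp Computable.fst) Computable.snd)
  have h2 : Computable fun L : Inp r β => (words (bnd C B (tot L)) L).all fun s =>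
      (words (bnd C B (tot L)) L).all fun t => test (s, t) := by
    apply computable_all
    · exact hw.to_comp
    · exact h1
  refine ⟨fun L => Classical.dec _, h2.of_eq fun L => ?_⟩
  rw [Bool.eq_iff_iff, decide_eq_true_iff]
  change _ ↔ Extends a b L
  rw [extends_iff C b hB, List.all_eq_true]
  apply forall_congr'
  intro s
  apply forall_congr'
  intro _
  rw [List.all_eq_true]
  apply forall_congr'
  intro t
  apply forall_congr'
  intro _
  simp only [test, Bool.or_eq_true, Bool.not_eq_true', decide_eq_false_iff_not,
    decide_eq_true_eq]
  tauto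

end Final

end Pool.Agent.R652.HP
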