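import Pool.Agent.R652.PunctDefs

/-!
The second Grzegorczyk class contains a universal bounded evaluation function, and any such
function is a basis for punctual standardness.
-/

set_option autoImplicit false

namespace Pool.Agent.R652.Punct

variable {k : ℕ}

namespace E2

theorem c1 {f : ℕ → ℕ} (hf : E2 fun v : Fin 1 → ℕ => f (v 0)) {g : (Fin k → ℕ) → ℕ}
    (hg : E2 g) : E2 fun v => f (g v) :=
  E2.comp (g := fun _ => g) hf fun _ => hg

theorem c2 {f : ℕ → ℕ → ℕ} (hf : E2 fun v : Fin 2 → ℕ => f (v 0) (v 1))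
    {g h : (Fin k → ℕ) → ℕ} (hg : E2 g) (hh : E2 h) : E2 fun v => f (g v) (h v) :=
  E2.comp (g := ![g, h]) hf (by intro i; fin_cases i <;> assumption)

theorem c3 {f : ℕ → ℕ → ℕ → ℕ} (hf : E2 fun v : Fin 3 → ℕ => f (v 0) (v 1) (v 2))
    {g h i : (Fin k → ℕ) → ℕ} (hg : E2 g) (hh : E2 h) (hi : E2 i) :
    E2 fun v => f (g v) (h v) (i v) :=
  E2.comp (g := ![g, h, i]) hf (by intro i; fin_cases i <;> assumption)

theorem add' {g h : (Fin k → ℕ) → ℕ} (hg : E2 g) (hh : E2 h) : E2 fun v => g v + h v :=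
  c2 (f := fun a b => a + b) E2.add hg hh

theorem mul' {g h : (Fin k → ℕ) → ℕ} (hg : E2 g) (hh : E2 h) : E2 fun v => g v * h v :=
  c2 (f := fun a b => a * b) E2.mul hg hh

theorem const (n : ℕ) : E2 fun _ : Fin k → ℕ => n := by
  induction n with
  | zero => exact E2.zero
  | succ n ih => exact c1 (f := fun a => a + 1) E2.succ ih

theorem of_eq {f g : (Fin k → ℕ) → ℕ} (hf : E2 f) (h : ∀ v, f v = g v) : E2 g := by
  have : f = g := funext h
  rwa [← this]

theorem pred' {g : (Fin k → ℕ) → ℕ} (hg : E2 g) : E2 fun v => g v - 1 := by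
  refine c1 (f := fun a => a - 1) ?_ hg
  refine E2.brec (k := 0) (f := fun _ => 0) (g := fun v => v 0) (b := fun v => v 0) E2.zero
    (E2.proj 0) (E2.proj 0) ?_ ?_ ?_
  · intro v; simp
  · intro n v; simp
  · intro v; simp

theorem sub' {g h : (Fin k → ℕ) → ℕ} (hg : E2 g) (hh : E2 h) : E2 fun v => g v - h v := by
  refine c2 (f := fun a b => b - a) ?_ hh hg
  refine E2.brec (k := 1) (f := fun v => v 0) (g := fun v => v 1 - 1) (b := fun v => v 1)
    (E2.proj 0) (pred' (E2.proj 1)) (E2.proj 1) ?_ ?_ ?_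
  · intro v; simp
  · intro n v
    show v 0 - (n + 1) = v 0 - n - 1
    omega
  · intro v; simp

theorem min' {g h : (Fin k → ℕ) → ℕ} (hg : E2 g) (hh : E2 h) : E2 fun v => min (g v) (h v) := by
  refine of_eq (sub' hg (sub' hg hh)) ?_
  intro v
  omega

/-- adding dummy variables in front -/
theorem weak {g : (Fin k → ℕ) → ℕ} (hg : E2 g) : E2 fun v : Fin (k + 1) → ℕ => g (Fin.tail v) :=
  E2.comp (g := fun i v => v i.succ) hg fun i => E2.proj i.succ

/-- truncated power of two -/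
theorem pow2 {g h : (Fin k → ℕ) → ℕ} (hg : E2 g) (hh : E2 h) :
    E2 fun v => min (2 ^ g v) (h v + 1) := by
  refine c2 (f := fun a b => min (2 ^ a) (b + 1)) ?_ hg hh
  refine E2.brec (k := 1) (f := fun _ => 1) (g := fun v => min (2 * v 1) (v 2 + 1))
    (b := fun v => v 1 + 1) (const 1) (min' (mul' (const 2) (E2.proj 1))
      (add' (E2.proj 2) (const 1))) (add' (E2.proj 1) (const 1)) ?_ ?_ ?_
  · intro v; simp
  · intro n v
    show min (2 ^ (n + 1)) (v 0 + 1) = min (2 * min (2 ^ n) (v 0 + 1)) (v 0 + 1)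
    rw [pow_succ]
    omega
  · intro v
    exact min_le_right _ _

end E2

/-- the characteristic function of a proposition -/
noncomputable def chi (p : Prop) : ℕ := by
  classical exact if p then 1 else 0

theorem chi_of {p : Prop} (h : p) : chi p = 1 := by simp [chi, h]
theorem chi_not {p : Prop} (h : ¬ p) : chi p = 0 := by simp [chi, h]

/-- relations of the second Grzegorczyk class -/
def EP (p : (Fin k → ℕ) → Prop) : Prop := E2 fun v => chi (p v)

namespace EP

theorem of_iff {p q : (Fin k → ℕ) → Prop} (hp : EP p) (h : ∀ v, p v ↔ q v) : EP q := by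
  have : p = q := by funext v; exact propext (h v)
  rwa [← this]

theorem and {p q : (Fin k → ℕ) → Prop} (hp : EP p) (hq : EP q) : EP fun v => p v ∧ q v := by
  refine E2.of_eq (E2.mul' hp hq) ?_
  intro v
  by_cases h1 : p v <;> by_cases h2 : q v <;> simp [chi, h1, h2]

theorem not {p : (Fin k → ℕ) → Prop} (hp : EP p) : EP fun v => ¬ p v := by
  refine E2.of_eq (E2.sub' (E2.const 1) hp) ?_
  intro v
  by_cases h1 : p v <;> simp [chi, h1]

theorem or {p q : (Fin k → ℕ) → Prop} (hp : EP p) (hq : EP q) : EP fun v => p v ∨ q v := by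
  refine of_iff (not (and (not hp) (not hq))) ?_
  intro v
  tauto

theorem imp {p q : (Fin k → ℕ) → Prop} (hp : EP p) (hq : EP q) : EP fun v => p v → q v := by
  refine of_iff (or (not hp) hq) ?_
  intro v
  tauto

theorem le {g h : (Fin k → ℕ) → ℕ} (hg : E2 g) (hh : E2 h) : EP fun v => g v ≤ h v := by
  refine E2.of_eq (E2.sub' (E2.const 1) (E2.sub' hg hh)) ?_
  intro v
  by_cases h1 : g v ≤ h v
  · rw [chi_of h1]; omega
  · rw [chi_not h1]; omega

theorem lt {g h : (Fin k → ℕ) → ℕ} (hg : E2 g) (hh : E2 h) : EP fun v => g v < h v :=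
  le (E2.add' hg (E2.const 1)) hh

theorem eq {g h : (Fin k → ℕ) → ℕ} (hg : E2 g) (hh : E2 h) : EP fun v => g v = h v := by
  refine of_iff (and (le hg hh) (le hh hg)) ?_
  intro v
  omega

theorem ite {p : (Fin k → ℕ) → Prop} {g h : (Fin k → ℕ) → ℕ} (hp : EP p) (hg : E2 g)
    (hh : E2 h) [∀ v, Decidable (p v)] : E2 fun v => if p v then g v else h v := by
  refine E2.of_eq (E2.add' (E2.mul' hp hg) (E2.mul' (E2.sub' (E2.const 1) hp) hh)) ?_
  intro v
  by_cases h1 : p v <;> simp [chi, h1]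

theorem comp {m : ℕ} {p : (Fin m → ℕ) → Prop} (hp : EP p) {g : Fin m → (Fin k → ℕ) → ℕ}
    (hg : ∀ i, E2 (g i)) : EP fun v => p fun i => g i v :=
  E2.comp (f := fun v => chi (p v)) hp hg

/-- bounded existential quantification -/
theorem ex {p : ℕ → (Fin k → ℕ) → Prop} {b : (Fin k → ℕ) → ℕ} (hb : E2 b)
    (hp : EP fun w : Fin (k + 1) → ℕ => p (w 0) (Fin.tail w)) :
    EP fun v => ∃ i < b v, p i v := by
  have h1 : EP fun w : Fin (k + 1) → ℕ => ∃ i < w 0, p i (Fin.tail w) := by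
    refine E2.brec (k := k) (f := fun _ => 0)
      (g := fun w => 1 - ((1 - w 1) * (1 - chi (p (w 0) (Fin.tail (Fin.tail w))))))
      (b := fun _ => 1) E2.zero ?_ (E2.const 1) ?_ ?_ ?_
    · refine E2.sub' (E2.const 1) (E2.mul' (E2.sub' (E2.const 1) (E2.proj 1))
        (E2.sub' (E2.const 1) ?_))
      refine E2.comp (k := k + 2) (f := fun w : Fin (k + 1) → ℕ => chi (p (w 0) (Fin.tail w)))
        (g := fun i v => (Fin.cons (v 0) (Fin.tail (Fin.tail v)) : Fin (k + 1) → ℕ) i) hp ?_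
      intro i
      refine Fin.cases ?_ (fun j => ?_) i
      · exact E2.proj 0
      · exact E2.proj j.succ.succ
    · intro v
      apply chi_not
      rintro ⟨i, hi, _⟩
      exact absurd hi (Nat.not_lt_zero i)
    · intro n v
      show chi (∃ i < n + 1, p i v) = 1 - (1 - chi (∃ i < n, p i v)) * (1 - chi (p n v))
      by_cases h2 : ∃ i < n, p i v
      · obtain ⟨i, hi, h3⟩ := h2
        have e1 : chi (∃ i < n, p i v) = 1 := chi_of ⟨i, hi, h3⟩
        have e2 : chi (∃ i < n + 1, p i v) = 1 := chi_of ⟨i, by omega, h3⟩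
        rw [e1, e2]
        simp
      · rw [chi_not h2]
        by_cases h3 : p n v
        · have e2 : chi (∃ i < n + 1, p i v) = 1 := chi_of ⟨n, by omega, h3⟩
          rw [chi_of h3, e2]
        · rw [chi_not h3, chi_not]
          rintro ⟨i, hi, h4⟩
          rcases Nat.lt_succ_iff_lt_or_eq.mp hi with h5 | h5
          · exact h2 ⟨i, h5, h4⟩
          · subst h5
            exact h3 h4
    · intro v
      unfold chi
      split_ifs <;> simp
  refine of_iff (comp h1 (g := fun i v => (Fin.cons (b v) v : Fin (k + 1) → ℕ) i) ?_) ?_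
  · intro i
    refine Fin.cases ?_ (fun j => ?_) i
    · exact hb
    · exact E2.proj j
  · intro v
    rfl

theorem all {p : ℕ → (Fin k → ℕ) → Prop} {b : (Fin k → ℕ) → ℕ} (hb : E2 b)
    (hp : EP fun w : Fin (k + 1) → ℕ => p (w 0) (Fin.tail w)) :
    EP fun v => ∀ i < b v, p i v := by
  refine of_iff (not (ex (p := fun i v => ¬ p i v) hb (not hp))) ?_
  intro v
  push Not
  rfl

end EP

/-- the code of a triple -/
def cd (c n m : ℕ) : ℕ := Nat.pair (Nat.pair c n) m

/-- the triple `(c, n, m)` belongs to the set coded by `z` -/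
def T (z c n m : ℕ) : Prop := z.testBit (cd c n m) = true

theorem pair_E2 {g h : (Fin k → ℕ) → ℕ} (hg : E2 g) (hh : E2 h) :
    E2 fun v => Nat.pair (g v) (h v) := by
  unfold Nat.pair
  exact EP.ite (EP.lt hg hh) (E2.add' (E2.mul' hh hh) hg)
    (E2.add' (E2.add' (E2.mul' hg hg) hg) hh)

theorem cd_E2 {g h i : (Fin k → ℕ) → ℕ} (hg : E2 g) (hh : E2 h) (hi : E2 i) :
    E2 fun v => cd (g v) (h v) (i v) :=
  pair_E2 (pair_E2 hg hh) hi

theorem bit_iff (z t : ℕ) : z.testBit t = true ↔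
    min (2 ^ t) (z + 1) ≤ z ∧ ∃ q < z + 1, ∃ r < min (2 ^ t) (z + 1),
      z = (2 * q + 1) * min (2 ^ t) (z + 1) + r := by
  rw [Nat.testBit_eq_decide_div_mod_eq, decide_eq_true_iff]
  constructor
  · intro h
    have h1 : 2 ^ t ≤ z := by
      by_contra h2
      rw [Nat.div_eq_of_lt (by omega)] at h
      omega
    rw [min_eq_left (by omega)]
    refine ⟨h1, z / 2 ^ t / 2, ?_, z % 2 ^ t, Nat.mod_lt _ (by positivity), ?_⟩
    · have := Nat.div_le_self (z / 2 ^ t) 2
      have := Nat.div_le_self z (2 ^ t)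
      omega
    · have h3 : 2 * (z / 2 ^ t / 2) + 1 = z / 2 ^ t := by omega
      rw [h3, mul_comm]
      exact (Nat.div_add_mod z (2 ^ t)).symm
  · rintro ⟨h1, q, _, r, hr, h⟩
    have h2 : 2 ^ t ≤ z := by omega
    rw [min_eq_left (by omega)] at hr h
    have h3 : z / 2 ^ t = 2 * q + 1 := by
      rw [h, mul_comm, Nat.mul_add_div (by positivity), Nat.div_eq_of_lt hr, add_zero]
    rw [h3]
    omega

theorem bit_EP {g h : (Fin k → ℕ) → ℕ} (hg : E2 g) (hh : E2 h) :
    EP fun v => (g v).testBit (h v) = true := by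
  have h1 : EP fun v : Fin 2 → ℕ => (v 0).testBit (v 1) = true := by
    refine EP.of_iff ?_ fun v => (bit_iff (v 0) (v 1)).symm
    refine EP.and (EP.le (E2.pow2 (E2.proj 1) (E2.proj 0)) (E2.proj 0)) ?_
    refine EP.ex (p := fun q v => ∃ r < min (2 ^ v 1) (v 0 + 1),
      v 0 = (2 * q + 1) * min (2 ^ v 1) (v 0 + 1) + r) (E2.add' (E2.proj 0) (E2.const 1)) ?_
    refine EP.ex (p := fun r w => w 1 = (2 * w 0 + 1) * min (2 ^ w 2) (w 1 + 1) + r)
      (E2.pow2 (E2.proj 2) (E2.proj 1)) ?_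
    exact EP.eq (E2.proj 2) (E2.add' (E2.mul' (E2.add' (E2.mul' (E2.const 2) (E2.proj 1))
      (E2.const 1)) (E2.pow2 (E2.proj 3) (E2.proj 2))) (E2.proj 0))
  exact EP.comp h1 (g := ![g, h]) (by intro i; fin_cases i <;> assumption)

theorem T_EP {g h i j : (Fin k → ℕ) → ℕ} (hg : E2 g) (hh : E2 h) (hi : E2 i) (hj : E2 j) :
    EP fun v => T (g v) (h v) (i v) (j v) :=
  bit_EP hg (cd_E2 hh hi hj)

/-- second part of the local justification of a triple -/
def J2 (z c n m f g : ℕ) : Prop :=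
  (c = 3 * Nat.pair f g + 4 ∧ ∃ a < z, ∃ b < z, T z f n a ∧ T z g n b ∧ m = Nat.pair a b) ∨
  (c = 3 * Nat.pair f g + 5 ∧ ∃ a < z, T z g n a ∧ T z f a m) ∨
  (c = 3 * Nat.pair f g + 6 ∧ ∃ a < z, (n = Nat.pair a 0 ∧ T z f a m) ∨
    ∃ i < z, ∃ y < z, n = Nat.pair a (i + 1) ∧ T z c (Nat.pair a i) y ∧
      T z g (Nat.pair a (Nat.pair i y)) m)

/-- local justification of a triple -/
def J (z c n m : ℕ) : Prop :=
  (c = 0 ∧ m = 0) ∨ (c = 1 ∧ m = n + 1) ∨ (c = 2 ∧ ∃ r < z, n = Nat.pair m r) ∨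
  (c = 3 ∧ ∃ r < z, n = Nat.pair r m) ∨ ∃ f < z, ∃ g < z, J2 z c n m f g

/-- `z` codes a certificate -/
def Cert (z : ℕ) : Prop :=
  ∀ c < z, ∀ n < z, ∀ m < z, T z c n m → J z c n m

/-- the bounded evaluation function -/
noncomputable def U (v : Fin 3 → ℕ) : ℕ := chi (∃ z < v 2, Cert z ∧ T z (v 0) (v 1) 1)

theorem J2_EP : EP fun v : Fin 6 → ℕ => J2 (v 0) (v 1) (v 2) (v 3) (v 4) (v 5) := by
  unfold J2
  refine EP.or (EP.and (EP.eq (E2.proj 1) (E2.add' (E2.mul' (E2.const 3)
    (pair_E2 (E2.proj 4) (E2.proj 5))) (E2.const 4))) ?_) (EP.or (EP.and (EP.eq (E2.proj 1)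
    (E2.add' (E2.mul' (E2.const 3) (pair_E2 (E2.proj 4) (E2.proj 5))) (E2.const 5))) ?_)
    (EP.and (EP.eq (E2.proj 1) (E2.add' (E2.mul' (E2.const 3)
    (pair_E2 (E2.proj 4) (E2.proj 5))) (E2.const 6))) ?_))
  · refine EP.ex (p := fun a v => ∃ b < v 0, T (v 0) (v 4) (v 2) a ∧ T (v 0) (v 5) (v 2) b ∧
      v 3 = Nat.pair a b) (E2.proj 0) ?_
    refine EP.ex (p := fun b w => T (w 1) (w 5) (w 3) (w 0) ∧ T (w 1) (w 6) (w 3) b ∧
      w 4 = Nat.pair (w 0) b) (E2.proj 1) ?_
    exact EP.and (T_EP (E2.proj 2) (E2.proj 6) (E2.proj 4) (E2.proj 1))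
      (EP.and (T_EP (E2.proj 2) (E2.proj 7) (E2.proj 4) (E2.proj 0))
        (EP.eq (E2.proj 5) (pair_E2 (E2.proj 1) (E2.proj 0))))
  · refine EP.ex (p := fun a v => T (v 0) (v 5) (v 2) a ∧ T (v 0) (v 4) a (v 3)) (E2.proj 0) ?_
    exact EP.and (T_EP (E2.proj 1) (E2.proj 6) (E2.proj 3) (E2.proj 0))
      (T_EP (E2.proj 1) (E2.proj 5) (E2.proj 0) (E2.proj 4))
  · refine EP.ex (p := fun a v => (v 2 = Nat.pair a 0 ∧ T (v 0) (v 4) a (v 3)) ∨
      ∃ i < v 0, ∃ y < v 0, v 2 = Nat.pair a (i + 1) ∧ T (v 0) (v 1) (Nat.pair a i) y ∧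
      T (v 0) (v 5) (Nat.pair a (Nat.pair i y)) (v 3)) (E2.proj 0) ?_
    refine EP.or (EP.and (EP.eq (E2.proj 3) (pair_E2 (E2.proj 0) (E2.const 0)))
      (T_EP (E2.proj 1) (E2.proj 5) (E2.proj 0) (E2.proj 4))) ?_
    refine EP.ex (p := fun i w => ∃ y < w 1, w 3 = Nat.pair (w 0) (i + 1) ∧
      T (w 1) (w 2) (Nat.pair (w 0) i) y ∧
      T (w 1) (w 6) (Nat.pair (w 0) (Nat.pair i y)) (w 4)) (E2.proj 1) ?_
    refine EP.ex (p := fun y w => w 4 = Nat.pair (w 1) (w 0 + 1) ∧
      T (w 2) (w 3) (Nat.pair (w 1) (w 0)) y ∧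
      T (w 2) (w 7) (Nat.pair (w 1) (Nat.pair (w 0) y)) (w 5)) (E2.proj 2) ?_
    exact EP.and (EP.eq (E2.proj 5) (pair_E2 (E2.proj 2) (E2.add' (E2.proj 1) (E2.const 1))))
      (EP.and (T_EP (E2.proj 3) (E2.proj 4) (pair_E2 (E2.proj 2) (E2.proj 1)) (E2.proj 0))
        (T_EP (E2.proj 3) (E2.proj 8) (pair_E2 (E2.proj 2) (pair_E2 (E2.proj 1) (E2.proj 0)))
          (E2.proj 6)))

theorem J_EP : EP fun v : Fin 4 → ℕ => J (v 0) (v 1) (v 2) (v 3) := by
  unfold J
  refine EP.or (EP.and (EP.eq (E2.proj 1) (E2.const 0)) (EP.eq (E2.proj 3) (E2.const 0)))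
    (EP.or (EP.and (EP.eq (E2.proj 1) (E2.const 1)) (EP.eq (E2.proj 3)
      (E2.add' (E2.proj 2) (E2.const 1)))) (EP.or (EP.and (EP.eq (E2.proj 1) (E2.const 2)) ?_)
      (EP.or (EP.and (EP.eq (E2.proj 1) (E2.const 3)) ?_) ?_)))
  · refine EP.ex (p := fun r v => v 2 = Nat.pair (v 3) r) (E2.proj 0) ?_
    exact EP.eq (E2.proj 3) (pair_E2 (E2.proj 4) (E2.proj 0))
  · refine EP.ex (p := fun r v => v 2 = Nat.pair r (v 3)) (E2.proj 0) ?_
    exact EP.eq (E2.proj 3) (pair_E2 (E2.proj 0) (E2.proj 4))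
  · refine EP.ex (p := fun f v => ∃ g < v 0, J2 (v 0) (v 1) (v 2) (v 3) f g) (E2.proj 0) ?_
    refine EP.ex (p := fun g w => J2 (w 1) (w 2) (w 3) (w 4) (w 0) g) (E2.proj 1) ?_
    exact EP.comp J2_EP (g := ![fun w => w 2, fun w => w 3, fun w => w 4, fun w => w 5,
      fun w => w 1, fun w => w 0]) (by intro i; fin_cases i <;> exact E2.proj _)

theorem Cert_EP : EP fun v : Fin 1 → ℕ => Cert (v 0) := by
  unfold Cert
  refine EP.all (p := fun c v => ∀ n < v 0, ∀ m < v 0, T (v 0) c n m → J (v 0) c n m)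
    (E2.proj 0) ?_
  refine EP.all (p := fun n w => ∀ m < w 1, T (w 1) (w 0) n m → J (w 1) (w 0) n m)
    (E2.proj 1) ?_
  refine EP.all (p := fun m w => T (w 2) (w 1) (w 0) m → J (w 2) (w 1) (w 0) m)
    (E2.proj 2) ?_
  refine EP.imp (T_EP (E2.proj 3) (E2.proj 2) (E2.proj 1) (E2.proj 0)) ?_
  exact EP.comp J_EP (g := ![fun w => w 3, fun w => w 2, fun w => w 1, fun w => w 0])
    (by intro i; fin_cases i <;> exact E2.proj _)

theorem U_E2 : E2 U := by
  refine EP.ex (p := fun z v => Cert z ∧ T z (v 0) (v 1) 1) (E2.proj 2) ?_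
  refine EP.and ?_ (T_EP (E2.proj 0) (E2.proj 1) (E2.proj 2) (E2.const 1))
  exact EP.comp Cert_EP (g := ![fun w => w 0]) (by intro i; fin_cases i; exact E2.proj _)

theorem le_pair_left (a b : ℕ) : a ≤ Nat.pair a b := Nat.left_le_pair a b
theorem le_pair_right (a b : ℕ) : b ≤ Nat.pair a b := Nat.right_le_pair a b

theorem T.lt {z c n m : ℕ} (h : T z c n m) : cd c n m < z := by
  have h1 : 2 ^ cd c n m ≤ z := Nat.ge_two_pow_of_testBit h
  exact lt_of_lt_of_le Nat.lt_two_pow_self h1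

theorem cd_ge (c n m : ℕ) : c ≤ cd c n m ∧ n ≤ cd c n m ∧ m ≤ cd c n m :=
  ⟨(Nat.left_le_pair c n).trans (Nat.left_le_pair _ m),
    (Nat.right_le_pair c n).trans (Nat.left_le_pair _ m), Nat.right_le_pair _ m⟩

theorem Cert.just {z c n m : ℕ} (hz : Cert z) (h : T z c n m) : J z c n m := by
  have h1 := h.lt
  obtain ⟨h2, h3, h4⟩ := cd_ge c n m
  exact hz c (by omega) n (by omega) m (by omega) h

/-- certificates determine the value -/
theorem unique {z1 z2 : ℕ} (h1 : Cert z1) (h2 : Cert z2) : ∀ (c n m1 m2 : ℕ), T z1 c n m1 →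
    T z2 c n m2 → m1 = m2 := by
  intro c
  induction c using Nat.strong_induction_on with
  | _ c ih =>
    intro n
    induction n using Nat.strong_induction_on with
    | _ n ihn =>
      intro m1 m2 t1 t2
      have j1 := h1.just t1
      have j2 := h2.just t2
      rcases j1 with ⟨rfl, rfl⟩ | ⟨rfl, rfl⟩ | ⟨rfl, r, _, e1⟩ | ⟨rfl, r, _, e1⟩ |
        ⟨f, _, g, _, j1⟩
      · rcases j2 with ⟨_, e⟩ | ⟨e, _⟩ | ⟨e, _⟩ | ⟨e, _⟩ | ⟨f, _, g, _, ⟨e, _⟩ | ⟨e, _⟩ | ⟨e, _⟩⟩ <;>
          omega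
      · rcases j2 with ⟨e, _⟩ | ⟨_, e⟩ | ⟨e, _⟩ | ⟨e, _⟩ | ⟨f, _, g, _, ⟨e, _⟩ | ⟨e, _⟩ | ⟨e, _⟩⟩ <;>
          omega
      · rcases j2 with ⟨e, _⟩ | ⟨e, _⟩ | ⟨_, r', _, e2⟩ | ⟨e, _⟩ |
          ⟨f, _, g, _, ⟨e, _⟩ | ⟨e, _⟩ | ⟨e, _⟩⟩
        · omega
        · omega
        · rw [e1] at e2
          exact (Nat.pair_eq_pair.mp e2).1
        all_goals omega
      · rcases j2 with ⟨e, _⟩ | ⟨e, _⟩ | ⟨e, _⟩ | ⟨_, r', _, e2⟩ |
          ⟨f, _, g, _, ⟨e, _⟩ | ⟨e, _⟩ | ⟨e, _⟩⟩
        · omega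
        · omega
        · omega
        · rw [e1] at e2
          exact (Nat.pair_eq_pair.mp e2).2
        all_goals omega
      · have hf := Nat.left_le_pair f g
        have hg := Nat.right_le_pair f g
        rcases j1 with ⟨ec, a, _, b, _, ta, tb, em⟩ | ⟨ec, a, _, ta, tb⟩ | ⟨ec, a, _, j1⟩
        · rcases j2 with ⟨e, _⟩ | ⟨e, _⟩ | ⟨e, _⟩ | ⟨e, _⟩ |
            ⟨f', _, g', _, ⟨e, a', _, b', _, ta', tb', em'⟩ | ⟨e, _⟩ | ⟨e, _⟩⟩
          · omega
          · omega
          · omega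
          · omega
          · have e3 : Nat.pair f g = Nat.pair f' g' := by omega
            obtain ⟨rfl, rfl⟩ := Nat.pair_eq_pair.mp e3
            rw [em, em', ih f (by omega) n a a' ta ta', ih g (by omega) n b b' tb tb']
          · omega
          · omega
        · rcases j2 with ⟨e, _⟩ | ⟨e, _⟩ | ⟨e, _⟩ | ⟨e, _⟩ |
            ⟨f', _, g', _, ⟨e, _⟩ | ⟨e, a', _, ta', tb'⟩ | ⟨e, _⟩⟩
          · omega
          · omega
          · omega
          · omega
          · omega
          · have e3 : Nat.pair f g = Nat.pair f' g' := by omega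
            obtain ⟨rfl, rfl⟩ := Nat.pair_eq_pair.mp e3
            have e4 := ih g (by omega) n a a' ta ta'
            subst e4
            exact ih f (by omega) a m1 m2 tb tb'
          · omega
        · rcases j2 with ⟨e, _⟩ | ⟨e, _⟩ | ⟨e, _⟩ | ⟨e, _⟩ |
            ⟨f', _, g', _, ⟨e, _⟩ | ⟨e, _⟩ | ⟨e, a', _, j2⟩⟩
          · omega
          · omega
          · omega
          · omega
          · omega
          · omega
          · have e3 : Nat.pair f g = Nat.pair f' g' := by omega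
            obtain ⟨rfl, rfl⟩ := Nat.pair_eq_pair.mp e3
            rcases j1 with ⟨en, ta⟩ | ⟨i, _, y, _, en, ty, tg⟩
            · rcases j2 with ⟨en', ta'⟩ | ⟨i', _, y', _, en', ty', tg'⟩
              · rw [en] at en'
                obtain ⟨rfl, _⟩ := Nat.pair_eq_pair.mp en'
                exact ih f (by omega) a m1 m2 ta ta'
              · rw [en] at en'
                have := (Nat.pair_eq_pair.mp en').2
                omega
            · rcases j2 with ⟨en', ta'⟩ | ⟨i', _, y', _, en', ty', tg'⟩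
              · rw [en] at en'
                have := (Nat.pair_eq_pair.mp en').2
                omega
              · have en2 := en'
                rw [en] at en2
                obtain ⟨rfl, e5⟩ := Nat.pair_eq_pair.mp en2
                have e6 : i = i' := by omega
                subst e6
                have e7 := ihn (Nat.pair a i) (by
                  rw [en]
                  exact Nat.pair_lt_pair_right a (Nat.lt_succ_self i)) y y' ty ty'
                subst e7
                exact ih g (by omega) _ m1 m2 tg tg'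

/-- derivations with all codes below `N` -/
inductive Der (N : ℕ) : ℕ → ℕ → ℕ → Prop
  | zero {n : ℕ} : cd 0 n 0 < N → Der N 0 n 0
  | succ {n : ℕ} : cd 1 n (n + 1) < N → Der N 1 n (n + 1)
  | left {a b : ℕ} : cd 2 (Nat.pair a b) a < N → Der N 2 (Nat.pair a b) a
  | right {a b : ℕ} : cd 3 (Nat.pair a b) b < N → Der N 3 (Nat.pair a b) b
  | pair {f g n a b : ℕ} : Der N f n a → Der N g n b →
      cd (3 * Nat.pair f g + 4) n (Nat.pair a b) < N →
      Der N (3 * Nat.pair f g + 4) n (Nat.pair a b)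
  | comp {f g n a m : ℕ} : Der N g n a → Der N f a m →
      cd (3 * Nat.pair f g + 5) n m < N → Der N (3 * Nat.pair f g + 5) n m
  | prec0 {f g a m : ℕ} : Der N f a m → cd (3 * Nat.pair f g + 6) (Nat.pair a 0) m < N →
      Der N (3 * Nat.pair f g + 6) (Nat.pair a 0) m
  | precS {f g a i y m : ℕ} : Der N (3 * Nat.pair f g + 6) (Nat.pair a i) y →
      Der N g (Nat.pair a (Nat.pair i y)) m →
      cd (3 * Nat.pair f g + 6) (Nat.pair a (i + 1)) m < N →
      Der N (3 * Nat.pair f g + 6) (Nat.pair a (i + 1)) m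

theorem Der.lt {N c n m : ℕ} (h : Der N c n m) : cd c n m < N := by
  cases h <;> assumption

theorem Der.mono {N N' c n m : ℕ} (h : Der N c n m) (hN : N ≤ N') : Der N' c n m := by
  induction h with
  | zero h => exact Der.zero (h.trans_le hN)
  | succ h => exact Der.succ (h.trans_le hN)
  | left h => exact Der.left (h.trans_le hN)
  | right h => exact Der.right (h.trans_le hN)
  | pair _ _ h i1 i2 => exact Der.pair i1 i2 (h.trans_le hN)
  | comp _ _ h i1 i2 => exact Der.comp i1 i2 (h.trans_le hN)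
  | prec0 _ h i1 => exact Der.prec0 i1 (h.trans_le hN)
  | precS _ _ h i1 i2 => exact Der.precS i1 i2 (h.trans_le hN)

/-- every finite set has a code -/
theorem exists_code (P : ℕ → Prop) (N : ℕ) : ∃ z < 2 ^ N, ∀ t, z.testBit t = true ↔ t < N ∧ P t := by
  classical
  induction N with
  | zero => exact ⟨0, by simp, by simp⟩
  | succ N ih =>
    obtain ⟨z, hz, h⟩ := ih
    by_cases hP : P N
    · refine ⟨z ||| 2 ^ N, ?_, ?_⟩
      · exact Nat.or_lt_two_pow (hz.trans (by rw [pow_succ]; have := Nat.two_pow_pos N; omega))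
          (by rw [pow_succ]; have := Nat.two_pow_pos N; omega)
      · intro t
        rw [Nat.testBit_or, Nat.testBit_two_pow, Bool.or_eq_true, h t, decide_eq_true_iff]
        constructor
        · rintro (⟨h1, h2⟩ | rfl)
          · exact ⟨by omega, h2⟩
          · exact ⟨by omega, hP⟩
        · rintro ⟨h1, h2⟩
          rcases Nat.lt_succ_iff_lt_or_eq.mp h1 with h3 | h3
          · exact Or.inl ⟨h3, h2⟩
          · exact Or.inr h3.symm
    · refine ⟨z, hz.trans (by rw [pow_succ]; have := Nat.two_pow_pos N; omega), ?_⟩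
      intro t
      rw [h t]
      constructor
      · rintro ⟨h1, h2⟩
        exact ⟨by omega, h2⟩
      · rintro ⟨h1, h2⟩
        refine ⟨?_, h2⟩
        rcases Nat.lt_succ_iff_lt_or_eq.mp h1 with h3 | h3
        · exact h3
        · subst h3
          exact absurd h2 hP

theorem cd_inj {c n m c' n' m' : ℕ} (h : cd c n m = cd c' n' m') : c = c' ∧ n = n' ∧ m = m' := by
  obtain ⟨h1, h2⟩ := Nat.pair_eq_pair.mp h
  obtain ⟨h3, h4⟩ := Nat.pair_eq_pair.mp h1
  exact ⟨h3, h4, h2⟩

/-- derivations give certificates -/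
theorem exists_cert (N : ℕ) : ∃ z < 2 ^ N, Cert z ∧ ∀ c n m, Der N c n m → T z c n m := by
  obtain ⟨z, hz, h⟩ := exists_code (fun t => ∃ c n m, t = cd c n m ∧ Der N c n m) N
  have hT : ∀ c n m, T z c n m ↔ Der N c n m := by
    intro c n m
    unfold T
    rw [h]
    constructor
    · rintro ⟨_, c', n', m', e, hd⟩
      obtain ⟨rfl, rfl, rfl⟩ := cd_inj e
      exact hd
    · intro hd
      exact ⟨hd.lt, c, n, m, rfl, hd⟩
  refine ⟨z, hz, ?_, fun c n m hd => (hT c n m).mpr hd⟩
  intro c hc n hn m hm ht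
  have hd := (hT c n m).mp ht
  have hb : ∀ {c n m : ℕ}, Der N c n m → c < z ∧ n < z ∧ m < z := by
    intro c n m hd
    have h1 := ((hT c n m).mpr hd).lt
    obtain ⟨h2, h3, h4⟩ := cd_ge c n m
    omega
  unfold J
  cases hd with
  | zero _ => exact Or.inl ⟨rfl, rfl⟩
  | succ _ => exact Or.inr (Or.inl ⟨rfl, rfl⟩)
  | @left a b _ =>
    refine Or.inr (Or.inr (Or.inl ⟨rfl, b, ?_, rfl⟩))
    have := Nat.right_le_pair m b
    omega
  | @right a b _ =>
    refine Or.inr (Or.inr (Or.inr (Or.inl ⟨rfl, a, ?_, rfl⟩)))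
    have := Nat.left_le_pair a m
    omega
  | @pair f g _ a b h1 h2 _ =>
    refine Or.inr (Or.inr (Or.inr (Or.inr ⟨f, (hb h1).1, g, (hb h2).1, Or.inl ⟨rfl, a,
      (hb h1).2.2, b, (hb h2).2.2, (hT _ _ _).mpr h1, (hT _ _ _).mpr h2, rfl⟩⟩)))
  | @comp f g _ a _ h1 h2 _ =>
    exact Or.inr (Or.inr (Or.inr (Or.inr ⟨f, (hb h2).1, g, (hb h1).1, Or.inr (Or.inl ⟨rfl, a,
      (hb h1).2.2, (hT _ _ _).mpr h1, (hT _ _ _).mpr h2⟩)⟩)))
  | @prec0 f g a _ h1 _ =>
    refine Or.inr (Or.inr (Or.inr (Or.inr ⟨f, (hb h1).1, g, ?_, Or.inr (Or.inr ⟨rfl, a,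
      (hb h1).2.1, Or.inl ⟨rfl, (hT _ _ _).mpr h1⟩⟩)⟩)))
    have := Nat.right_le_pair f g
    omega
  | @precS f g a i y _ h1 h2 _ =>
    refine Or.inr (Or.inr (Or.inr (Or.inr ⟨f, ?_, g, (hb h2).1, Or.inr (Or.inr ⟨rfl, a,
      ?_, Or.inr ⟨i, ?_, y, (hb h1).2.2, rfl, (hT _ _ _).mpr h1, (hT _ _ _).mpr h2⟩⟩)⟩)))
    · have := Nat.left_le_pair f g
      omega
    · have := Nat.left_le_pair a (i + 1)
      omega
    · have := Nat.right_le_pair a (i + 1)
      omega

theorem primrec_cd {α : Type} [Primcodable α] {f g h : α → ℕ} (hf : Primrec f) (hg : Primrec g)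
    (hh : Primrec h) : Primrec fun a => cd (f a) (g a) (h a) :=
  Primrec₂.natPair.comp (Primrec₂.natPair.comp hf hg) hh

/-- every primitive recursive function has a code with primitive recursively bounded
derivations -/
theorem exists_der {f : ℕ → ℕ} (hf : Nat.Primrec f) :
    ∃ (c : ℕ) (B : ℕ → ℕ), Primrec B ∧ ∀ n, Der (B n) c n (f n) := by
  induction hf with
  | zero =>
    refine ⟨0, fun n => cd 0 n 0 + 1, ?_, fun n => Der.zero (Nat.lt_succ_self _)⟩
    exact Primrec.succ.comp (primrec_cd (Primrec.const _) Primrec.id (Primrec.const _))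
  | succ =>
    refine ⟨1, fun n => cd 1 n (n + 1) + 1, ?_, fun n => Der.succ (Nat.lt_succ_self _)⟩
    exact Primrec.succ.comp (primrec_cd (Primrec.const _) Primrec.id Primrec.succ)
  | left =>
    refine ⟨2, fun n => cd 2 n n.unpair.1 + 1, ?_, fun n => ?_⟩
    · exact Primrec.succ.comp (primrec_cd (Primrec.const _) Primrec.id
        (Primrec.fst.comp Primrec.unpair))
    · have := Der.left (N := cd 2 n n.unpair.1 + 1) (a := n.unpair.1) (b := n.unpair.2)
        (by rw [Nat.pair_unpair]; omega)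
      rwa [Nat.pair_unpair] at this
  | right =>
    refine ⟨3, fun n => cd 3 n n.unpair.2 + 1, ?_, fun n => ?_⟩
    · exact Primrec.succ.comp (primrec_cd (Primrec.const _) Primrec.id
        (Primrec.snd.comp Primrec.unpair))
    · have := Der.right (N := cd 3 n n.unpair.2 + 1) (a := n.unpair.1) (b := n.unpair.2)
        (by rw [Nat.pair_unpair]; omega)
      rwa [Nat.pair_unpair] at this
  | @pair f g hf hg ihf ihg =>
    obtain ⟨cf, Bf, hBf, df⟩ := ihf
    obtain ⟨cg, Bg, hBg, dg⟩ := ihg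
    have pf : Primrec f := Primrec.nat_iff.mpr hf
    have pg : Primrec g := Primrec.nat_iff.mpr hg
    refine ⟨3 * Nat.pair cf cg + 4, fun n => Bf n + Bg n +
      (cd (3 * Nat.pair cf cg + 4) n (Nat.pair (f n) (g n)) + 1), ?_, fun n => ?_⟩
    · exact Primrec.nat_add.comp (Primrec.nat_add.comp hBf hBg) (Primrec.succ.comp
        (primrec_cd (Primrec.const _) Primrec.id (Primrec₂.natPair.comp pf pg)))
    · exact Der.pair ((df n).mono (by beta_reduce; omega)) ((dg n).mono (by beta_reduce; omega))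
        (by beta_reduce; omega)
  | @comp f g hf hg ihf ihg =>
    obtain ⟨cf, Bf, hBf, df⟩ := ihf
    obtain ⟨cg, Bg, hBg, dg⟩ := ihg
    have pf : Primrec f := Primrec.nat_iff.mpr hf
    have pg : Primrec g := Primrec.nat_iff.mpr hg
    refine ⟨3 * Nat.pair cf cg + 5, fun n => Bf (g n) + Bg n +
      (cd (3 * Nat.pair cf cg + 5) n (f (g n)) + 1), ?_, fun n => ?_⟩
    · exact Primrec.nat_add.comp (Primrec.nat_add.comp (hBf.comp pg) hBg) (Primrec.succ.comp
        (primrec_cd (Primrec.const _) Primrec.id (pf.comp pg)))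
    · exact Der.comp ((dg n).mono (by beta_reduce; omega)) ((df _).mono (by beta_reduce; omega))
        (by beta_reduce; omega)
  | @prec f g hf hg ihf ihg =>
    obtain ⟨cf, Bf, hBf, df⟩ := ihf
    obtain ⟨cg, Bg, hBg, dg⟩ := ihg
    have pf : Primrec f := Primrec.nat_iff.mpr hf
    have pg : Primrec g := Primrec.nat_iff.mpr hg
    have pV : Primrec₂ fun (a i : ℕ) => (i.rec (f a) fun y IH => g (Nat.pair a (Nat.pair y IH)) : ℕ) := by
      refine Primrec.nat_rec pf (g := fun a (p : ℕ × ℕ) => g (Nat.pair a (Nat.pair p.1 p.2))) ?_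
      exact pg.comp (Primrec₂.natPair.comp Primrec.fst (Primrec₂.natPair.comp
        (Primrec.fst.comp Primrec.snd) (Primrec.snd.comp Primrec.snd)))
    let V : ℕ → ℕ → ℕ := fun a i => i.rec (f a) fun y IH => g (Nat.pair a (Nat.pair y IH))
    let R : ℕ → ℕ → ℕ := fun a i => i.rec (Bf a + (cd (3 * Nat.pair cf cg + 6) (Nat.pair a 0)
      (f a) + 1)) fun y IH => IH + (Bg (Nat.pair a (Nat.pair y (V a y))) +
        (cd (3 * Nat.pair cf cg + 6) (Nat.pair a (y + 1)) (V a (y + 1)) + 1))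
    have pR : Primrec₂ R := by
      refine Primrec.nat_rec (g := fun a (p : ℕ × ℕ) => p.2 +
        (Bg (Nat.pair a (Nat.pair p.1 (V a p.1))) +
        (cd (3 * Nat.pair cf cg + 6) (Nat.pair a (p.1 + 1)) (V a (p.1 + 1)) + 1))) ?_ ?_
      · exact Primrec.nat_add.comp hBf (Primrec.succ.comp (primrec_cd (Primrec.const _)
          (Primrec₂.natPair.comp Primrec.id (Primrec.const 0)) pf))
      · have p1 : Primrec fun q : ℕ × ℕ × ℕ => q.2.1 := Primrec.fst.comp Primrec.snd
        have pV1 : Primrec fun q : ℕ × ℕ × ℕ => V q.1 q.2.1 := pV.comp Primrec.fst p1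
        have pV2 : Primrec fun q : ℕ × ℕ × ℕ => V q.1 (q.2.1 + 1) :=
          pV.comp Primrec.fst (Primrec.succ.comp p1)
        exact Primrec.nat_add.comp (Primrec.snd.comp Primrec.snd)
          (Primrec.nat_add.comp (hBg.comp (Primrec₂.natPair.comp Primrec.fst
            (Primrec₂.natPair.comp p1 pV1))) (Primrec.succ.comp (primrec_cd (Primrec.const _)
            (Primrec₂.natPair.comp Primrec.fst (Primrec.succ.comp p1)) pV2)))
    refine ⟨3 * Nat.pair cf cg + 6, fun n => R n.unpair.1 n.unpair.2, ?_, fun n => ?_⟩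
    · exact pR.comp (Primrec.fst.comp Primrec.unpair) (Primrec.snd.comp Primrec.unpair)
    · have key : ∀ a i, Der (R a i) (3 * Nat.pair cf cg + 6) (Nat.pair a i) (V a i) := by
        intro a i
        induction i with
        | zero =>
          exact Der.prec0 ((df a).mono (Nat.le_add_right _ _))
            (lt_of_lt_of_le (Nat.lt_succ_self _) (Nat.le_add_left _ _))
        | succ i ih =>
          refine Der.precS (y := V a i) (ih.mono (Nat.le_add_right _ _))
            ((dg _).mono ?_) ?_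
          · exact (Nat.le_add_right _ _).trans (Nat.le_add_left _ _)
          · exact lt_of_lt_of_le (Nat.lt_succ_self _)
              ((Nat.le_add_left _ _).trans (Nat.le_add_left _ _))
      have := key n.unpair.1 n.unpair.2
      rw [Nat.pair_unpair] at this
      exact this

/-- the universal property of `U` -/
theorem U_spec {f : ℕ → ℕ} (hf : Nat.Primrec f) : ∃ (c : ℕ) (r : ℕ → ℕ), Primrec r ∧
    ∀ n x, r n ≤ x → (U ![c, n, x] = 1 ↔ f n = 1) := by
  obtain ⟨c, B, hB, hd⟩ := exists_der hf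
  refine ⟨c, fun n => 2 ^ B n, ?_, ?_⟩
  · exact (Primrec₂.unpaired'.mp Nat.Primrec.pow).comp (Primrec.const 2) hB
  · intro n x hx
    beta_reduce at hx
    obtain ⟨z, hz, hc, hT⟩ := exists_cert (B n)
    have hz1 := hT c n (f n) (hd n)
    show chi (∃ z < x, Cert z ∧ T z c n 1) = 1 ↔ _
    constructor
    · intro h
      by_contra h1
      rw [chi_not] at h
      · omega
      · rintro ⟨z', _, hc', hT'⟩
        exact h1 (unique hc hc' c n _ _ hz1 hT')
    · intro h
      apply chi_of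
      rw [h] at hz1
      exact ⟨z, by omega, hc, hz1⟩

/-- the isomorphism of a punctual copy is primitive recursive -/
theorem PunctualCopy.primrec_iso (A : PunctualCopy) : Primrec A.iso := by
  have : ∀ n, A.iso n = Nat.rec (A.iso 0) (fun _ IH => A.S IH) n := by
    intro n
    induction n with
    | zero => rfl
    | succ n ih => rw [A.iso_succ, ih]
  refine Primrec.of_eq (Primrec.nat_rec₁ (A.iso 0) (A.primrec_S.comp₂ Primrec₂.right)) ?_
  intro n
  exact (this n).symm

/-- if `U` is primitive recursive on a punctual copy, then the inverse of the isomorphism is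
primitive recursive -/
theorem PunctualCopy.primrec_symm (A : PunctualCopy) (hU : A.PrimrecOn U) :
    Primrec A.iso.symm := by
  have hi := A.primrec_iso
  -- the diagonal function
  have hvec : ∀ {α : Type} [Primcodable α] {f g h : α → ℕ}, Primrec f → Primrec g → Primrec h →
      Primrec fun a => (![f a, g a, h a] : Fin 3 → ℕ) := by
    intro α _ f g h hf hg hh
    have : Primrec₂ fun (a : α) (i : Fin 3) => (![f a, g a, h a] : Fin 3 → ℕ) i := by
      have h1 : Primrec fun p : α × Fin 3 => if p.2 = 0 then f p.1 else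
          if p.2 = 1 then g p.1 else h p.1 :=
        Primrec.ite (Primrec.eq.comp Primrec.snd (Primrec.const 0)) (hf.comp Primrec.fst)
          (Primrec.ite (Primrec.eq.comp Primrec.snd (Primrec.const 1)) (hg.comp Primrec.fst)
            (hh.comp Primrec.fst))
      refine h1.of_eq ?_
      rintro ⟨a, i⟩
      fin_cases i <;> rfl
    exact Primrec.fin_curry.mpr this
  let D : ℕ → ℕ → ℕ → ℕ := fun e j a => A.tr U ![A.iso e, A.iso j, a]
  have hD : ∀ e j a, D e j a = A.iso (U ![e, j, A.iso.symm a]) := by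
    intro e j a
    show A.iso (U fun i => A.iso.symm (![A.iso e, A.iso j, a] i)) = _
    congr 2
    funext i
    fin_cases i <;> simp
  let ψ : ℕ → ℕ := fun j => if D j.unpair.1 j j.unpair.2 = A.iso 1 then 0 else 1
  have hψ : Primrec ψ := by
    refine Primrec.ite (Primrec.eq.comp ?_ (Primrec.const _)) (Primrec.const 0) (Primrec.const 1)
    refine Primrec.comp (f := A.tr U) hU (hvec (hi.comp (Primrec.fst.comp Primrec.unpair)) hi
      (Primrec.snd.comp Primrec.unpair))
  obtain ⟨c, r, hr, h⟩ := U_spec (Primrec.nat_iff.mp hψ)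
  have hbound : ∀ a, A.iso.symm a < r (Nat.pair c a) := by
    intro a
    by_contra hc
    have h1 := h (Nat.pair c a) (A.iso.symm a) (by omega)
    have h2 := hD c (Nat.pair c a) a
    have h3 : ψ (Nat.pair c a) = if D c (Nat.pair c a) a = A.iso 1 then 0 else 1 := by
      simp only [ψ, Nat.unpair_pair]
    by_cases h4 : D c (Nat.pair c a) a = A.iso 1
    · rw [if_pos h4] at h3
      rw [h4] at h2
      have h5 : U ![c, Nat.pair c a, A.iso.symm a] = 1 := (A.iso.injective h2).symm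
      have := h1.mp h5
      omega
    · rw [if_neg h4] at h3
      have h5 := h1.mpr h3
      rw [h5] at h2
      exact h4 h2
  have hg : Primrec fun a => Nat.findGreatest (fun m => A.iso m = a) (r (Nat.pair c a)) := by
    refine Primrec.nat_findGreatest (p := fun a m => A.iso m = a)
      (hr.comp (Primrec₂.natPair.comp (Primrec.const c) Primrec.id)) ?_
    exact Primrec.eq.comp (hi.comp Primrec.snd) Primrec.fst
  refine hg.of_eq ?_
  intro a
  have h1 : A.iso (A.iso.symm a) = a := A.iso.apply_symm_apply a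
  have h2 := Nat.findGreatest_spec (P := fun m => A.iso m = a)
    (Nat.le_of_lt (hbound a)) h1
  exact (Equiv.symm_apply_eq A.iso).mpr h2.symm |>.symm

/-- if the isomorphism and its inverse are primitive recursive, the copy is standard -/
theorem PunctualCopy.standard_of (A : PunctualCopy) (h : Primrec A.iso.symm) : A.Standard := by
  have hi := A.primrec_iso
  have hmap : ∀ {k : ℕ} {g : ℕ → ℕ}, Primrec g →
      Primrec fun v : Fin k → ℕ => fun i => g (v i) := by
    intro k g hg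
    have : Primrec₂ fun (v : Fin k → ℕ) (i : Fin k) => g (v i) :=
      hg.comp Primrec.fin_app
    exact Primrec.fin_curry.mpr this
  intro k f
  constructor
  · intro hf
    have h1 : Primrec fun v : Fin k → ℕ => A.iso.symm (A.tr f fun i => A.iso (v i)) :=
      h.comp (Primrec.comp (f := A.tr f) hf (hmap hi))
    refine h1.of_eq ?_
    intro v
    simp [PunctualCopy.tr]
  · intro hf
    exact hi.comp (hf.comp (hmap h))

end Pool.Agent.R652.Punct
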