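import Mathlib

/-!
Definitions for punctual standardness.
-/

set_option autoImplicit false

namespace Pool.Agent.R652.Punct

/-- The second Grzegorczyk class: the smallest class of functions on the natural numbers which
contains the zero functions, the successor function, the projections, addition and multiplication,
and which is closed under composition and under bounded primitive recursion. -/
inductive E2 : {k : ℕ} → ((Fin k → ℕ) → ℕ) → Prop
  | zero {k : ℕ} : E2 (fun _ : Fin k → ℕ => 0)
  | succ : E2 (fun v : Fin 1 → ℕ => v 0 + 1)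
  | proj {k : ℕ} (i : Fin k) : E2 (fun v : Fin k → ℕ => v i)
  | add : E2 (fun v : Fin 2 → ℕ => v 0 + v 1)
  | mul : E2 (fun v : Fin 2 → ℕ => v 0 * v 1)
  | comp {k m : ℕ} {f : (Fin m → ℕ) → ℕ} {g : Fin m → (Fin k → ℕ) → ℕ} :
      E2 f → (∀ i, E2 (g i)) → E2 (fun v => f fun i => g i v)
  | brec {k : ℕ} {f : (Fin k → ℕ) → ℕ} {g : (Fin (k + 2) → ℕ) → ℕ}
      {b h : (Fin (k + 1) → ℕ) → ℕ} : E2 f → E2 g → E2 b →
      (∀ v : Fin k → ℕ, h (Fin.cons 0 v) = f v) →
      (∀ (n : ℕ) (v : Fin k → ℕ),
        h (Fin.cons (n + 1) v) = g (Fin.cons n (Fin.cons (h (Fin.cons n v)) v))) →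
      (∀ v, h v ≤ b v) → E2 h

/-- A punctual copy of the natural numbers with the successor function: a primitive recursive
function `S` on the natural numbers such that the structure formed by the natural numbers and `S`
is isomorphic to the natural numbers with the usual successor, by the (unique) isomorphism
`iso`. -/
structure PunctualCopy where
  S : ℕ → ℕ
  primrec_S : Primrec S
  iso : ℕ ≃ ℕ
  iso_succ : ∀ n, iso (n + 1) = S (iso n)

/-- The function on the copy `A` which corresponds to `f`. -/
def PunctualCopy.tr (A : PunctualCopy) {k : ℕ} (f : (Fin k → ℕ) → ℕ) : (Fin k → ℕ) → ℕ :=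
  fun a => A.iso (f fun i => A.iso.symm (a i))

/-- The function `f` is primitive recursive on the copy `A`. -/
def PunctualCopy.PrimrecOn (A : PunctualCopy) {k : ℕ} (f : (Fin k → ℕ) → ℕ) : Prop :=
  Primrec (A.tr f)

/-- The copy `A` is punctually standard: the functions which are primitive recursive on `A` are
exactly the primitive recursive functions. -/
def PunctualCopy.Standard (A : PunctualCopy) : Prop :=
  ∀ (k : ℕ) (f : (Fin k → ℕ) → ℕ), A.PrimrecOn f ↔ Primrec f

/-- The set of functions `F` is a basis for punctual standardness. -/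
def IsBasis (F : (k : ℕ) → ((Fin k → ℕ) → ℕ) → Prop) : Prop :=
  ∀ A : PunctualCopy, (∀ (k : ℕ) (f : (Fin k → ℕ) → ℕ), F k f → A.PrimrecOn f) → A.Standard

end Pool.Agent.R652.Punct
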