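import Mathlib

/-!
A small toolkit for computably enumerable predicates and computable reducibility of equivalence
relations.
-/

set_option autoImplicit false

namespace Pool.Agent.R652.RE

open Nat.Partrec (Code)

/-- The computably enumerable set with index `e`. -/
def W (e : ℕ) : Set ℕ := {x | ((Denumerable.ofNat Code e).eval x).Dom}

/-- Computable reducibility of equivalence relations on the natural numbers. -/
def CRed (E F : ℕ → ℕ → Prop) : Prop :=
  ∃ f : ℕ → ℕ, Computable f ∧ ∀ x y, E x y ↔ F (f x) (f y)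

/-- Relations on the natural numbers at the level `Σ⁰₃` of the arithmetical hierarchy. -/
def Sigma3 (E : ℕ → ℕ → Prop) : Prop :=
  ∃ D : ℕ × ℕ × ℕ × ℕ × ℕ → Bool, Computable D ∧
    ∀ x y, E x y ↔ ∃ a, ∀ b, ∃ c, D (x, y, a, b, c) = true

/-- `Σ⁰₃`-complete equivalence relations with respect to computable reducibility. -/
def Sigma3Complete (E : ℕ → ℕ → Prop) : Prop :=
  Equivalence E ∧ Sigma3 E ∧ ∀ F : ℕ → ℕ → Prop, Equivalence F → Sigma3 F → CRed F E

/-- Equality of computably enumerable sets. -/
def EqCE : ℕ → ℕ → Prop := fun x y => W x = W y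

theorem CRed.trans {E F G : ℕ → ℕ → Prop} (h1 : CRed E F) (h2 : CRed F G) : CRed E G := by
  obtain ⟨f, hf, h1⟩ := h1
  obtain ⟨g, hg, h2⟩ := h2
  exact ⟨fun x => g (f x), hg.comp hf, fun x y => (h1 x y).trans (h2 _ _)⟩

section toolkit

variable {α β : Type} [Primcodable α] [Primcodable β]

theorem re_of_ex {D : α → ℕ → Bool} (hD : Computable₂ D) : REPred fun a => ∃ s, D a s = true := by
  have h : Partrec fun a => Nat.rfind fun s => (Part.some (D a s) : Part Bool) :=
    Partrec.rfind hD.partrec₂
  refine h.dom_re.of_eq ?_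
  intro a
  refine Nat.rfind_dom.trans ?_
  constructor
  · rintro ⟨n, h1, _⟩
    exact ⟨n, ((Part.mem_some_iff).mp h1).symm⟩
  · rintro ⟨n, h1⟩
    exact ⟨n, (Part.mem_some_iff).mpr h1.symm, fun _ => trivial⟩

theorem ex_code {p : α → Prop} (hp : REPred p) :
    ∃ c : Code, ∀ a, p a ↔ (c.eval (Encodable.encode a)).Dom := by
  obtain ⟨c, hc⟩ := Code.exists_code.mp hp
  refine ⟨c, fun a => ?_⟩
  rw [hc]
  simp only [Encodable.encodek, Part.coe_some, Part.bind_some]
  exact ⟨fun h => ⟨h, trivial⟩, fun h => h.1⟩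

theorem ex_of_re' {p : α → Prop} (hp : REPred p) :
    ∃ D : α → ℕ → Bool, Primrec₂ D ∧ ∀ a, p a ↔ ∃ s, D a s = true := by
  obtain ⟨c, hc⟩ := ex_code hp
  refine ⟨fun a s => (Code.evaln s c (Encodable.encode a)).isSome, ?_, fun a => ?_⟩
  · have h1 : Primrec₂ fun (a : α) (s : ℕ) => Code.evaln s c (Encodable.encode a) :=
      Code.primrec_evaln.comp (Primrec.pair (Primrec.pair Primrec.snd (Primrec.const c))
        (Primrec.encode.comp Primrec.fst))
    exact Primrec.option_isSome.comp h1
  · rw [hc a, Part.dom_iff_mem]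
    constructor
    · rintro ⟨y, hy⟩
      obtain ⟨s, hs⟩ := Code.evaln_complete.mp hy
      exact ⟨s, by rw [Option.isSome_iff_exists]; exact ⟨y, hs⟩⟩
    · rintro ⟨s, hs⟩
      obtain ⟨y, hy⟩ := Option.isSome_iff_exists.mp hs
      exact ⟨y, Code.evaln_sound hy⟩

theorem ex_of_re {p : α → Prop} (hp : REPred p) :
    ∃ D : α → ℕ → Bool, Computable₂ D ∧ ∀ a, p a ↔ ∃ s, D a s = true := by
  obtain ⟨D, h1, h2⟩ := ex_of_re' hp
  exact ⟨D, h1.to_comp, h2⟩

theorem re_dec {D : α → Bool} (hD : Computable D) : REPred fun a => D a = true := by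
  refine (re_of_ex (D := fun a _ => D a) (hD.comp Computable.fst)).of_eq ?_
  intro a
  simp

theorem re_comp {p : β → Prop} (hp : REPred p) {f : α → β} (hf : Computable f) :
    REPred fun a => p (f a) := by
  obtain ⟨D, hD, h⟩ := ex_of_re hp
  refine (re_of_ex (D := fun a s => D (f a) s) ?_).of_eq fun a => (h (f a)).symm
  exact hD.comp (hf.comp Computable.fst) Computable.snd

theorem re_and {p q : α → Prop} (hp : REPred p) (hq : REPred q) : REPred fun a => p a ∧ q a := by
  obtain ⟨D, hD, h⟩ := ex_of_re hp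
  obtain ⟨D', hD', h'⟩ := ex_of_re hq
  refine (re_of_ex (D := fun a s => D a s.unpair.1 && D' a s.unpair.2) ?_).of_eq ?_
  · exact (Primrec.and.to_comp).comp (hD.comp Computable.fst (Computable.fst.comp
      (Computable.unpair.comp Computable.snd))) (hD'.comp Computable.fst
      (Computable.snd.comp (Computable.unpair.comp Computable.snd)))
  · intro a
    rw [h a, h' a]
    constructor
    · rintro ⟨s, hs⟩
      rw [Bool.and_eq_true] at hs
      exact ⟨⟨_, hs.1⟩, ⟨_, hs.2⟩⟩
    · rintro ⟨⟨s, hs⟩, ⟨t, ht⟩⟩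
      exact ⟨Nat.pair s t, by simp [hs, ht]⟩

theorem re_or {p q : α → Prop} (hp : REPred p) (hq : REPred q) : REPred fun a => p a ∨ q a := by
  obtain ⟨D, hD, h⟩ := ex_of_re hp
  obtain ⟨D', hD', h'⟩ := ex_of_re hq
  refine (re_of_ex (D := fun a s => D a s || D' a s) ?_).of_eq ?_
  · exact (Primrec.or.to_comp).comp hD hD'
  · intro a
    rw [h a, h' a, ← exists_or]
    simp only [Bool.or_eq_true]

theorem re_ex {p : α → β → Prop} (hp : REPred fun q : α × β => p q.1 q.2) :
    REPred fun a => ∃ b, p a b := by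
  obtain ⟨D, hD, h⟩ := ex_of_re hp
  refine (re_of_ex (D := fun a s => ((Encodable.decode (α := β) s.unpair.1).map
    fun b => D (a, b) s.unpair.2).getD false) ?_).of_eq ?_
  · refine Computable.option_getD (Computable.option_map (Computable.decode.comp
      (Computable.fst.comp (Computable.unpair.comp Computable.snd))) ?_) (Computable.const false)
    exact hD.comp (Computable.pair (Computable.fst.comp Computable.fst) Computable.snd)
      (Computable.snd.comp (Computable.unpair.comp (Computable.snd.comp Computable.fst)))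
  · intro a
    constructor
    · rintro ⟨s, hs⟩
      cases hd : (Encodable.decode (α := β) s.unpair.1) with
      | none => rw [hd] at hs; simp at hs
      | some b =>
        rw [hd] at hs
        exact ⟨b, (h (a, b)).mpr ⟨_, by simpa using hs⟩⟩
    · rintro ⟨b, hb⟩
      obtain ⟨s, hs⟩ := (h (a, b)).mp hb
      exact ⟨Nat.pair (Encodable.encode b) s, by simp [hs]⟩

theorem re_false : REPred fun _ : α => False :=
  (re_dec (Computable.const false)).of_eq fun _ => by simp

theorem re_true : REPred fun _ : α => True :=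
  (re_dec (Computable.const true)).of_eq fun _ => by simp

theorem re_finset_ex {ι : Type} (S : Finset ι) {p : ι → α → Prop} (hp : ∀ i ∈ S, REPred (p i)) :
    REPred fun a => ∃ i ∈ S, p i a := by
  classical
  induction S using Finset.induction_on with
  | empty => exact re_false.of_eq fun a => by simp
  | insert i S hi ih =>
    refine (re_or (hp i (Finset.mem_insert_self i S)) (ih fun j hj => hp j
      (Finset.mem_insert_of_mem hj))).of_eq fun a => ?_
    simp

theorem re_finset_all {ι : Type} (S : Finset ι) {p : ι → α → Prop} (hp : ∀ i ∈ S, REPred (p i)) :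
    REPred fun a => ∀ i ∈ S, p i a := by
  classical
  induction S using Finset.induction_on with
  | empty => exact re_true.of_eq fun a => by simp
  | insert i S hi ih =>
    refine (re_and (hp i (Finset.mem_insert_self i S)) (ih fun j hj => hp j
      (Finset.mem_insert_of_mem hj))).of_eq fun a => ?_
    simp

/-- the equivalence relation generated by a uniformly computably enumerable relation is uniformly
computably enumerable -/
theorem re_eqvGen {r : ℕ → ℕ → ℕ → Prop} (hr : REPred fun p : ℕ × ℕ × ℕ => r p.1 p.2.1 p.2.2) :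
    REPred fun p : ℕ × ℕ × ℕ => Relation.EqvGen (r p.1) p.2.1 p.2.2 := by
  have hR : REPred fun p : ℕ × ℕ × ℕ => r p.1 p.2.1 p.2.2 ∨ r p.1 p.2.2 p.2.1 := by
    refine re_or hr (re_comp hr (f := fun p : ℕ × ℕ × ℕ => (p.1, p.2.2, p.2.1)) ?_)
    exact Computable.pair Computable.fst (Computable.pair (Computable.snd.comp Computable.snd)
      (Computable.fst.comp Computable.snd))
  obtain ⟨D, hD, hDR⟩ := ex_of_re' hR
  let st : ℕ → ℕ × Bool → ℕ × ℕ → ℕ × Bool := fun e q x => (x.1, q.2 && D (e, q.1, x.1) x.2)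
  have hst : Primrec fun p : (ℕ × ℕ × ℕ) × List (ℕ × ℕ) =>
      p.2.foldl (st p.1.1) (p.1.2.1, true) := by
    refine Primrec.list_foldl (α := (ℕ × ℕ × ℕ) × List (ℕ × ℕ)) (β := ℕ × ℕ) (σ := ℕ × Bool)
      (f := fun p => p.2) (g := fun p => (p.1.2.1, true))
      (h := fun p q => st p.1.1 q.1 q.2) Primrec.snd
      (Primrec.pair (Primrec.fst.comp (Primrec.snd.comp Primrec.fst)) (Primrec.const true)) ?_
    refine Primrec.pair (Primrec.fst.comp (Primrec.snd.comp Primrec.snd)) ?_
    refine Primrec.and.comp (Primrec.snd.comp (Primrec.fst.comp Primrec.snd)) ?_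
    exact hD.comp (Primrec.pair (Primrec.fst.comp (Primrec.fst.comp Primrec.fst))
      (Primrec.pair (Primrec.fst.comp (Primrec.fst.comp Primrec.snd))
        (Primrec.fst.comp (Primrec.snd.comp Primrec.snd))))
      (Primrec.snd.comp (Primrec.snd.comp Primrec.snd))
  have key : REPred fun p : ℕ × ℕ × ℕ => ∃ l : List (ℕ × ℕ),
      decide (l.foldl (st p.1) (p.2.1, true) = (p.2.2, true)) = true := by
    refine re_ex (p := fun (p : ℕ × ℕ × ℕ) (l : List (ℕ × ℕ)) =>
      decide (l.foldl (st p.1) (p.2.1, true) = (p.2.2, true)) = true) (re_dec ?_)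
    exact (Primrec.eq.decide.comp hst (Primrec.pair (Primrec.snd.comp
      (Primrec.snd.comp Primrec.fst)) (Primrec.const true))).to_comp
  refine key.of_eq ?_
  rintro ⟨e, a, b⟩
  simp only [decide_eq_true_eq]
  have h1 : Relation.EqvGen (r e) a b ↔
      Relation.ReflTransGen (fun a b => r e a b ∨ r e b a) a b := by
    constructor
    · intro h
      induction h with
      | rel x y h => exact Relation.ReflTransGen.single (Or.inl h)
      | refl x => exact Relation.ReflTransGen.refl
      | symm x y _ ih =>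
        have hs : ∀ {a b : ℕ}, Relation.ReflTransGen (fun a b => r e a b ∨ r e b a) a b →
            Relation.ReflTransGen (fun a b => r e a b ∨ r e b a) b a := by
          intro a b h
          induction h with
          | refl => exact Relation.ReflTransGen.refl
          | tail _ h ih => exact Relation.ReflTransGen.head (Or.symm h) ih
        exact hs ih
      | trans x y z _ _ ih1 ih2 => exact ih1.trans ih2
    · intro h
      induction h with
      | refl => exact Relation.EqvGen.refl _
      | tail _ h ih =>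
        refine Relation.EqvGen.trans _ _ _ ih ?_
        rcases h with h | h
        · exact Relation.EqvGen.rel _ _ h
        · exact Relation.EqvGen.symm _ _ (Relation.EqvGen.rel _ _ h)
  rw [h1]
  clear h1
  constructor
  · rintro ⟨l, hl⟩
    have h2 : ∀ l : List (ℕ × ℕ), (l.foldl (st e) (a, true)).2 = true →
        Relation.ReflTransGen (fun a b => r e a b ∨ r e b a) a (l.foldl (st e) (a, true)).1 := by
      intro l
      induction l using List.reverseRecOn with
      | nil => intro _; exact Relation.ReflTransGen.refl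
      | append_singleton l x ih =>
        intro h
        rw [List.foldl_append] at h ⊢
        simp only [List.foldl_cons, List.foldl_nil, st, Bool.and_eq_true] at h ⊢
        refine Relation.ReflTransGen.tail (ih h.1) ?_
        exact (hDR (e, _, x.1)).mpr ⟨_, h.2⟩
    have h3 := h2 l (by rw [hl])
    rw [hl] at h3
    exact h3
  · intro h
    induction h with
    | refl => exact ⟨[], rfl⟩
    | @tail x y _ h ih =>
      obtain ⟨l, hl⟩ := ih
      obtain ⟨s, hs⟩ := (hDR (e, x, y)).mp h
      refine ⟨l ++ [(y, s)], ?_⟩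
      rw [List.foldl_append, hl]
      simp [st, hs]

theorem re_mem_W : REPred fun p : ℕ × ℕ => p.2 ∈ W p.1 := by
  have h : Partrec fun p : ℕ × ℕ => (Denumerable.ofNat Code p.1).eval p.2 :=
    Code.eval_part.comp ((Computable.ofNat Code).comp Computable.fst) Computable.snd
  exact h.dom_re

end toolkit

/-- the s-m-n theorem for computably enumerable sets -/
theorem smn {P : ℕ → ℕ → Prop} (hP : REPred fun p : ℕ × ℕ => P p.1 p.2) :
    ∃ f : ℕ → ℕ, Computable f ∧ ∀ e x, x ∈ W (f e) ↔ P e x := by
  obtain ⟨c, hc⟩ := ex_code hP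
  refine ⟨fun e => Encodable.encode (c.curry e), ?_, fun e x => ?_⟩
  · exact Computable.encode.comp ((Code.primrec₂_curry.comp (Primrec.const c)
      Primrec.id).to_comp)
  · show ((Denumerable.ofNat Code (Encodable.encode (c.curry e))).eval x).Dom ↔ _
    rw [Denumerable.ofNat_encode, Code.eval_curry]
    exact (hc (e, x)).symm

/-- the recursion theorem for computably enumerable sets -/
theorem fixed {h : ℕ → ℕ} (hh : Computable h) : ∃ e, W (h e) = W e := by
  obtain ⟨c, hc⟩ := Code.fixed_point (f := fun c => Denumerable.ofNat Code (h (Encodable.encode c)))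
    ((Computable.ofNat Code).comp (hh.comp Computable.encode))
  refine ⟨Encodable.encode c, ?_⟩
  unfold W
  rw [hc, Denumerable.ofNat_encode]

theorem exists_index {P : ℕ → Prop} (hP : REPred P) : ∃ e, W e = {x | P x} := by
  obtain ⟨f, _, h⟩ := smn (P := fun _ x => P x) (re_comp hP Computable.snd)
  exact ⟨f 0, by ext x; exact h 0 x⟩

/-! complexity -/

theorem dom_iff (c : Code) (x : ℕ) : (c.eval x).Dom ↔ ∃ s, (Code.evaln s c x).isSome = true := by
  rw [Part.dom_iff_mem]
  constructor
  · rintro ⟨y, hy⟩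
    obtain ⟨s, hs⟩ := Code.evaln_complete.mp hy
    exact ⟨s, by rw [Option.isSome_iff_exists]; exact ⟨y, hs⟩⟩
  · rintro ⟨s, hs⟩
    obtain ⟨y, hy⟩ := Option.isSome_iff_exists.mp hs
    exact ⟨y, Code.evaln_sound hy⟩

/-- bounded membership -/
def Ws (s e x : ℕ) : Bool := (Code.evaln s (Denumerable.ofNat Code e) x).isSome

theorem mem_W_iff (e x : ℕ) : x ∈ W e ↔ ∃ s, Ws s e x = true := dom_iff _ _

theorem computable_Ws {α : Type} [Primcodable α] {f g h : α → ℕ} (hf : Computable f)
    (hg : Computable g) (hh : Computable h) : Computable fun a => Ws (f a) (g a) (h a) := by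
  have h1 : Computable fun a => Code.evaln (f a) (Denumerable.ofNat Code (g a)) (h a) :=
    Code.primrec_evaln.to_comp.comp (Computable.pair (Computable.pair hf
      ((Computable.ofNat Code).comp hg)) hh)
  exact Primrec.option_isSome.to_comp.comp h1

theorem Sigma3.of_red {E F : ℕ → ℕ → Prop} (h : CRed E F) (hF : Sigma3 F) : Sigma3 E := by
  obtain ⟨f, hf, h⟩ := h
  obtain ⟨D, hD, hF⟩ := hF
  refine ⟨fun p => D (f p.1, f p.2.1, p.2.2), ?_, fun x y => ?_⟩
  · exact hD.comp (Computable.pair (hf.comp Computable.fst) (Computable.pair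
      (hf.comp (Computable.fst.comp Computable.snd)) (Computable.snd.comp Computable.snd)))
  · rw [h, hF]

theorem eqCE_equivalence : Equivalence EqCE := ⟨fun _ => rfl, fun h => h.symm, fun h1 h2 => h1.trans h2⟩

theorem eqCE_sigma3 : Sigma3 EqCE := by
  refine ⟨fun p => (!(Ws p.2.2.2.1.unpair.1 p.1 p.2.2.2.1.unpair.2) ||
    Ws p.2.2.2.2 p.2.1 p.2.2.2.1.unpair.2) && (!(Ws p.2.2.2.1.unpair.1 p.2.1 p.2.2.2.1.unpair.2) ||
    Ws p.2.2.2.2 p.1 p.2.2.2.1.unpair.2), ?_, ?_⟩
  · have hx : Computable fun p : ℕ × ℕ × ℕ × ℕ × ℕ => p.1 := Computable.fst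
    have hy : Computable fun p : ℕ × ℕ × ℕ × ℕ × ℕ => p.2.1 :=
      Computable.fst.comp Computable.snd
    have hb : Computable fun p : ℕ × ℕ × ℕ × ℕ × ℕ => p.2.2.2.1.unpair :=
      Computable.unpair.comp (Computable.fst.comp (Computable.snd.comp
        (Computable.snd.comp Computable.snd)))
    have hc : Computable fun p : ℕ × ℕ × ℕ × ℕ × ℕ => p.2.2.2.2 :=
      Computable.snd.comp (Computable.snd.comp (Computable.snd.comp Computable.snd))
    have hb1 := Computable.fst.comp hb
    have hb2 := Computable.snd.comp hb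
    exact Primrec.and.to_comp.comp
      (Primrec.or.to_comp.comp (Primrec.not.to_comp.comp (computable_Ws hb1 hx hb2))
        (computable_Ws hc hy hb2))
      (Primrec.or.to_comp.comp (Primrec.not.to_comp.comp (computable_Ws hb1 hy hb2))
        (computable_Ws hc hx hb2))
  · intro x y
    constructor
    · intro h
      refine ⟨0, fun b => ?_⟩
      by_cases h1 : b.unpair.2 ∈ W x
      · have h2 : b.unpair.2 ∈ W y := by rw [← show W x = W y from h]; exact h1
        obtain ⟨s, hs⟩ := (mem_W_iff _ _).mp h1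
        obtain ⟨t, ht⟩ := (mem_W_iff _ _).mp h2
        refine ⟨max s t, ?_⟩
        have h3 : Ws (max s t) x b.unpair.2 = true := by
          unfold Ws at hs ⊢
          obtain ⟨z, hz⟩ := Option.isSome_iff_exists.mp hs
          rw [Option.isSome_iff_exists]
          exact ⟨z, Code.evaln_mono (le_max_left s t) hz⟩
        have h4 : Ws (max s t) y b.unpair.2 = true := by
          unfold Ws at ht ⊢
          obtain ⟨z, hz⟩ := Option.isSome_iff_exists.mp ht
          rw [Option.isSome_iff_exists]
          exact ⟨z, Code.evaln_mono (le_max_right s t) hz⟩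
        simp [h3, h4]
      · have h2 : b.unpair.2 ∉ W y := by rw [← show W x = W y from h]; exact h1
        have h3 : Ws b.unpair.1 x b.unpair.2 = false := by
          rw [Bool.eq_false_iff]
          exact fun h4 => h1 ((mem_W_iff _ _).mpr ⟨_, h4⟩)
        have h5 : Ws b.unpair.1 y b.unpair.2 = false := by
          rw [Bool.eq_false_iff]
          exact fun h4 => h2 ((mem_W_iff _ _).mpr ⟨_, h4⟩)
        exact ⟨0, by simp [h3, h5]⟩
    · rintro ⟨_, h⟩
      show W x = W y
      ext z
      constructor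
      · intro hz
        obtain ⟨s, hs⟩ := (mem_W_iff _ _).mp hz
        obtain ⟨c, hc⟩ := h (Nat.pair s z)
        simp only [Nat.unpair_pair, Bool.and_eq_true, Bool.or_eq_true, Bool.not_eq_true'] at hc
        rcases hc.1 with h1 | h1
        · rw [hs] at h1; exact absurd h1 (by simp)
        · exact (mem_W_iff _ _).mpr ⟨c, h1⟩
      · intro hz
        obtain ⟨s, hs⟩ := (mem_W_iff _ _).mp hz
        obtain ⟨c, hc⟩ := h (Nat.pair s z)
        simp only [Nat.unpair_pair, Bool.and_eq_true, Bool.or_eq_true, Bool.not_eq_true'] at hc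
        rcases hc.2 with h1 | h1
        · rw [hs] at h1; exact absurd h1 (by simp)
        · exact (mem_W_iff _ _).mpr ⟨c, h1⟩

/-- a set which is not `Π⁰₂` -/
def AA (x : ℕ) : Prop := ∃ a, Nat.pair x a ∉ W x

theorem AA_sigma3 : Sigma3 fun x y => x = y ∨ (AA x ∧ AA y) := by
  refine ⟨fun p => (decide (p.1 = p.2.1)) ||
    (!(Ws p.2.2.2.1 p.1 (Nat.pair p.1 p.2.2.1.unpair.1)) &&
      !(Ws p.2.2.2.1 p.2.1 (Nat.pair p.2.1 p.2.2.1.unpair.2))), ?_, ?_⟩
  · have hx : Computable fun p : ℕ × ℕ × ℕ × ℕ × ℕ => p.1 := Computable.fst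
    have hy : Computable fun p : ℕ × ℕ × ℕ × ℕ × ℕ => p.2.1 :=
      Computable.fst.comp Computable.snd
    have ha : Computable fun p : ℕ × ℕ × ℕ × ℕ × ℕ => p.2.2.1.unpair :=
      Computable.unpair.comp (Computable.fst.comp (Computable.snd.comp Computable.snd))
    have hb : Computable fun p : ℕ × ℕ × ℕ × ℕ × ℕ => p.2.2.2.1 :=
      Computable.fst.comp (Computable.snd.comp (Computable.snd.comp Computable.snd))
    have hpx := Primrec₂.natPair.to_comp.comp hx (Computable.fst.comp ha)
    have hpy := Primrec₂.natPair.to_comp.comp hy (Computable.snd.comp ha)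
    have he : Computable fun p : ℕ × ℕ × ℕ × ℕ × ℕ => decide (p.1 = p.2.1) :=
      (Primrec.eq.decide.comp Primrec.fst (Primrec.fst.comp Primrec.snd)).to_comp
    exact Primrec.or.to_comp.comp he (Primrec.and.to_comp.comp
      (Primrec.not.to_comp.comp (computable_Ws hb hx hpx))
      (Primrec.not.to_comp.comp (computable_Ws hb hy hpy)))
  · intro x y
    constructor
    · rintro (rfl | ⟨⟨a, ha⟩, ⟨b, hb⟩⟩)
      · exact ⟨0, fun _ => ⟨0, by simp⟩⟩
      · refine ⟨Nat.pair a b, fun s => ⟨0, ?_⟩⟩
        have h3 : Ws s x (Nat.pair x a) = false := by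
          rw [Bool.eq_false_iff]
          exact fun h4 => ha ((mem_W_iff _ _).mpr ⟨_, h4⟩)
        have h5 : Ws s y (Nat.pair y b) = false := by
          rw [Bool.eq_false_iff]
          exact fun h4 => hb ((mem_W_iff _ _).mpr ⟨_, h4⟩)
        simp [h3, h5]
    · rintro ⟨a, h⟩
      by_cases hxy : x = y
      · exact Or.inl hxy
      · refine Or.inr ⟨⟨a.unpair.1, fun hm => ?_⟩, ⟨a.unpair.2, fun hm => ?_⟩⟩
        · obtain ⟨s, hs⟩ := (mem_W_iff _ _).mp hm
          obtain ⟨_, hc⟩ := h s
          simp [hxy, hs] at hc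
        · obtain ⟨s, hs⟩ := (mem_W_iff _ _).mp hm
          obtain ⟨_, hc⟩ := h s
          simp [hxy, hs] at hc

/-- equality of computably enumerable sets is not `Σ⁰₃`-complete -/
theorem not_complete_of_red {E : ℕ → ℕ → Prop} (h : CRed E EqCE) : ¬ Sigma3Complete E := by
  rintro ⟨_, _, hE⟩
  obtain ⟨f, hf, hr⟩ := (hE (fun x y => x = y ∨ (AA x ∧ AA y)) ⟨fun x => Or.inl rfl, by
    rintro x y (rfl | ⟨h1, h2⟩)
    · exact Or.inl rfl
    · exact Or.inr ⟨h2, h1⟩, by
    rintro x y z (rfl | ⟨h1, h2⟩) (rfl | ⟨h3, h4⟩)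
    · exact Or.inl rfl
    · exact Or.inr ⟨h3, h4⟩
    · exact Or.inr ⟨h1, h2⟩
    · exact Or.inr ⟨h1, h4⟩⟩ AA_sigma3).trans h
  -- an element of `AA`
  obtain ⟨a0, ha0⟩ := exists_index (P := fun _ => False) re_false
  have hA0 : AA a0 := ⟨0, by rw [ha0]; exact fun h => h⟩
  have key : ∀ x, AA x ↔ W (f x) = W (f a0) := by
    intro x
    have h1 := hr x a0
    constructor
    · intro hx
      exact h1.mp (Or.inr ⟨hx, hA0⟩)
    · intro hx
      rcases h1.mpr hx with rfl | ⟨h2, _⟩
      · exact hA0
      · exact h2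
  -- the `Π⁰₂` index
  obtain ⟨e0, he0⟩ := exists_index (P := fun q : ℕ =>
    (Ws q.unpair.2.unpair.2 (f q.unpair.1) q.unpair.2.unpair.1 = false ∨
      q.unpair.2.unpair.1 ∈ W (f a0)) ∧
    (Ws q.unpair.2.unpair.2 (f a0) q.unpair.2.unpair.1 = false ∨
      q.unpair.2.unpair.1 ∈ W (f q.unpair.1))) (by
    have h1 : Computable fun q : ℕ => q.unpair.1 := Computable.fst.comp Computable.unpair
    have h2 : Computable fun q : ℕ => q.unpair.2.unpair :=
      Computable.unpair.comp (Computable.snd.comp Computable.unpair)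
    have hz := Computable.fst.comp h2
    have hs := Computable.snd.comp h2
    refine re_and (re_or ?_ ?_) (re_or ?_ ?_)
    · refine (re_dec (Primrec.not.to_comp.comp (computable_Ws hs (hf.comp h1) hz))).of_eq ?_
      intro q
      simp
    · exact re_comp re_mem_W (Computable.pair (Computable.const (f a0)) hz)
    · refine (re_dec (Primrec.not.to_comp.comp (computable_Ws hs (Computable.const (f a0))
        hz))).of_eq ?_
      intro q
      simp
    · exact re_comp re_mem_W (Computable.pair (hf.comp h1) hz))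
  have h3 : ∀ x, W (f x) = W (f a0) ↔ ∀ a, Nat.pair x a ∈ W e0 := by
    intro x
    rw [he0]
    constructor
    · intro h a
      simp only [Set.mem_ofPred_eq, Nat.unpair_pair, h]
      by_cases h4 : a.unpair.1 ∈ W (f a0)
      · exact ⟨Or.inr h4, Or.inr h4⟩
      · have h5 : ∀ e, a.unpair.1 ∉ W e → Ws a.unpair.2 e a.unpair.1 = false := by
          intro e he
          rw [Bool.eq_false_iff]
          exact fun h6 => he ((mem_W_iff _ _).mpr ⟨_, h6⟩)
        exact ⟨Or.inl (h5 _ (by rw [h]; exact h4)), Or.inl (h5 _ h4)⟩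
    · intro h
      ext z
      constructor
      · intro hz
        obtain ⟨s, hs⟩ := (mem_W_iff _ _).mp hz
        have := h (Nat.pair z s)
        simp only [Set.mem_ofPred_eq, Nat.unpair_pair] at this
        rcases this.1 with h6 | h6
        · rw [hs] at h6; exact absurd h6 (by simp)
        · exact h6
      · intro hz
        obtain ⟨s, hs⟩ := (mem_W_iff _ _).mp hz
        have := h (Nat.pair z s)
        simp only [Set.mem_ofPred_eq, Nat.unpair_pair] at this
        rcases this.2 with h6 | h6
        · rw [hs] at h6; exact absurd h6 (by simp)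
        · exact h6
  have h4 := (key e0).trans (h3 e0)
  by_cases h5 : AA e0
  · obtain ⟨a, ha⟩ := h5
    exact ha (h4.mp ⟨a, ha⟩ a)
  · apply h5
    rw [h4]
    intro a
    by_contra h6
    exact h5 ⟨a, h6⟩

end Pool.Agent.R652.RE
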