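import Mathlib

/-!
Finite invertible automata, given by tables, and the groups generated by their states acting on
finite words.
-/

set_option autoImplicit false

namespace Pool.Agent.R652.SS

open Equiv

/-- A finite automaton given by its tables: the first component is the number of letters (the
letters are `0, …, k - 1`), the second component is a list of rows, one for each state (the states
are `0, 1, …`), and the entry number `x` of the row number `s` is the pair
`(τ (s, x), λ (s, x))` (next state, output letter). -/
abbrev Automaton : Type := ℕ × List (List (ℕ × ℕ))

/-- The entry `(τ (s, x), λ (s, x))` of the table. -/
def entry (A : Automaton) (s x : ℕ) : ℕ × ℕ := (A.2.getD s []).getD x (0, 0)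

/-- `A` is a finite invertible automaton over an alphabet with at least two letters: every row has
one entry for each letter, the next states are states, the outputs are letters, and the output
map of each state is injective, hence a permutation of the letters. -/
def Valid (A : Automaton) : Prop :=
  2 ≤ A.1 ∧ ∀ row ∈ A.2, row.length = A.1 ∧ (row.map Prod.snd).Nodup ∧
    ∀ e ∈ row, e.1 < A.2.length ∧ e.2 < A.1

/-- The action of the state `s` on words: `s (ε) = ε`, `s (x w) = λ (s, x) τ (s, x) (w)`. -/
def run (A : Automaton) : ℕ → List ℕ → List ℕ
  | _, [] => []
  | s, x :: w => (entry A s x).2 :: run A (entry A s x).1 w

/-- The self-similar group `G(A)`: the group of permutations of the set of words over the alphabet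
`Fin A.1` generated by the permutations given by the states of `A`. -/
def G (A : Automaton) : Subgroup (Perm (List (Fin A.1))) :=
  Subgroup.closure {σ | ∃ s < A.2.length, ∀ w : List (Fin A.1),
    (σ w).map Fin.val = run A s (w.map Fin.val)}

end Pool.Agent.R652.SS
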