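import Pool.Agent.Helper599.Prim
import Pool.Agent.Helper599.Source2

/-!
The groups of the tables of `Helper599.Asm`: they are determined by the set of pairs
(linear part, weight), and the case where the machine stops.
-/

set_option autoImplicit false

namespace Pool.Agent.R652.SS

open Equiv Pool.Agent.Helper599 Pool.Agent.Helper599.PP Pool.Agent.Helper599.Ray
open Pool.Agent.Helper599.Mod Pool.Agent.Helper599.Core Pool.Agent.Helper599.Asm

/-- pairs (linear part, weight) -/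
abbrev PW : Type := GG × Multiplicative (ZMod 2)

/-- the group of pairs of the data -/
def SD (D : Data) : Subgroup PW :=
  Subgroup.closure {p | ∃ i < D.L, p = (D.MM i, Multiplicative.ofAdd (D.wi i))}

theorem desc_of (D : Data) (g : Perm R) (hg : g ∈ Cl D) :
    ∃ p ∈ SD D, ∃ v, Desc g p.1 v (Multiplicative.toAdd p.2) := by
  induction hg using Subgroup.closure_induction with
  | mem σ h =>
    obtain ⟨q, hq, hσ⟩ := h
    have h1 := code_idx_vec D.K q
    have h2 : idx D.K q < D.L := idx_lt hq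
    have hK := D.hK
    rw [← h1] at hσ
    exact ⟨_, Subgroup.subset_closure ⟨_, h2, rfl⟩, _, D.desc h2 (bd_vec (by omega) q) hσ⟩
  | one => exact ⟨1, one_mem _, 0, by simpa using Desc.one⟩
  | mul g h _ _ ih1 ih2 =>
    obtain ⟨p, hp, v, h1⟩ := ih1
    obtain ⟨p', hp', v', h2⟩ := ih2
    exact ⟨p * p', mul_mem hp hp', _, h1.mul h2⟩
  | inv g _ ih =>
    obtain ⟨p, hp, v, h1⟩ := ih
    refine ⟨p⁻¹, inv_mem hp, - ac p.1⁻¹ v, ?_⟩
    have h2 := h1.inv
    have h3 : - Multiplicative.toAdd p.2 = Multiplicative.toAdd p.2 :=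
      ZMod.neg_eq_self_mod_two _
    have h4 : Multiplicative.toAdd (p⁻¹).2 = Multiplicative.toAdd p.2 := by
      rw [Prod.snd_inv, toAdd_inv, h3]
    rw [h4]
    exact h2

theorem desc_unique {g g' : Perm R} {M : GG} {v : Z4} {e : ZMod 2} (h : Desc g M v e)
    (h' : Desc g' M v e) : g = g' := by
  have h1 := h.mul h'.inv
  have h2 : Desc (g * g'⁻¹) 1 0 0 := by
    convert h1 using 1
    · rw [mul_inv_cancel]
    · rw [ac_neg, ← ac_mul, mul_inv_cancel, ac_one, neg_add_cancel]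
    · exact (CharTwo.add_self_eq_zero e).symm
  exact mul_inv_eq_one.1 h2.eq_one

/-- The translations. -/
theorem trans_mem (D : Data) (v : Z4) : ∃ τ ∈ Cl D, Desc τ 1 v 0 := by
  have hadd : ∀ v w : Z4, (∃ τ ∈ Cl D, Desc τ 1 v 0) → (∃ τ ∈ Cl D, Desc τ 1 w 0) →
      ∃ τ ∈ Cl D, Desc τ 1 (v + w) 0 := by
    rintro v w ⟨τ, h1, h2⟩ ⟨τ', h1', h2'⟩
    refine ⟨τ' * τ, mul_mem h1' h1, ?_⟩
    have h3 := h2'.mul h2
    rwa [mul_one, ac_one, add_zero] at h3
  have hneg : ∀ v : Z4, (∃ τ ∈ Cl D, Desc τ 1 v 0) → ∃ τ ∈ Cl D, Desc τ 1 (-v) 0 := by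
    rintro v ⟨τ, h1, h2⟩
    refine ⟨τ⁻¹, inv_mem h1, ?_⟩
    have h3 := h2.inv
    rwa [inv_one, ac_one] at h3
  have hnat : ∀ (n : ℕ) (v : Z4), (∃ τ ∈ Cl D, Desc τ 1 v 0) →
      ∃ τ ∈ Cl D, Desc τ 1 ((n : ℤ) • v) 0 := by
    intro n v hv
    induction n with
    | zero => exact ⟨1, one_mem _, by simpa using Desc.one⟩
    | succ n ih =>
      have := hadd _ _ ih hv
      have e : (((n + 1 : ℕ) : ℤ)) • v = (n : ℤ) • v + v := by
        push_cast
        rw [add_smul, one_smul]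
      rwa [e]
  have hint : ∀ (n : ℤ) (v : Z4), (∃ τ ∈ Cl D, Desc τ 1 v 0) →
      ∃ τ ∈ Cl D, Desc τ 1 (n • v) 0 := by
    intro n v hv
    obtain ⟨m, rfl | rfl⟩ := Int.eq_nat_or_neg n
    · exact hnat m v hv
    · rw [neg_smul]
      exact hneg _ (hnat m v hv)
  have hunit : ∀ w : NM, Bd D.K w → ∃ τ ∈ Cl D, Desc τ 1 (tz w) 0 := by
    intro w hb
    have hq : code D.K D.i0 w < D.n := code_lt hb D.hi0
    have hσ := D.is_sP hq
    refine ⟨D.sP _, Subgroup.subset_closure ⟨_, hq, hσ⟩, ?_⟩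
    have h3 := D.desc D.hi0 hb hσ
    rw [MM0] at h3
    have : D.wi D.i0 = 0 := by
      unfold Data.wi
      rw [if_neg D.hne]
    rw [this] at h3
    exact h3
  have hK := D.hK
  have u1 := hunit ((1, 0), (0, 0)) (by simp only [Bd]; omega)
  have u2 := hunit ((0, 1), (0, 0)) (by simp only [Bd]; omega)
  have u3 := hunit ((0, 0), (1, 0)) (by simp only [Bd]; omega)
  have u4 := hunit ((0, 0), (0, 1)) (by simp only [Bd]; omega)
  obtain ⟨⟨p, q⟩, ⟨r, s⟩⟩ := v
  have h := hadd _ _ (hadd _ _ (hadd _ _ (hint p _ u1) (hint q _ u2)) (hint r _ u3)) (hint s _ u4)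
  have e : p • tz ((1, 0), (0, 0)) + q • tz ((0, 1), (0, 0)) + r • tz ((0, 0), (1, 0)) +
      s • tz ((0, 0), (0, 1)) = (((p, q), (r, s)) : Z4) := by
    simp [tz]
  rwa [e] at h

theorem elt_of (D : Data) (p : PW) (hp : p ∈ SD D) (v : Z4) :
    ∃ g ∈ Cl D, Desc g p.1 v (Multiplicative.toAdd p.2) := by
  have key : ∃ g ∈ Cl D, ∃ w, Desc g p.1 w (Multiplicative.toAdd p.2) := by
    induction hp using Subgroup.closure_induction with
    | mem p h =>
      obtain ⟨i, hi, rfl⟩ := h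
      have hq : code D.K i ((0, 0), (0, 0)) < D.n := code_lt D.bd_zero hi
      have hσ := D.is_sP hq
      exact ⟨D.sP _, Subgroup.subset_closure ⟨_, hq, hσ⟩, _, D.desc hi D.bd_zero hσ⟩
    | one => exact ⟨1, one_mem _, 0, by simpa using Desc.one⟩
    | mul p p' _ _ ih1 ih2 =>
      obtain ⟨g, hg, w, h1⟩ := ih1
      obtain ⟨g', hg', w', h2⟩ := ih2
      exact ⟨g * g', mul_mem hg hg', _, h1.mul h2⟩
    | inv p _ ih =>
      obtain ⟨g, hg, w, h1⟩ := ih
      refine ⟨g⁻¹, inv_mem hg, - ac p.1⁻¹ w, ?_⟩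
      have h2 := h1.inv
      have h3 : - Multiplicative.toAdd p.2 = Multiplicative.toAdd p.2 :=
        ZMod.neg_eq_self_mod_two _
      have h4 : Multiplicative.toAdd (p⁻¹).2 = Multiplicative.toAdd p.2 := by
        rw [Prod.snd_inv, toAdd_inv, h3]
      rw [h4]
      exact h2
  obtain ⟨g, hg, w, h1⟩ := key
  obtain ⟨τ, hτ, h2⟩ := trans_mem D (v - w)
  refine ⟨τ * g, mul_mem hτ hg, ?_⟩
  have h3 := h2.mul h1
  rw [one_mul, ac_one, zero_add] at h3
  rwa [add_sub_cancel] at h3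

/-- The group is determined by the group of pairs. -/
theorem Cl_eq {D D' : Data} (h : SD D = SD D') : Cl D = Cl D' := by
  have key : ∀ D D' : Data, SD D = SD D' → Cl D ≤ Cl D' := by
    intro D D' h g hg
    obtain ⟨p, hp, v, h1⟩ := desc_of D g hg
    rw [h] at hp
    obtain ⟨g', hg', h2⟩ := elt_of D' p hp v
    rwa [desc_unique h1 h2]
  exact le_antisymm (key _ _ h) (key _ _ h.symm)

theorem desc_one_inj {M : GG} {v : Z4} {e : ZMod 2} (h : Desc 1 M v e) :
    M = 1 ∧ v = 0 ∧ e = 0 := by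
  obtain ⟨h1, h2⟩ := gen_xi.eq h rfl
  refine ⟨h1, h2, ?_⟩
  have h7 := h.flip (fun _ => 16) 0 (fun j hj => by omega) (by simp)
  by_contra he
  simp [fl, he] at h7

section

variable {Q : Type} [Finite Q] (M : Sys Q Bool) (q0 : Q)

/-- the matrices, the special name having the trivial ones -/
noncomputable def mtZ (i : ℕ) : NM × NM := if i = ig M then dm else (lst M q0).getD i dm

theorem mtZ_ig : mtZ M q0 (ig M) = dm := if_pos rfl

theorem mtZ_eq (i : Fin (LL M)) (h : (i : ℕ) ≠ ig M) : mtZ M q0 i = mat M q0 0 ((eN M).symm i) := by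
  have h1 := mtN_eq M q0 0 i
  unfold mtN at h1
  rw [if_neg h] at h1
  unfold mtZ
  rw [if_neg h, h1]

theorem mtZ_le (i : ℕ) : sm (mtZ M q0 i) ≤ 4 + ((lst M q0).map sm).sum := by
  unfold mtZ
  split_ifs with h
  · simp [sm, dm]
  · by_cases hi : i < (lst M q0).length
    · have h1 : (lst M q0).getD i dm ∈ lst M q0 := by
        rw [List.getD_eq_getElem _ _ hi]
        exact List.getElem_mem _
      have h2 : sm ((lst M q0).getD i dm) ≤ ((lst M q0).map sm).sum :=
        List.le_sum_of_mem (List.mem_map_of_mem h1)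
      omega
    · rw [List.getD_eq_default _ _ (by omega)]
      simp [sm, dm]

/-- The data in which the special name has trivial linear part. -/
noncomputable def DZ : Data where
  K := 4 + ((lst M q0).map sm).sum
  L := LL M
  ig := ig M
  i0 := i0 M
  mt := mtZ M q0
  MM i := if h : i < LL M then (if i = ig M then 1 else
    RR M q0 0 (FreeGroup.of ((eN M).symm ⟨i, h⟩))) else 1
  hK := by omega
  hi0 := (eN M .id).2
  hig := (eN M .g).2
  hne := (DA M q0 0).hne
  mt0 := by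
    have h1 := mtZ_eq M q0 (eN M .id) (DA M q0 0).hne
    have h2 := (DA M q0 0).mt0
    rw [Equiv.symm_apply_apply] at h1
    exact h1
  h1 i hi p := by
    rw [dif_pos hi]
    by_cases h : i = ig M
    · rw [if_pos h, h, mtZ_ig]
      simp [ap, dm]
    · rw [if_neg h]
      have h1 := (DA M q0 0).h1 i hi p
      have h2 := mtZ_eq M q0 ⟨i, hi⟩ h
      have h3 := mtN_eq M q0 0 ⟨i, hi⟩
      simp only at h2 h3
      rw [h2, ← h3]
      rw [show (DA M q0 0).mt = mtN M q0 0 from rfl] at h1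
      rw [h1]
      change (if h : i < LL M then RR M q0 0 (FreeGroup.of ((eN M).symm ⟨i, h⟩))
        else 1).1 p = _
      rw [dif_pos hi]
  h2 i hi p := by
    rw [dif_pos hi]
    by_cases h : i = ig M
    · rw [if_pos h, h, mtZ_ig]
      simp [ap, dm]
    · rw [if_neg h]
      have h1 := (DA M q0 0).h2 i hi p
      have h2 := mtZ_eq M q0 ⟨i, hi⟩ h
      have h3 := mtN_eq M q0 0 ⟨i, hi⟩
      simp only at h2 h3
      rw [h2, ← h3]
      rw [show (DA M q0 0).mt = mtN M q0 0 from rfl] at h1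
      rw [h1]
      change (if h : i < LL M then RR M q0 0 (FreeGroup.of ((eN M).symm ⟨i, h⟩))
        else 1).2 p = _
      rw [dif_pos hi]
  hs i hi := by
    have := mtZ_le M q0 i
    simp only [sm] at this
    omega

end

end Pool.Agent.R652.SS
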