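import Pool.Agent.R652.SSGroup

/-!
The group in the case where the machine stops, and torsion in the other case.
-/

set_option autoImplicit false

namespace Pool.Agent.R652.SS

open Equiv Pool.Agent.Helper599 Pool.Agent.Helper599.PP Pool.Agent.Helper599.Ray
open Pool.Agent.Helper599.Mod Pool.Agent.Helper599.Core Pool.Agent.Helper599.Asm

section

variable {Q : Type} (M : Sys Q Bool) (q0 : Q) (N : ℕ)

/-- words in the names other than the special one -/
def NG : Subgroup (FreeGroup (Nm Q M.B)) :=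
  Subgroup.closure {x | ∃ a : Nm Q M.B, a ≠ .g ∧ x = FreeGroup.of a}

theorem dg_mem (c : FreeGroup (Gn Q M.B)) : dg M c ∈ NG M := by
  induction c using FreeGroup.induction_on with
  | C1 => rw [map_one]; exact one_mem _
  | of a =>
    simp only [Mod.dg, FreeGroup.lift_apply_of]
    exact Subgroup.subset_closure ⟨_, by simp, rfl⟩
  | inv_of a ih => rw [map_inv]; exact inv_mem ih
  | mul a b h1 h2 => rw [map_mul]; exact mul_mem h1 h2

/-- second words with trivial first words -/
def RN : Subgroup (FreeGroup (Gn Q M.B)) where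
  carrier := {c | ∃ u ∈ NG M, f1 M q0 N u = 1 ∧ f2 M q0 N u = c}
  one_mem' := ⟨1, one_mem _, by simp⟩
  mul_mem' := by
    rintro _ _ ⟨u, hu, h1, rfl⟩ ⟨v, hv, k1, rfl⟩
    exact ⟨u * v, mul_mem hu hv, by simp [h1, k1], by simp⟩
  inv_mem' := by
    rintro _ ⟨u, hu, h1, rfl⟩
    exact ⟨u⁻¹, inv_mem hu, by simp [h1], by simp⟩

instance : (RN M q0 N).Normal where
  conj_mem := by
    rintro _ ⟨u, hu, h1, rfl⟩ c
    refine ⟨dg M c * u * (dg M c)⁻¹, mul_mem (mul_mem (dg_mem M c) hu) (inv_mem (dg_mem M c)),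
      ?_, ?_⟩
    · rw [map_mul, map_mul, map_inv, h1, mul_one, mul_inv_cancel]
    · rw [map_mul, map_mul, map_inv, f2_dg]

/-- In the stopping case the special pair is a product of the other pairs. -/
theorem special_of_reach (h : Reach M (some q0, fun j => (Source.ini N j : ℤ))) :
    ∃ u ∈ NG M, f1 M q0 N u = f1 M q0 N (FreeGroup.of .g) ∧
      f2 M q0 N u = f2 M q0 N (FreeGroup.of .g) := by
  let π := QuotientGroup.mk' (RN M q0 N)
  let φ : Gn Q M.B → FreeGroup (Gn Q M.B) ⧸ RN M q0 N := fun a => π (FreeGroup.of a)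
  have hπ : ∀ w, π (vl M FreeGroup.of w) = vl M φ w := by
    intro w
    induction w with
    | nil => simp [vl]
    | cons a w ih => rw [vl_cons, vl_cons, map_mul, ih]
  have hφ : ∀ r, vl M φ (lhs M r) = vl M φ (rhs M r) := by
    intro r
    rw [← hπ, ← hπ]
    refine QuotientGroup.eq.2 ?_
    refine ⟨(dg M (vl M FreeGroup.of (lhs M r)))⁻¹ * FreeGroup.of (.rl r),
      mul_mem (inv_mem (dg_mem M _)) (Subgroup.subset_closure ⟨_, by simp, rfl⟩), ?_, ?_⟩
    · rw [map_mul, map_inv, f1_dg]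
      simp [f1, pr]
    · rw [map_mul, map_inv, f2_dg]
      simp [f2, pr]
  have h1 := commute_of_reach M φ hφ (some q0) (Source.ini N) h
  have h2 : vl M φ (pr M q0 N .g).1 = vl M φ (pr M q0 N .g).2 := by
    simp only [pr, vl_cons, vl_append, vl_nil, mul_one]
    exact h1.eq
  rw [← hπ, ← hπ] at h2
  have h3 := QuotientGroup.eq.1 h2
  obtain ⟨u, hu, k1, k2⟩ := h3
  refine ⟨dg M (vl M FreeGroup.of (pr M q0 N .g).1) * u, mul_mem (dg_mem M _) hu, ?_, ?_⟩
  · rw [map_mul, f1_dg, k1]
    simp [f1]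
  · rw [map_mul, f2_dg, k2]
    simp [f2]

end

section

variable {Q : Type} [Finite Q] (M : Sys Q Bool) (q0 : Q)

theorem MM_Z (a : Nm Q M.B) (h : a ≠ .g) :
    (DZ M q0).MM (eN M a) = RR M q0 0 (FreeGroup.of a) := by
  change (if h : (eN M a : ℕ) < LL M then (if (eN M a : ℕ) = ig M then 1 else
    RR M q0 0 (FreeGroup.of ((eN M).symm ⟨eN M a, h⟩))) else 1) = _
  have h1 : (eN M a : ℕ) ≠ ig M := fun h2 => h ((eN M).injective (Fin.ext h2))
  rw [dif_pos (eN M a).2, if_neg h1]
  simp

theorem MM_Zg : (DZ M q0).MM (eN M .g) = 1 := by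
  change (if h : (eN M .g : ℕ) < LL M then (if (eN M .g : ℕ) = ig M then 1 else
    RR M q0 0 (FreeGroup.of ((eN M).symm ⟨eN M .g, h⟩))) else 1) = _
  rw [dif_pos (eN M .g).2]
  exact if_pos rfl

theorem wi_Z (N : ℕ) (i : ℕ) : (DZ M q0).wi i = (DA M q0 N).wi i := rfl

theorem RR_ind (N : ℕ) (a : Nm Q M.B) (h : a ≠ .g) :
    RR M q0 N (FreeGroup.of a) = RR M q0 0 (FreeGroup.of a) := by
  cases a with
  | id => simp [Asm.RR, f1, f2, pr]
  | g => exact absurd rfl h
  | gn a => simp [Asm.RR, f1, f2, pr]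
  | rl r => simp [Asm.RR, f1, f2, pr]

/-- pairs of the names other than the special one -/
noncomputable def SG : Subgroup PW :=
  Subgroup.closure {p | ∃ a : Nm Q M.B, a ≠ .g ∧ p = (RR M q0 0 (FreeGroup.of a), 1)}

theorem SDZ_eq : SD (DZ M q0) = SG M q0 ⊔ Subgroup.zpowers (1, Multiplicative.ofAdd 1) := by
  apply le_antisymm
  · unfold SD
    rw [Subgroup.closure_le]
    rintro _ ⟨i, hi, rfl⟩
    obtain ⟨a, ha⟩ : ∃ a, (eN M a : ℕ) = i := ⟨(eN M).symm ⟨i, hi⟩, by simp⟩
    subst ha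
    rw [wi_Z M q0 0, wi_eN]
    by_cases h : a = .g
    · subst h
      rw [MM_Zg]
      exact Subgroup.mem_sup_right (Subgroup.mem_zpowers _)
    · rw [MM_Z M q0 a h]
      refine Subgroup.mem_sup_left (Subgroup.subset_closure ⟨a, h, ?_⟩)
      cases a with
      | g => exact absurd rfl h
      | id => rfl
      | gn a => rfl
      | rl r => rfl
  · rw [sup_le_iff]
    constructor
    · unfold SG
      rw [Subgroup.closure_le]
      rintro _ ⟨a, h, rfl⟩
      refine Subgroup.subset_closure ⟨eN M a, (eN M a).2, ?_⟩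
      rw [MM_Z M q0 a h, wi_Z M q0 0, wi_eN]
      cases a with
      | g => exact absurd rfl h
      | id => rfl
      | gn a => rfl
      | rl r => rfl
    · rw [Subgroup.zpowers_le]
      refine Subgroup.subset_closure ⟨eN M .g, (eN M .g).2, ?_⟩
      rw [MM_Zg, wi_Z M q0 0, wi_eN]
      rfl

theorem SDA_eq (N : ℕ) : SD (DA M q0 N) = SG M q0 ⊔
    Subgroup.zpowers (RR M q0 N (FreeGroup.of .g), Multiplicative.ofAdd 1) := by
  apply le_antisymm
  · unfold SD
    rw [Subgroup.closure_le]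
    rintro _ ⟨i, hi, rfl⟩
    obtain ⟨a, ha⟩ : ∃ a, (eN M a : ℕ) = i := ⟨(eN M).symm ⟨i, hi⟩, by simp⟩
    subst ha
    rw [wi_eN, MM_eN]
    by_cases h : a = .g
    · subst h
      exact Subgroup.mem_sup_right (Subgroup.mem_zpowers _)
    · rw [RR_ind M q0 N a h]
      refine Subgroup.mem_sup_left (Subgroup.subset_closure ⟨a, h, ?_⟩)
      cases a with
      | g => exact absurd rfl h
      | id => rfl
      | gn a => rfl
      | rl r => rfl
  · rw [sup_le_iff]
    constructor
    · unfold SG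
      rw [Subgroup.closure_le]
      rintro _ ⟨a, h, rfl⟩
      refine Subgroup.subset_closure ⟨eN M a, (eN M a).2, ?_⟩
      rw [MM_eN, wi_eN, RR_ind M q0 N a h]
      cases a with
      | g => exact absurd rfl h
      | id => rfl
      | gn a => rfl
      | rl r => rfl
    · rw [Subgroup.zpowers_le]
      refine Subgroup.subset_closure ⟨eN M .g, (eN M .g).2, ?_⟩
      rw [MM_eN, wi_eN]
      rfl

theorem RR_NG (N : ℕ) (u : FreeGroup (Nm Q M.B)) (hu : u ∈ NG M) :
    (RR M q0 N u, 1) ∈ SG M q0 := by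
  induction hu using Subgroup.closure_induction with
  | mem x h =>
    obtain ⟨a, ha, rfl⟩ := h
    rw [RR_ind M q0 N a ha]
    exact Subgroup.subset_closure ⟨a, ha, rfl⟩
  | one => rw [map_one]; exact one_mem _
  | mul x y _ _ h1 h2 =>
    rw [map_mul]
    have := mul_mem h1 h2
    simpa using this
  | inv x _ h1 =>
    rw [map_inv]
    have := inv_mem h1
    simpa using this

/-- In the stopping case the groups are equal. -/
theorem Cl_of_reach (N : ℕ) (h : Reach M (some q0, fun j => (Source.ini N j : ℤ))) :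
    Cl (DA M q0 N) = Cl (DZ M q0) := by
  apply Cl_eq
  obtain ⟨u, hu, h1, h2⟩ := special_of_reach M q0 N h
  have h3 : RR M q0 N u = RR M q0 N (FreeGroup.of .g) := by
    simp only [Asm.RR, MonoidHom.prod_apply, MonoidHom.comp_apply, h1, h2]
  have h4 := RR_NG M q0 N u hu
  rw [h3] at h4
  have e : ((RR M q0 N (FreeGroup.of .g), Multiplicative.ofAdd 1) : PW) =
      (RR M q0 N (FreeGroup.of .g), 1) * (1, Multiplicative.ofAdd 1) := by simp
  rw [SDZ_eq, SDA_eq]
  apply le_antisymm
  · refine sup_le le_sup_left ?_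
    rw [Subgroup.zpowers_le, e]
    exact mul_mem (Subgroup.mem_sup_left h4) (Subgroup.mem_sup_right (Subgroup.mem_zpowers _))
  · refine sup_le le_sup_left ?_
    rw [Subgroup.zpowers_le]
    have h5 : ((1, Multiplicative.ofAdd 1) : PW) = (RR M q0 N (FreeGroup.of .g), 1)⁻¹ *
        (RR M q0 N (FreeGroup.of .g), Multiplicative.ofAdd 1) := by simp
    rw [h5]
    exact mul_mem (inv_mem (Subgroup.mem_sup_left h4))
      (Subgroup.mem_sup_right (Subgroup.mem_zpowers _))

/-- The second group has an element of order two. -/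
theorem torsion_Z : ∃ g ∈ Cl (DZ M q0), g * g = 1 ∧ g ≠ 1 := by
  have h1 : ((1, Multiplicative.ofAdd 1) : PW) ∈ SD (DZ M q0) := by
    rw [SDZ_eq]
    exact Subgroup.mem_sup_right (Subgroup.mem_zpowers _)
  obtain ⟨g, hg, h2⟩ := elt_of _ _ h1 0
  refine ⟨g, hg, ?_, ?_⟩
  · have h3 := h2.mul h2
    apply Desc.eq_one
    have e1 : ((1 : GG), Multiplicative.ofAdd (1 : ZMod 2)).1 *
      ((1 : GG), Multiplicative.ofAdd (1 : ZMod 2)).1 = 1 := one_mul _
    have e2 : Multiplicative.toAdd ((1 : GG), Multiplicative.ofAdd (1 : ZMod 2)).2 +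
      Multiplicative.toAdd ((1 : GG), Multiplicative.ofAdd (1 : ZMod 2)).2 = 0 := by decide
    rw [e1, e2, ac_zero, add_zero] at h3
    exact h3
  · rintro rfl
    have h4 := (desc_one_inj h2).2.2
    exact absurd h4 (by decide)

theorem free_sq {α : Type} (x : FreeGroup α) (h : x * x = 1) : x = 1 := by
  have h1 : x ^ 2 = 1 ^ 2 := by rw [pow_two, h, one_pow]
  exact pow_left_injective two_ne_zero h1

/-- In the other case there is no element of order two. -/
theorem no_torsion (hab : ∀ q r, M.nxt q r ≠ none → ∀ j, M.b q r j < M.a q r j) (N : ℕ)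
    (hn : ¬ Reach M (some q0, fun j => (Source.ini N j : ℤ))) (g : Perm R)
    (hg : g ∈ Cl (DA M q0 N)) (hgg : g * g = 1) : g = 1 := by
  obtain ⟨u, v, h1⟩ := exists_desc M q0 N g hg
  have h2 := h1.mul h1
  rw [hgg] at h2
  obtain ⟨h3, h4, h5⟩ := desc_one_inj h2
  have k1 : f1 M q0 N u = 1 := by
    apply free_sq
    apply rep_injective M
    have := congrArg Prod.fst h3
    simpa [Asm.RR] using this
  have k2 : f2 M q0 N u = 1 := by
    apply free_sq
    apply rep_injective M
    have := congrArg Prod.snd h3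
    simpa [Asm.RR] using this
  have k3 := wt_eq_one M hab q0 N hn u k1 k2
  have k4 : RR M q0 N u = 1 := by
    simp [Asm.RR, k1, k2]
  rw [k4, ac_one] at h4
  have k5 : v = 0 := by
    obtain ⟨⟨a, b⟩, ⟨c, d⟩⟩ := v
    simp only [Prod.mk_add_mk, Prod.mk_eq_zero] at h4 ⊢
    omega
  rw [k4, k5, k3] at h1
  exact h1.eq_one

end

end Pool.Agent.R652.SS
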