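import Pool.Agent.R652.SSHalt
import Pool.Agent.R652.SSDefs

/-!
Passage from infinite words to finite words.
-/

set_option autoImplicit false

namespace Pool.Agent.R652.SS

open Equiv Pool.Agent.Helper599 Pool.Agent.Helper599.Ray Pool.Agent.Helper599.Asm

section Tree

variable {k : ℕ}

/-- the first letters of a ray -/
def pre (ξ : ℕ → Fin k) (m : ℕ) : List (Fin k) := List.ofFn (fun j : Fin m => ξ j)

theorem pre_length (ξ : ℕ → Fin k) (m : ℕ) : (pre ξ m).length = m := by simp [pre]

theorem pre_eq_iff (ξ η : ℕ → Fin k) (m : ℕ) : pre ξ m = pre η m ↔ ∀ j < m, ξ j = η j := by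
  unfold pre
  rw [List.ofFn_inj, funext_iff]
  exact ⟨fun h j hj => h ⟨j, hj⟩, fun h j => h j j.2⟩

theorem pre_succ (ξ : ℕ → Fin k) (m : ℕ) : pre ξ (m + 1) = pre ξ m ++ [ξ m] := by
  unfold pre
  rw [List.ofFn_succ_last]
  rfl

/-- extension of a word -/
def ext (a : Fin k) (w : List (Fin k)) : ℕ → Fin k := fun j => w.getD j a

theorem pre_ext (a : Fin k) (w : List (Fin k)) : pre (ext a w) w.length = w := by
  unfold pre ext
  refine List.ext_getElem (by simp) ?_
  intro i h1 h2
  rw [List.getElem_ofFn]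
  exact List.getD_eq_getElem _ _ h2

theorem app_inv' (ρ : Perm (ℕ → Fin k)) (η : ℕ → Fin k) : ρ (ρ⁻¹ η) = η :=
  ρ.apply_symm_apply η

/-- Permutations of the rays which are automorphisms of the tree. -/
def TA (k : ℕ) : Subgroup (Perm (ℕ → Fin k)) where
  carrier := {ρ | ∀ η ζ m, pre η m = pre ζ m ↔ pre (ρ η) m = pre (ρ ζ) m}
  one_mem' := fun _ _ _ => Iff.rfl
  mul_mem' := by
    intro ρ ρ' h h' η ζ m
    exact (h' η ζ m).trans (h _ _ m)
  inv_mem' := by
    intro ρ h η ζ m
    have := h (ρ⁻¹ η) (ρ⁻¹ ζ) m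
    rw [app_inv', app_inv'] at this
    exact this.symm

/-- action on words -/
def tw (a : Fin k) (ρ : Perm (ℕ → Fin k)) (w : List (Fin k)) : List (Fin k) :=
  pre (ρ (ext a w)) w.length

theorem tw_length (a : Fin k) (ρ : Perm (ℕ → Fin k)) (w : List (Fin k)) :
    (tw a ρ w).length = w.length := pre_length _ _

theorem tw_pre (a : Fin k) {ρ : Perm (ℕ → Fin k)} (h : ρ ∈ TA k) (η : ℕ → Fin k) (m : ℕ) :
    tw a ρ (pre η m) = pre (ρ η) m := by
  unfold tw
  rw [pre_length]
  refine (h _ _ m).1 ?_
  have := pre_ext a (pre η m)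
  rwa [pre_length] at this

theorem tw_mul (a : Fin k) {ρ ρ' : Perm (ℕ → Fin k)} (h : ρ ∈ TA k) (w : List (Fin k)) :
    tw a (ρ * ρ') w = tw a ρ (tw a ρ' w) := by
  have h1 : tw a ρ (tw a ρ' w) = pre (ρ (ρ' (ext a w))) w.length := tw_pre a h _ _
  rw [h1]
  rfl

theorem tw_one (a : Fin k) (w : List (Fin k)) : tw a 1 w = w := pre_ext a w

/-- the homomorphism to permutations of words -/
def toW (a : Fin k) : TA k →* Perm (List (Fin k)) where
  toFun ρ :=
    { toFun := tw a ρ.1
      invFun := tw a (ρ⁻¹).1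
      left_inv := fun w => by
        rw [← tw_mul a (ρ⁻¹).2, ← Subgroup.coe_mul, inv_mul_cancel]
        exact tw_one a w
      right_inv := fun w => by
        rw [← tw_mul a ρ.2, ← Subgroup.coe_mul, mul_inv_cancel]
        exact tw_one a w }
  map_one' := Equiv.ext fun w => tw_one a w
  map_mul' ρ ρ' := Equiv.ext fun w => tw_mul a ρ.2 w

theorem toW_apply (a : Fin k) (ρ : TA k) (w : List (Fin k)) : toW a ρ w = tw a ρ.1 w := rfl

theorem toW_injective (a : Fin k) : Function.Injective (toW a) := by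
  intro ρ ρ' h
  apply Subtype.ext
  ext η : 1
  funext j
  have h1 := DFunLike.congr_fun h (pre η (j + 1))
  rw [toW_apply, toW_apply, tw_pre a ρ.2, tw_pre a ρ'.2] at h1
  exact (pre_eq_iff _ _ _).1 h1 j (by omega)

end Tree

section Data

variable (D : Data)

/-- the automaton of the data -/
abbrev auto : Automaton := (18, D.T)

theorem auto_valid : Valid (auto D) := by
  obtain ⟨h1, h2⟩ := D.T_valid
  refine ⟨by simp, ?_⟩
  change ∀ row ∈ D.T, _
  intro row hrow
  have := h2 row hrow
  rw [← h1] at this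
  exact this

theorem run_append (A : Automaton) (s : ℕ) (w : List ℕ) (x : ℕ) :
    run A s (w ++ [x]) = run A s w ++ [(entry A (w.foldl (fun s x => (entry A s x).1) s) x).2] := by
  induction w generalizing s with
  | nil => rfl
  | cons y w ih =>
    simp only [List.cons_append, run, ih, List.foldl_cons]

theorem run_pre {q : ℕ} (hq : q < D.n) {ρ : Perm R} (hρ : D.Is q ρ) (η : R) (m : ℕ) :
    run (auto D) q ((pre η m).map Fin.val) = (pre (ρ η) m).map Fin.val := by
  induction m with
  | zero => rfl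
  | succ m ih =>
    rw [pre_succ, pre_succ, List.map_append, List.map_append, List.map_singleton,
      List.map_singleton, run_append, ih]
    congr 2
    have h1 : ((pre η m).map Fin.val).foldl (fun s x => (entry (auto D) s x).1) q =
        D.stt q η m := by
      rw [← D.fold_eq hq]
      unfold pre
      rw [List.map_ofFn]
      rfl
    rw [h1, hρ η m]
    have h2 := D.T_getD (D.stt_lt hq η m) (η m).2
    exact congrArg Prod.snd h2

theorem is_mem_TA {q : ℕ} (hq : q < D.n) {ρ : Perm R} (hρ : D.Is q ρ) : ρ ∈ TA 18 := by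
  intro η ζ m
  constructor
  · intro h
    have h1 := run_pre D hq hρ η m
    have h2 := run_pre D hq hρ ζ m
    rw [h, h2] at h1
    exact (List.map_injective_iff.2 Fin.val_injective h1).symm
  · intro h
    induction m with
    | zero => rfl
    | succ m ih =>
      rw [pre_succ, pre_succ] at h
      obtain ⟨h1, h2⟩ := List.append_inj h (by rw [pre_length, pre_length])
      have h3 := ih h1
      rw [pre_succ, pre_succ, h3]
      congr 2
      have h4 : D.stt q η m = D.stt q ζ m := by
        rw [← D.fold_eq hq, ← D.fold_eq hq]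
        have h5 := (pre_eq_iff _ _ _).1 h3
        congr 1
        rw [List.ofFn_inj]
        funext j
        rw [h5 j j.2]
      have h5 : ((ρ η m : Fin 18) : ℕ) = (ρ ζ m : Fin 18) := by
        have h6 : ρ η m = ρ ζ m := by simpa using h2
        rw [h6]
      rw [hρ η m, hρ ζ m, h4] at h5
      exact Fin.ext (D.O_inj (D.stt_lt hq ζ m) (η m).2 (ζ m).2 h5)

theorem Cl_le : Cl D ≤ TA 18 := by
  unfold Cl
  rw [Subgroup.closure_le]
  rintro ρ ⟨q, hq, hρ⟩
  exact is_mem_TA D hq hρ

/-- The group of words is the group of rays. -/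
theorem G_eq : (G (auto D) : Subgroup (Perm (List (Fin 18)))) =
    ((Cl D).subgroupOf (TA 18)).map (toW (0 : Fin 18)) := by
  apply le_antisymm
  · change Subgroup.closure {σ : Perm (List (Fin 18)) | ∃ s < D.T.length,
      ∀ w : List (Fin 18), (σ w).map Fin.val = run (auto D) s (w.map Fin.val)} ≤ _
    rw [Subgroup.closure_le]
    rintro σ ⟨q, hq, hσ⟩
    have hq' : q < D.n := by
      rw [← D.T_valid.1]
      exact hq
    have h1 := D.is_sP hq'
    refine ⟨⟨D.sP q, is_mem_TA D hq' h1⟩, Subgroup.subset_closure ⟨q, hq', h1⟩, ?_⟩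
    ext w : 1
    rw [toW_apply]
    apply List.map_injective_iff.2 Fin.val_injective
    rw [hσ, tw, ← run_pre D hq' h1, pre_ext]
  · rw [Subgroup.map_le_iff_le_comap]
    rintro ⟨ρ, hρ⟩ h
    have h1 : ρ ∈ Cl D := h
    rw [Subgroup.mem_comap]
    have key : ∀ ρ ∈ Cl D, ∀ hρ : ρ ∈ TA 18, toW (0 : Fin 18) ⟨ρ, hρ⟩ ∈ G (auto D) := by
      intro ρ hρ
      induction hρ using Subgroup.closure_induction with
      | mem ρ h =>
        obtain ⟨q, hq, h1⟩ := h
        intro h2
        refine Subgroup.subset_closure ⟨q, ?_, ?_⟩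
        · change q < D.T.length
          rw [D.T_valid.1]
          exact hq
        · intro w
          rw [toW_apply, tw, ← run_pre D hq h1, pre_ext]
      | one =>
        intro h2
        have : (⟨1, h2⟩ : TA 18) = 1 := rfl
        rw [this, map_one]
        exact one_mem _
      | mul x y hx hy ih1 ih2 =>
        intro h2
        have : (⟨x * y, h2⟩ : TA 18) = ⟨x, Cl_le D hx⟩ * ⟨y, Cl_le D hy⟩ := rfl
        rw [this, map_mul]
        exact mul_mem (ih1 _) (ih2 _)
      | inv x hx ih =>
        intro h2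
        have : (⟨x⁻¹, h2⟩ : TA 18) = ⟨x, Cl_le D hx⟩⁻¹ := rfl
        rw [this, map_inv]
        exact inv_mem (ih _)
    exact key ρ h1 hρ

/-- The isomorphism. -/
theorem G_iso : Nonempty (G (auto D) ≃* Cl D) := by
  rw [G_eq]
  exact ⟨(((Cl D).subgroupOf (TA 18)).equivMapOfInjective _ (toW_injective 0)).symm.trans
    (Subgroup.subgroupOfEquivOfLe (Cl_le D))⟩

end Data

end Pool.Agent.R652.SS
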