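import Mathlib
import Pool.Agent.R652.PCPBase

/-!
Mealy automata checking solutions of correspondence instances.
-/

set_option autoImplicit false

namespace Pool.Agent.R652.WReset

open PCPBase

/-! ### Mealy automata -/

/-- the state reached from `q` after reading a word, for the transition table `f` -/
def rst (f : ℕ → ℕ → ℕ × ℕ) : ℕ → List ℕ → ℕ
  | q, [] => q
  | q, a :: u => rst f (f q a).1 u

/-- the output produced from `q` on a word, for the transition table `f` -/
def rout (f : ℕ → ℕ → ℕ × ℕ) : ℕ → List ℕ → List ℕ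
  | _, [] => []
  | q, a :: u => (f q a).2 :: rout f (f q a).1 u

theorem rst_append (f : ℕ → ℕ → ℕ × ℕ) (u v : List ℕ) : ∀ q, rst f q (u ++ v) =
    rst f (rst f q u) v := by
  induction u with
  | nil => intro q; rfl
  | cons a u ih => intro q; exact ih _

theorem rout_append (f : ℕ → ℕ → ℕ × ℕ) (u v : List ℕ) : ∀ q, rout f q (u ++ v) =
    rout f q u ++ rout f (rst f q u) v := by
  induction u with
  | nil => intro q; rfl
  | cons a u ih => intro q; simp only [List.cons_append, rout, ih, rst]

theorem rout_congr {f g : ℕ → ℕ → ℕ × ℕ} {n k : ℕ}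
    (h : ∀ q < n, ∀ a < k, f q a = g q a ∧ (f q a).1 < n) (u : List ℕ) : ∀ q < n,
    (∀ a ∈ u, a < k) → rout f q u = rout g q u ∧ rst f q u = rst g q u := by
  induction u with
  | nil => intro q _ _; exact ⟨rfl, rfl⟩
  | cons a u ih =>
    intro q hq hu
    obtain ⟨h1, h2⟩ := h q hq a (hu a (List.mem_cons_self))
    obtain ⟨h3, h4⟩ := ih (f q a).1 h2 (fun b hb => hu b (List.mem_cons_of_mem _ hb))
    simp only [rout, rst]
    rw [← h1, h3, h4]
    exact ⟨rfl, rfl⟩

/-! ### The checking automaton -/

section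

variable (m : ℕ) (H G : List (List ℕ))

/-- The transitions of the checking automaton.
Letters: `0` left end marker, `1` the reset letter, `2` the dead letter, `3 + ((i m + j) m + k)` the
tile with index `i` in which `j` letters of the first word and `k` letters of the second word have
been used up.
States: `0` error, `1` refresh, `2` start of a check, `3` nothing found yet, `4` a common letter has
been found, `5`, `6` identity states, `7 + 2 x` (`8 + 2 x`) the letter `x` of the first (second)
word has been found. -/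
def f (q a : ℕ) : ℕ × ℕ :=
  if a = 0 then (if q = 1 then 1 else if q = 5 then 5 else if q = 6 then 6 else 2, 0)
  else if a = 1 then (5, if q = 0 ∨ q = 2 ∨ 7 ≤ q then 2 else 1)
  else if a = 2 then (if q = 1 then 1 else if q = 5 then 5 else if q = 6 then 6 else 0, 2)
  else
    if q = 1 then (1, 3 + (a - 3) / m / m * m * m)
    else if q = 0 ∨ q = 4 ∨ q = 5 ∨ q = 6 then (q, a)
    else
      let x := ((H.getD ((a - 3) / m / m) []).drop ((a - 3) / m % m)).head?
      let y := ((G.getD ((a - 3) / m / m) []).drop ((a - 3) % m)).head?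
      if q = 2 ∨ q = 3 then
        if x = none then
          if y = none then (3, a) else (8 + 2 * y.getD 0, a + 1)
        else if y = none then (7 + 2 * x.getD 0, a + m)
        else if x = y then (4, a + m + 1) else (0, a)
      else if q % 2 = 1 then
        if y = none then (q, a) else if y = some ((q - 7) / 2) then (4, a + 1) else (0, a)
      else
        if x = none then (q, a) else if x = some ((q - 7) / 2) then (4, a + m) else (0, a)

/-- a tile as a letter -/
def tl (t : ℕ × ℕ × ℕ) : ℕ := 3 + ((t.1 * m + t.2.1) * m + t.2.2)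

/-- good tiles -/
def Gd (t : ℕ × ℕ × ℕ) : Prop := t.2.1 < m ∧ t.2.2 < m

/-- the remaining part of the first word of a tile -/
def hp (t : ℕ × ℕ × ℕ) : List ℕ := (H.getD t.1 []).drop t.2.1

/-- the remaining part of the second word of a tile -/
def gp (t : ℕ × ℕ × ℕ) : List ℕ := (G.getD t.1 []).drop t.2.2

variable {m H G}

theorem decode {t : ℕ × ℕ × ℕ} (ht : Gd m t) : (tl m t - 3) / m / m = t.1 ∧
    (tl m t - 3) / m % m = t.2.1 ∧ (tl m t - 3) % m = t.2.2 := by
  obtain ⟨i, j, k⟩ := t
  obtain ⟨h1, h2⟩ := ht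
  simp only at h1 h2
  have hm : 0 < m := by omega
  have e0 : tl m (i, j, k) - 3 = (i * m + j) * m + k := by simp [tl]
  have e1 : ((i * m + j) * m + k) / m = i * m + j := by
    rw [Nat.add_comm, Nat.add_mul_div_right _ _ hm, Nat.div_eq_of_lt h2, zero_add]
  have e2 : ((i * m + j) * m + k) % m = k := by
    rw [Nat.add_comm, Nat.add_mul_mod_self_right, Nat.mod_eq_of_lt h2]
  rw [e0, e1]
  refine ⟨?_, ?_, e2⟩
  · rw [Nat.add_comm, Nat.add_mul_div_right _ _ hm, Nat.div_eq_of_lt h1, zero_add]
  · rw [Nat.add_comm, Nat.add_mul_mod_self_right, Nat.mod_eq_of_lt h1]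

theorem tl_ge (t : ℕ × ℕ × ℕ) : 3 ≤ tl m t := by simp [tl]

theorem f_tile (q : ℕ) {t : ℕ × ℕ × ℕ} (ht : Gd m t) : f m H G q (tl m t) =
    if q = 1 then (1, tl m (t.1, 0, 0))
    else if q = 0 ∨ q = 4 ∨ q = 5 ∨ q = 6 then (q, tl m t)
    else if q = 2 ∨ q = 3 then
        if (hp H t).head? = none then
          if (gp G t).head? = none then (3, tl m t)
          else (8 + 2 * (gp G t).head?.getD 0, tl m (t.1, t.2.1, t.2.2 + 1))
        else if (gp G t).head? = none then
          (7 + 2 * (hp H t).head?.getD 0, tl m (t.1, t.2.1 + 1, t.2.2))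
        else if (hp H t).head? = (gp G t).head? then (4, tl m (t.1, t.2.1 + 1, t.2.2 + 1))
        else (0, tl m t)
      else if q % 2 = 1 then
        if (gp G t).head? = none then (q, tl m t)
        else if (gp G t).head? = some ((q - 7) / 2) then (4, tl m (t.1, t.2.1, t.2.2 + 1))
        else (0, tl m t)
      else
        if (hp H t).head? = none then (q, tl m t)
        else if (hp H t).head? = some ((q - 7) / 2) then (4, tl m (t.1, t.2.1 + 1, t.2.2))
        else (0, tl m t) := by
  have h3 := tl_ge (m := m) t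
  obtain ⟨d1, d2, d3⟩ := decode ht
  have e1 : tl m (t.1, 0, 0) = 3 + t.1 * m * m := by simp [tl]
  have e2 : tl m (t.1, t.2.1, t.2.2 + 1) = tl m t + 1 := by simp [tl]; ring
  have e3 : tl m (t.1, t.2.1 + 1, t.2.2) = tl m t + m := by simp [tl]; ring
  have e4 : tl m (t.1, t.2.1 + 1, t.2.2 + 1) = tl m t + m + 1 := by simp [tl]; ring
  rw [e1, e2, e3, e4]
  unfold f
  rw [if_neg (by omega), if_neg (by omega), if_neg (by omega)]
  simp only [d1, d2, d3]
  rfl

/-- a word of tiles -/
def W (m : ℕ) (τ : List (ℕ × ℕ × ℕ)) : List ℕ := τ.map (tl m)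

/-- all tiles are good -/
def GD (m : ℕ) (τ : List (ℕ × ℕ × ℕ)) : Prop := ∀ t ∈ τ, Gd m t

/-- the remaining first word -/
def PP (H : List (List ℕ)) (τ : List (ℕ × ℕ × ℕ)) : List ℕ := τ.flatMap (hp H)

/-- the remaining second word -/
def QQ (G : List (List ℕ)) (τ : List (ℕ × ℕ × ℕ)) : List ℕ := τ.flatMap (gp G)

/-- the states which turn the reset letter into the dead letter -/
def Bad (q : ℕ) : Prop := q = 0 ∨ q = 2 ∨ 7 ≤ q

/-- the words of the instance are shorter than `m` -/
def Sh (m : ℕ) (H : List (List ℕ)) : Prop := ∀ i, (H.getD i []).length < m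

theorem hp_step (hm : Sh m H) {t : ℕ × ℕ × ℕ} {x : ℕ} {l : List ℕ} (h : hp H t = x :: l) :
    t.2.1 + 1 < m ∧ ∀ k, hp H (t.1, t.2.1 + 1, k) = l := by
  unfold hp at h
  constructor
  · have h1 := congrArg List.length h
    rw [List.length_drop, List.length_cons] at h1
    have := hm t.1
    omega
  · intro k
    unfold hp
    have : (H.getD t.1 []).drop (t.2.1 + 1) = ((H.getD t.1 []).drop t.2.1).drop 1 := by
      rw [List.drop_drop]
    simp only
    rw [this, h]
    rfl

theorem gp_step (hm : Sh m G) {t : ℕ × ℕ × ℕ} {x : ℕ} {l : List ℕ} (h : gp G t = x :: l) :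
    t.2.2 + 1 < m ∧ ∀ j, gp G (t.1, j, t.2.2 + 1) = l := by
  unfold gp at h
  constructor
  · have h1 := congrArg List.length h
    rw [List.length_drop, List.length_cons] at h1
    have := hm t.1
    omega
  · intro k
    unfold gp
    have : (G.getD t.1 []).drop (t.2.2 + 1) = ((G.getD t.1 []).drop t.2.2).drop 1 := by
      rw [List.drop_drop]
    simp only
    rw [this, h]
    rfl

theorem sweep_id {q : ℕ} (hq : q = 0 ∨ q = 4 ∨ q = 5 ∨ q = 6) (τ : List (ℕ × ℕ × ℕ))
    (hτ : GD m τ) : rst (f m H G) q (W m τ) = q ∧ rout (f m H G) q (W m τ) = W m τ := by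
  induction τ with
  | nil => exact ⟨rfl, rfl⟩
  | cons t τ ih =>
    have ht := hτ t (List.mem_cons_self)
    obtain ⟨h1, h2⟩ := ih (fun s hs => hτ s (List.mem_cons_of_mem _ hs))
    have e : f m H G q (tl m t) = (q, tl m t) := by
      rw [f_tile q ht, if_neg (by omega), if_pos hq]
    simp only [W, List.map_cons, rst, rout, e] at h1 h2 ⊢
    rw [h1, h2]
    exact ⟨rfl, rfl⟩

/-- refreshed tiles -/
def fr (τ : List (ℕ × ℕ × ℕ)) : List (ℕ × ℕ × ℕ) := τ.map fun t => (t.1, 0, 0)

theorem sweep_refresh (τ : List (ℕ × ℕ × ℕ)) (hτ : GD m τ) :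
    rst (f m H G) 1 (W m τ) = 1 ∧ rout (f m H G) 1 (W m τ) = W m (fr τ) := by
  induction τ with
  | nil => exact ⟨rfl, rfl⟩
  | cons t τ ih =>
    have ht := hτ t (List.mem_cons_self)
    obtain ⟨h1, h2⟩ := ih (fun s hs => hτ s (List.mem_cons_of_mem _ hs))
    have e : f m H G 1 (tl m t) = (1, tl m (t.1, 0, 0)) := by
      rw [f_tile 1 ht, if_pos rfl]
    simp only [W, fr, List.map_cons, rst, rout, e] at h1 h2 ⊢
    rw [h1, h2]
    exact ⟨rfl, rfl⟩

theorem GD_fr (hm : 0 < m) (τ : List (ℕ × ℕ × ℕ)) : GD m (fr τ) := by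
  intro t ht
  obtain ⟨s, _, rfl⟩ := List.mem_map.1 ht
  exact ⟨hm, hm⟩

theorem PP_fr (τ : List (ℕ × ℕ × ℕ)) : PP H (fr τ) = im H (τ.map Prod.fst) := by
  simp [PP, fr, im, hp, List.flatMap_map]

theorem QQ_fr (τ : List (ℕ × ℕ × ℕ)) : QQ G (fr τ) = im G (τ.map Prod.fst) := by
  simp [QQ, fr, im, gp, List.flatMap_map]

theorem sweep_h (hm : Sh m G) (x : ℕ) (τ : List (ℕ × ℕ × ℕ)) (hτ : GD m τ) :
    (QQ G τ = [] ∧ rst (f m H G) (7 + 2 * x) (W m τ) = 7 + 2 * x) ∨
    (∃ l τ', QQ G τ = x :: l ∧ QQ G τ' = l ∧ PP H τ' = PP H τ ∧ GD m τ' ∧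
      τ'.map Prod.fst = τ.map Prod.fst ∧ rst (f m H G) (7 + 2 * x) (W m τ) = 4 ∧
      rout (f m H G) (7 + 2 * x) (W m τ) = W m τ') ∨
    (∃ y l, QQ G τ = y :: l ∧ y ≠ x ∧ rst (f m H G) (7 + 2 * x) (W m τ) = 0) := by
  induction τ with
  | nil => exact Or.inl ⟨rfl, rfl⟩
  | cons t τ ih =>
    have ht := hτ t (List.mem_cons_self)
    have hτ' : GD m τ := fun s hs => hτ s (List.mem_cons_of_mem _ hs)
    have e := f_tile (H := H) (G := G) (7 + 2 * x) ht
    rw [if_neg (by omega), if_neg (by omega), if_neg (by omega), if_pos (by omega)] at e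
    cases hg : gp G t with
    | nil =>
      rw [hg, List.head?_nil, if_pos rfl] at e
      have hQ : QQ G (t :: τ) = QQ G τ := by simp [QQ, hg]
      rcases ih hτ' with ⟨h1, h2⟩ | ⟨l, τ', h1, h2, h3, h4, h5, h6, h7⟩ | ⟨y, l, h1, h2, h3⟩
      · refine Or.inl ⟨by rw [hQ, h1], ?_⟩
        simp only [W, List.map_cons, rst, e] at h2 ⊢
        exact h2
      · refine Or.inr (Or.inl ⟨l, t :: τ', by rw [hQ, h1], ?_, ?_, ?_, ?_, ?_, ?_⟩)
        · simp only [QQ, List.flatMap_cons, hg, List.nil_append] at h2 ⊢
          exact h2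
        · simp only [PP, List.flatMap_cons] at h3 ⊢
          rw [h3]
        · intro s hs
          rcases List.mem_cons.1 hs with rfl | hs
          · exact ht
          · exact h4 s hs
        · simp [h5]
        · simp only [W, List.map_cons, rst, e] at h6 ⊢
          exact h6
        · simp only [W, List.map_cons, rout, e] at h7 ⊢
          rw [h7]
      · refine Or.inr (Or.inr ⟨y, l, by rw [hQ, h1], h2, ?_⟩)
        simp only [W, List.map_cons, rst, e] at h3 ⊢
        exact h3
    | cons y l =>
      rw [hg, List.head?_cons, if_neg (by simp)] at e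
      have hQ : QQ G (t :: τ) = y :: (l ++ QQ G τ) := by simp [QQ, hg]
      obtain ⟨g1, g2⟩ := gp_step hm hg
      by_cases hxy : y = x
      · subst hxy
        rw [if_pos (by congr 1; omega)] at e
        obtain ⟨i1, i2⟩ := sweep_id (H := H) (G := G) (m := m) (q := 4) (by omega) τ hτ'
        refine Or.inr (Or.inl ⟨l ++ QQ G τ, (t.1, t.2.1, t.2.2 + 1) :: τ, hQ, ?_, ?_, ?_, ?_, ?_, ?_⟩)
        · simp only [QQ, List.flatMap_cons, g2]
        · simp only [PP, List.flatMap_cons, hp]
        · intro s hs
          rcases List.mem_cons.1 hs with rfl | hs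
          · exact ⟨ht.1, g1⟩
          · exact hτ' s hs
        · simp
        · simp only [W, List.map_cons, rst, e] at i1 ⊢
          exact i1
        · simp only [W, List.map_cons, rout, e] at i2 ⊢
          rw [i2]
      · rw [if_neg (by
          intro h
          apply hxy
          have := Option.some.inj h
          omega)] at e
        refine Or.inr (Or.inr ⟨y, l ++ QQ G τ, hQ, hxy, ?_⟩)
        obtain ⟨i1, i2⟩ := sweep_id (H := H) (G := G) (m := m) (q := 0) (by omega) τ hτ'
        simp only [W, List.map_cons, rst, e] at i1 ⊢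
        exact i1

theorem sweep_g (hm : Sh m H) (x : ℕ) (τ : List (ℕ × ℕ × ℕ)) (hτ : GD m τ) :
    (PP H τ = [] ∧ rst (f m H G) (8 + 2 * x) (W m τ) = 8 + 2 * x) ∨
    (∃ l τ', PP H τ = x :: l ∧ PP H τ' = l ∧ QQ G τ' = QQ G τ ∧ GD m τ' ∧
      τ'.map Prod.fst = τ.map Prod.fst ∧ rst (f m H G) (8 + 2 * x) (W m τ) = 4 ∧
      rout (f m H G) (8 + 2 * x) (W m τ) = W m τ') ∨
    (∃ y l, PP H τ = y :: l ∧ y ≠ x ∧ rst (f m H G) (8 + 2 * x) (W m τ) = 0) := by
  induction τ with
  | nil => exact Or.inl ⟨rfl, rfl⟩
  | cons t τ ih =>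
    have ht := hτ t (List.mem_cons_self)
    have hτ' : GD m τ := fun s hs => hτ s (List.mem_cons_of_mem _ hs)
    have e := f_tile (H := H) (G := G) (8 + 2 * x) ht
    rw [if_neg (by omega), if_neg (by omega), if_neg (by omega), if_neg (by omega)] at e
    cases hg : hp H t with
    | nil =>
      rw [hg, List.head?_nil, if_pos rfl] at e
      have hQ : PP H (t :: τ) = PP H τ := by simp [PP, hg]
      rcases ih hτ' with ⟨h1, h2⟩ | ⟨l, τ', h1, h2, h3, h4, h5, h6, h7⟩ | ⟨y, l, h1, h2, h3⟩
      · refine Or.inl ⟨by rw [hQ, h1], ?_⟩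
        simp only [W, List.map_cons, rst, e] at h2 ⊢
        exact h2
      · refine Or.inr (Or.inl ⟨l, t :: τ', by rw [hQ, h1], ?_, ?_, ?_, ?_, ?_, ?_⟩)
        · simp only [PP, List.flatMap_cons, hg, List.nil_append] at h2 ⊢
          exact h2
        · simp only [QQ, List.flatMap_cons] at h3 ⊢
          rw [h3]
        · intro s hs
          rcases List.mem_cons.1 hs with rfl | hs
          · exact ht
          · exact h4 s hs
        · simp [h5]
        · simp only [W, List.map_cons, rst, e] at h6 ⊢
          exact h6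
        · simp only [W, List.map_cons, rout, e] at h7 ⊢
          rw [h7]
      · refine Or.inr (Or.inr ⟨y, l, by rw [hQ, h1], h2, ?_⟩)
        simp only [W, List.map_cons, rst, e] at h3 ⊢
        exact h3
    | cons y l =>
      rw [hg, List.head?_cons, if_neg (by simp)] at e
      have hQ : PP H (t :: τ) = y :: (l ++ PP H τ) := by simp [PP, hg]
      obtain ⟨g1, g2⟩ := hp_step hm hg
      by_cases hxy : y = x
      · subst hxy
        rw [if_pos (by congr 1; omega)] at e
        obtain ⟨i1, i2⟩ := sweep_id (H := H) (G := G) (m := m) (q := 4) (by omega) τ hτ'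
        refine Or.inr (Or.inl ⟨l ++ PP H τ, (t.1, t.2.1 + 1, t.2.2) :: τ, hQ, ?_, ?_, ?_, ?_, ?_, ?_⟩)
        · simp only [PP, List.flatMap_cons, g2]
        · simp only [QQ, List.flatMap_cons, gp]
        · intro s hs
          rcases List.mem_cons.1 hs with rfl | hs
          · exact ⟨g1, ht.2⟩
          · exact hτ' s hs
        · simp
        · simp only [W, List.map_cons, rst, e] at i1 ⊢
          exact i1
        · simp only [W, List.map_cons, rout, e] at i2 ⊢
          rw [i2]
      · rw [if_neg (by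
          intro h
          apply hxy
          have := Option.some.inj h
          omega)] at e
        refine Or.inr (Or.inr ⟨y, l ++ PP H τ, hQ, hxy, ?_⟩)
        obtain ⟨i1, i2⟩ := sweep_id (H := H) (G := G) (m := m) (q := 0) (by omega) τ hτ'
        simp only [W, List.map_cons, rst, e] at i1 ⊢
        exact i1

/-- one check -/
theorem sweep (hmH : Sh m H) (hmG : Sh m G) (τ : List (ℕ × ℕ × ℕ)) : ∀ q : ℕ, GD m τ →
    (q = 3 ∨ (q = 2 ∧ τ ≠ [])) →
    (PP H τ = [] ∧ QQ G τ = [] ∧ rst (f m H G) q (W m τ) = 3 ∧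
      rout (f m H G) q (W m τ) = W m τ) ∨
    (∃ x P Q τ', PP H τ = x :: P ∧ QQ G τ = x :: Q ∧ PP H τ' = P ∧ QQ G τ' = Q ∧ GD m τ' ∧
      τ'.map Prod.fst = τ.map Prod.fst ∧ rst (f m H G) q (W m τ) = 4 ∧
      rout (f m H G) q (W m τ) = W m τ') ∨
    (PP H τ ≠ QQ G τ ∧ Bad (rst (f m H G) q (W m τ))) := by
  induction τ with
  | nil =>
    intro q _ hq
    rcases hq with rfl | ⟨_, h⟩
    · exact Or.inl ⟨rfl, rfl, rfl, rfl⟩
    · exact absurd rfl h
  | cons t τ ih =>
    intro q hτ hq
    have hq' : q = 2 ∨ q = 3 := by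
      rcases hq with h | h
      · exact Or.inr h
      · exact Or.inl h.1
    have ht := hτ t (List.mem_cons_self)
    have hτ' : GD m τ := fun s hs => hτ s (List.mem_cons_of_mem _ hs)
    have e := f_tile (H := H) (G := G) q ht
    rw [if_neg (by omega), if_neg (by omega), if_pos hq'] at e
    cases hh : hp H t with
    | nil =>
      cases hg : gp G t with
      | nil =>
        rw [hh, hg, List.head?_nil, if_pos rfl, if_pos rfl] at e
        have hP : PP H (t :: τ) = PP H τ := by simp [PP, hh]
        have hQ : QQ G (t :: τ) = QQ G τ := by simp [QQ, hg]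
        rw [hP, hQ]
        have er : rst (f m H G) q (W m (t :: τ)) = rst (f m H G) 3 (W m τ) := by
          simp only [W, List.map_cons, rst, e]
        have eo : rout (f m H G) q (W m (t :: τ)) = tl m t :: rout (f m H G) 3 (W m τ) := by
          simp only [W, List.map_cons, rout, e]
        rw [er, eo]
        rcases ih 3 hτ' (Or.inl rfl) with ⟨h1, h2, h3, h4⟩ |
          ⟨x, P, Q, τ', h1, h2, h3, h4, h5, h6, h7, h8⟩ | ⟨h1, h2⟩
        · refine Or.inl ⟨h1, h2, h3, ?_⟩
          rw [h4]; rfl
        · refine Or.inr (Or.inl ⟨x, P, Q, t :: τ', h1, h2, ?_, ?_, ?_, ?_, h7, ?_⟩)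
          · simp only [PP, List.flatMap_cons, hh, List.nil_append] at h3 ⊢
            exact h3
          · simp only [QQ, List.flatMap_cons, hg, List.nil_append] at h4 ⊢
            exact h4
          · intro s hs
            rcases List.mem_cons.1 hs with rfl | hs
            · exact ht
            · exact h5 s hs
          · simp [h6]
          · rw [h8]; rfl
        · exact Or.inr (Or.inr ⟨h1, h2⟩)
      | cons y l =>
        rw [hh, hg, List.head?_nil, List.head?_cons, if_pos rfl, if_neg (by simp)] at e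
        have hP : PP H (t :: τ) = PP H τ := by simp [PP, hh]
        have hQ : QQ G (t :: τ) = y :: (l ++ QQ G τ) := by simp [QQ, hg]
        obtain ⟨g1, g2⟩ := gp_step hmG hg
        have er : rst (f m H G) q (W m (t :: τ)) = rst (f m H G) (8 + 2 * y) (W m τ) := by
          simp only [W, List.map_cons, rst, e, Option.getD_some]
        have eo : rout (f m H G) q (W m (t :: τ)) = tl m (t.1, t.2.1, t.2.2 + 1) ::
            rout (f m H G) (8 + 2 * y) (W m τ) := by
          simp only [W, List.map_cons, rout, e, Option.getD_some]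
        rw [er, eo, hP, hQ]
        rcases sweep_g (H := H) (G := G) hmH y τ hτ' with ⟨h1, h2⟩ |
          ⟨l', τ', h1, h2, h3, h4, h5, h6, h7⟩ | ⟨z, l', h1, h2, h3⟩
        · refine Or.inr (Or.inr ⟨by rw [h1]; simp, ?_⟩)
          rw [h2]; right; right; omega
        · refine Or.inr (Or.inl ⟨y, l', l ++ QQ G τ, (t.1, t.2.1, t.2.2 + 1) :: τ', h1, rfl,
            ?_, ?_, ?_, ?_, h6, ?_⟩)
          · simp only [PP, List.flatMap_cons] at h2 ⊢
            have : hp H (t.1, t.2.1, t.2.2 + 1) = hp H t := rfl
            rw [this, hh, List.nil_append]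
            exact h2
          · simp only [QQ, List.flatMap_cons, g2] at h3 ⊢
            rw [h3]
          · intro s hs
            rcases List.mem_cons.1 hs with rfl | hs
            · exact ⟨ht.1, g1⟩
            · exact h4 s hs
          · simp [h5]
          · rw [h7]; rfl
        · refine Or.inr (Or.inr ⟨?_, by rw [h3]; exact Or.inl rfl⟩)
          rw [h1]
          intro hc
          exact h2 (List.cons.inj hc).1
    | cons x l =>
      obtain ⟨k1, k2⟩ := hp_step hmH hh
      have hP : PP H (t :: τ) = x :: (l ++ PP H τ) := by simp [PP, hh]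
      cases hg : gp G t with
      | nil =>
        rw [hh, hg, List.head?_nil, List.head?_cons, if_neg (by simp), if_pos rfl] at e
        have hQ : QQ G (t :: τ) = QQ G τ := by simp [QQ, hg]
        have er : rst (f m H G) q (W m (t :: τ)) = rst (f m H G) (7 + 2 * x) (W m τ) := by
          simp only [W, List.map_cons, rst, e, Option.getD_some]
        have eo : rout (f m H G) q (W m (t :: τ)) = tl m (t.1, t.2.1 + 1, t.2.2) ::
            rout (f m H G) (7 + 2 * x) (W m τ) := by
          simp only [W, List.map_cons, rout, e, Option.getD_some]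
        rw [er, eo, hP, hQ]
        rcases sweep_h (H := H) (G := G) hmG x τ hτ' with ⟨h1, h2⟩ |
          ⟨l', τ', h1, h2, h3, h4, h5, h6, h7⟩ | ⟨z, l', h1, h2, h3⟩
        · refine Or.inr (Or.inr ⟨by rw [h1]; simp, ?_⟩)
          rw [h2]; right; right; omega
        · refine Or.inr (Or.inl ⟨x, l ++ PP H τ, l', (t.1, t.2.1 + 1, t.2.2) :: τ', rfl, h1,
            ?_, ?_, ?_, ?_, h6, ?_⟩)
          · simp only [PP, List.flatMap_cons, k2] at h3 ⊢
            rw [h3]
          · simp only [QQ, List.flatMap_cons] at h2 ⊢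
            have : gp G (t.1, t.2.1 + 1, t.2.2) = gp G t := rfl
            rw [this, hg, List.nil_append]
            exact h2
          · intro s hs
            rcases List.mem_cons.1 hs with rfl | hs
            · exact ⟨k1, ht.2⟩
            · exact h4 s hs
          · simp [h5]
          · rw [h7]; rfl
        · refine Or.inr (Or.inr ⟨?_, by rw [h3]; exact Or.inl rfl⟩)
          rw [h1]
          intro hc
          exact h2 (List.cons.inj hc).1.symm
      | cons y l' =>
        obtain ⟨g1, g2⟩ := gp_step hmG hg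
        have hQ : QQ G (t :: τ) = y :: (l' ++ QQ G τ) := by simp [QQ, hg]
        rw [hh, hg, List.head?_cons, List.head?_cons, if_neg (by simp), if_neg (by simp)] at e
        rw [hP, hQ]
        by_cases hxy : x = y
        · subst hxy
          rw [if_pos rfl] at e
          obtain ⟨i1, i2⟩ := sweep_id (H := H) (G := G) (m := m) (q := 4) (by omega) τ hτ'
          refine Or.inr (Or.inl ⟨x, l ++ PP H τ, l' ++ QQ G τ,
            (t.1, t.2.1 + 1, t.2.2 + 1) :: τ, rfl, rfl, ?_, ?_, ?_, ?_, ?_, ?_⟩)
          · simp only [PP, List.flatMap_cons, k2]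
          · simp only [QQ, List.flatMap_cons, g2]
          · intro s hs
            rcases List.mem_cons.1 hs with rfl | hs
            · exact ⟨k1, g1⟩
            · exact hτ' s hs
          · simp
          · simp only [W, List.map_cons, rst, e] at i1 ⊢
            exact i1
          · simp only [W, List.map_cons, rout, e] at i2 ⊢
            rw [i2]
        · rw [if_neg (by simpa using hxy)] at e
          refine Or.inr (Or.inr ⟨?_, ?_⟩)
          · intro hc
            exact hxy (List.cons.inj hc).1
          · obtain ⟨i1, i2⟩ := sweep_id (H := H) (G := G) (m := m) (q := 0) (by omega) τ hτ'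
            left
            simp only [W, List.map_cons, rst, e] at i1 ⊢
            exact i1

end

end Pool.Agent.R652.WReset
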