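import Mathlib
import Pool.Agent.R652.WReset

/-!
The checking automaton: behaviour on arbitrary words.
-/

set_option autoImplicit false

namespace Pool.Agent.R652.WReset

open PCPBase

section

variable {m : ℕ} {H G : List (List ℕ)}

/-- apply a sequence of states -/
def comp (g : ℕ → ℕ → ℕ × ℕ) (qs : List ℕ) (u : List ℕ) : List ℕ :=
  qs.foldl (fun u q => rout g q u) u

theorem comp_append (g : ℕ → ℕ → ℕ × ℕ) (qs rs : List ℕ) (u : List ℕ) :
    comp g (qs ++ rs) u = comp g rs (comp g qs u) := by
  simp [comp]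

/-! #### Behaviour after the reset letter -/

theorem id5 (u : List ℕ) : rst (f m H G) 5 u = 5 ∧ rout (f m H G) 5 u = u := by
  induction u with
  | nil => exact ⟨rfl, rfl⟩
  | cons a u ih =>
    have e : f m H G 5 a = (5, a) := by
      unfold f
      by_cases h0 : a = 0
      · subst h0; simp
      · rw [if_neg h0]
        by_cases h1 : a = 1
        · subst h1; simp
        · rw [if_neg h1]
          by_cases h2 : a = 2
          · subst h2; simp
          · rw [if_neg h2]; simp
    simp only [rst, rout, e, ih]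
    exact ⟨trivial, trivial⟩

theorem st6 (u : List ℕ) (hu : 1 ∉ u) : rst (f m H G) 6 u = 6 := by
  induction u with
  | nil => rfl
  | cons a u ih =>
    have e : (f m H G 6 a).1 = 6 := by
      unfold f
      by_cases h0 : a = 0
      · subst h0; simp
      · rw [if_neg h0]
        by_cases h1 : a = 1
        · exfalso; apply hu; rw [h1]; exact List.mem_cons_self
        · rw [if_neg h1]
          by_cases h2 : a = 2
          · subst h2; simp
          · rw [if_neg h2]; simp
    simp only [rst, e]
    exact ih (fun h => hu (List.mem_cons_of_mem _ h))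

theorem f_one (q : ℕ) : f m H G q 1 = (5, if q = 0 ∨ q = 2 ∨ 7 ≤ q then 2 else 1) := by
  simp [f]

theorem rst_of_mem (u : List ℕ) (hu : 1 ∈ u) (q : ℕ) : rst (f m H G) q u = 5 := by
  induction u generalizing q with
  | nil => simp at hu
  | cons a u ih =>
    by_cases ha : a = 1
    · subst ha
      simp only [rst, f_one]
      exact (id5 u).1
    · simp only [rst]
      exact ih (by simpa [Ne.symm ha] using hu) _

/-- counting the reset letters -/
theorem out_ne_one (q a : ℕ) (ha : a ≠ 1) : (f m H G q a).2 ≠ 1 := by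
  unfold f
  by_cases h0 : a = 0
  · subst h0; simp
  · rw [if_neg h0, if_neg ha]
    by_cases h2 : a = 2
    · subst h2; simp
    · rw [if_neg h2]
      have h3 : 3 ≤ a := by omega
      dsimp only
      split_ifs <;> dsimp only <;> omega

theorem rout_no_one (u : List ℕ) (hu : 1 ∉ u) : ∀ q, 1 ∉ rout (f m H G) q u := by
  induction u with
  | nil => intro q; simp [rout]
  | cons a u ih =>
    intro q hm
    simp only [rout, List.mem_cons] at hm
    rcases hm with h | h
    · exact out_ne_one q a (fun h' => hu (by rw [h']; exact List.mem_cons_self)) h.symm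
    · exact ih (fun h' => hu (List.mem_cons_of_mem _ h')) _ h

/-- the effect on a word with a reset letter -/
theorem rout_split (v z : List ℕ) (q : ℕ) : 
    (Bad (rst (f m H G) q v) ∧ rout (f m H G) q (v ++ 1 :: z) = rout (f m H G) q v ++ 2 :: z) ∨
    (¬ Bad (rst (f m H G) q v) ∧
      rout (f m H G) q (v ++ 1 :: z) = rout (f m H G) q v ++ 1 :: z) := by
  rw [rout_append]
  simp only [rout, f_one, (id5 z).2]
  by_cases h : rst (f m H G) q v = 0 ∨ rst (f m H G) q v = 2 ∨ 7 ≤ rst (f m H G) q v
  · rw [if_pos h]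
    exact Or.inl ⟨h, rfl⟩
  · rw [if_neg h]
    exact Or.inr ⟨h, rfl⟩

theorem count_rout (u : List ℕ) : ∀ q, (rout (f m H G) q u).count 1 ≤ u.count 1 := by
  induction u with
  | nil => intro q; simp [rout]
  | cons a u ih =>
    intro q
    have := ih (f m H G q a).1
    simp only [rout, List.count_cons]
    by_cases ha : a = 1
    · subst ha
      simp only [beq_self_eq_true, if_true]
      split_ifs <;> omega
    · have h1 : ((f m H G q a).2 == 1) = false := by
        rw [beq_eq_false_iff_ne]; exact out_ne_one q a ha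
      rw [h1]
      simp only [Bool.false_eq_true, if_false]
      omega

theorem count_comp (qs : List ℕ) : ∀ u : List ℕ,
    (comp (f m H G) qs u).count 1 ≤ u.count 1 := by
  induction qs with
  | nil => intro u; simp [comp]
  | cons q qs ih =>
    intro u
    exact (ih (rout (f m H G) q u)).trans (count_rout u q)

/-! #### Erasing a reset letter -/

/-- states of a check -/
def Cs (q : ℕ) : Prop := q ≠ 1 ∧ q ≠ 5 ∧ q ≠ 6

theorem cs_step (q a : ℕ) (hq : Cs q) (ha : a ≠ 1) : Cs (f m H G q a).1 := by
  obtain ⟨q1, q5, q6⟩ := hq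
  unfold f Cs
  by_cases h0 : a = 0
  · subst h0; simp [q1, q5, q6]
  · rw [if_neg h0, if_neg ha]
    by_cases h2 : a = 2
    · subst h2; simp [q1, q5, q6]
    · rw [if_neg h2, if_neg q1]
      dsimp only
      split_ifs <;> dsimp only <;> omega

theorem cs_run (v : List ℕ) (hv : 1 ∉ v) : ∀ q, Cs q → Cs (rst (f m H G) q v) := by
  induction v with
  | nil => intro q hq; exact hq
  | cons a v ih =>
    intro q hq
    simp only [rst]
    exact ih (fun h => hv (List.mem_cons_of_mem _ h)) _
      (cs_step q a hq (fun h => hv (by rw [h]; exact List.mem_cons_self)))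

theorem f_zero {q : ℕ} (hq : Cs q) : f m H G q 0 = (2, 0) := by
  obtain ⟨q1, q5, q6⟩ := hq
  simp [f, q1, q5, q6]

theorem f_two {q : ℕ} (hq : Cs q) : f m H G q 2 = (0, 2) := by
  obtain ⟨q1, q5, q6⟩ := hq
  simp [f, q1, q5, q6]

/-- error is kept on words without end markers and reset letters -/
theorem err_keep (v : List ℕ) (h0 : 0 ∉ v) (h1 : 1 ∉ v) : rst (f m H G) 0 v = 0 := by
  induction v with
  | nil => rfl
  | cons a v ih =>
    have a0 : a ≠ 0 := fun h => h0 (by rw [h]; exact List.mem_cons_self)
    have a1 : a ≠ 1 := fun h => h1 (by rw [h]; exact List.mem_cons_self)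
    have e : (f m H G 0 a).1 = 0 := by
      unfold f
      rw [if_neg a0, if_neg a1]
      by_cases h2 : a = 2
      · subst h2; simp
      · rw [if_neg h2]; simp
    simp only [rst, e]
    exact ih (fun h => h0 (List.mem_cons_of_mem _ h)) (fun h => h1 (List.mem_cons_of_mem _ h))

/-- from a start marker followed by tiles with different words an error is found -/
theorem kill_tiles (hmH : Sh m H) (hmG : Sh m G) : ∀ (n : ℕ) (v : List ℕ)
    (τ : List (ℕ × ℕ × ℕ)), (PP H τ).length = n → 1 ∉ v → GD m τ → τ ≠ [] → PP H τ ≠ QQ G τ →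
    ∃ k : ℕ, Bad (rst (f m H G) 0 (comp (f m H G) (List.replicate k 0) (v ++ 0 :: W m τ))) := by
  intro n
  induction n with
  | zero =>
    intro v τ hn hv hτ h0 hne
    refine ⟨0, ?_⟩
    simp only [List.replicate_zero, comp, List.foldl_nil]
    rw [rst_append]
    simp only [rst, f_zero (cs_run v hv 0 ⟨by simp, by simp, by simp⟩)]
    have hP : PP H τ = [] := List.length_eq_zero_iff.1 hn
    rcases sweep hmH hmG τ 2 hτ (Or.inr ⟨rfl, h0⟩) with ⟨h1, h2, _⟩ | ⟨x, P, Q, τ', h1, _⟩ |
      ⟨_, h2⟩
    · exact absurd (h1.trans h2.symm) hne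
    · rw [hP] at h1; simp at h1
    · exact h2
  | succ n ih =>
    intro v τ hn hv hτ h0 hne
    have hcs := cs_run (m := m) (H := H) (G := G) v hv 0 ⟨by simp, by simp, by simp⟩
    rcases sweep hmH hmG τ 2 hτ (Or.inr ⟨rfl, h0⟩) with ⟨h1, h2, _⟩ |
      ⟨x, P, Q, τ', h1, h2, h3, h4, h5, h6, h7, h8⟩ | ⟨_, h2⟩
    · exact absurd (h1.trans h2.symm) hne
    · obtain ⟨k, hk⟩ := ih (rout (f m H G) 0 v) τ' (by
        rw [h3]
        rw [h1, List.length_cons] at hn
        omega) (rout_no_one v hv 0) h5 (by
          rintro rfl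
          apply h0
          simpa using h6.symm) (by
          rw [h3, h4]
          intro hc
          apply hne
          rw [h1, h2, hc])
      refine ⟨k + 1, ?_⟩
      rw [List.replicate_succ]
      have e : comp (f m H G) (0 :: List.replicate k 0) (v ++ 0 :: W m τ) =
          comp (f m H G) (List.replicate k 0) (rout (f m H G) 0 v ++ 0 :: W m τ') := by
        simp only [comp, List.foldl_cons]
        congr 1
        rw [rout_append]
        simp only [rout, f_zero hcs, h8]
      rw [e]
      exact hk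
    · refine ⟨0, ?_⟩
      simp only [List.replicate_zero, comp, List.foldl_nil]
      rw [rst_append]
      simp only [rst, f_zero hcs]
      exact h2

/-- the letters of the automaton -/
def Lt (m N : ℕ) (a : ℕ) : Prop := a < 3 + N * m * m

theorem exists_tile {N a : ℕ} (hm : 0 < m) (ha : 3 ≤ a) (hN : Lt m N a) :
    ∃ t : ℕ × ℕ × ℕ, Gd m t ∧ t.1 < N ∧ a = tl m t := by
  refine ⟨((a - 3) / m / m, (a - 3) / m % m, (a - 3) % m), ⟨Nat.mod_lt _ hm, Nat.mod_lt _ hm⟩,
    ?_, ?_⟩
  · simp only
    have : a - 3 < N * m * m := by unfold Lt at hN; omega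
    rw [Nat.div_lt_iff_lt_mul hm, Nat.div_lt_iff_lt_mul hm]
    exact this
  · simp only [tl]
    have h1 := Nat.div_add_mod ((a - 3) / m) m
    have h2 := Nat.div_add_mod (a - 3) m
    have h3 : (a - 3) / m / m * m + (a - 3) / m % m = (a - 3) / m := by
      rw [Nat.mul_comm]; exact h1
    rw [h3]
    have h4 : (a - 3) / m * m + (a - 3) % m = a - 3 := by
      rw [Nat.mul_comm]; exact h2
    omega

theorem exists_tiles {N : ℕ} (hm : 0 < m) (v : List ℕ) (h3 : ∀ a ∈ v, 3 ≤ a)
    (hN : ∀ a ∈ v, Lt m N a) : ∃ τ : List (ℕ × ℕ × ℕ), GD m τ ∧ (∀ t ∈ τ, t.1 < N) ∧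
      v = W m τ := by
  induction v with
  | nil => exact ⟨[], by intro t ht; simp at ht, by simp, rfl⟩
  | cons a v ih =>
    obtain ⟨τ, h1, h2, rfl⟩ := ih (fun b hb => h3 b (List.mem_cons_of_mem _ hb))
      (fun b hb => hN b (List.mem_cons_of_mem _ hb))
    obtain ⟨t, ht1, ht2, rfl⟩ := exists_tile hm (h3 a List.mem_cons_self) (hN a List.mem_cons_self)
    refine ⟨t :: τ, ?_, ?_, rfl⟩
    · intro s hs
      rcases List.mem_cons.1 hs with rfl | hs
      · exact ht1
      · exact h1 s hs
    · intro s hs
      rcases List.mem_cons.1 hs with rfl | hs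
      · exact ht2
      · exact h2 s hs

theorem split_last {a : ℕ} {v : List ℕ} (h : a ∈ v) : ∃ v1 v2, v = v1 ++ a :: v2 ∧ a ∉ v2 := by
  induction v with
  | nil => simp at h
  | cons b v ih =>
    by_cases hv : a ∈ v
    · obtain ⟨v1, v2, rfl, h2⟩ := ih hv
      exact ⟨b :: v1, v2, rfl, h2⟩
    · rcases List.mem_cons.1 h with rfl | h
      · exact ⟨[], v, rfl, hv⟩
      · exact absurd h hv

theorem refresh_zero : f m H G 1 0 = (1, 0) := by simp [f]

theorem st1_keep (v : List ℕ) (h1 : 1 ∉ v) : rst (f m H G) 1 v = 1 := by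
  induction v with
  | nil => rfl
  | cons a v ih =>
    have a1 : a ≠ 1 := fun h => h1 (by rw [h]; exact List.mem_cons_self)
    have e : (f m H G 1 a).1 = 1 := by
      unfold f
      by_cases h0 : a = 0
      · subst h0; simp
      rw [if_neg h0, if_neg a1]
      by_cases h2 : a = 2
      · subst h2; simp
      · rw [if_neg h2]; simp
    simp only [rst, e]
    exact ih (fun h => h1 (List.mem_cons_of_mem _ h))

/-- If the instance has no solution, an error can be found in every word. -/
theorem kill (hmH : Sh m H) (hmG : Sh m G) (hm : 0 < m) (hns : ¬ Sol H G) (v : List ℕ)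
    (h1 : 1 ∉ v) (hv : ∀ a ∈ v, Lt m H.length a) :
    ∃ qs : List ℕ, (∀ q ∈ qs, q < 2) ∧ Bad (rst (f m H G) 0 (comp (f m H G) qs v)) := by
  have c0 : Cs 0 := ⟨by simp, by simp, by simp⟩
  by_cases h0 : 0 ∈ v
  · obtain ⟨v1, v2, rfl, h02⟩ := split_last h0
    have h11 : 1 ∉ v1 := fun h => h1 (by simp [h])
    have h12 : 1 ∉ v2 := fun h => h1 (by simp [h])
    have hc := cs_run (m := m) (H := H) (G := G) v1 h11 0 c0
    by_cases h22 : 2 ∈ v2
    · obtain ⟨v3, v4, rfl, _⟩ := split_last h22
      refine ⟨[], by simp, ?_⟩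
      simp only [comp, List.foldl_nil]
      rw [rst_append]
      simp only [rst, f_zero hc]
      rw [rst_append]
      have hc2 := cs_run (m := m) (H := H) (G := G) v3 (fun h => h12 (by simp [h])) 2
        ⟨by simp, by simp, by simp⟩
      simp only [rst, f_two hc2]
      rw [err_keep v4 (fun h => h02 (by simp [h])) (fun h => h12 (by simp [h]))]
      exact Or.inl rfl
    · obtain ⟨τ, hτ1, hτ2, rfl⟩ := exists_tiles (N := H.length) hm v2 (by
        intro a ha
        by_contra hc
        push Not at hc
        interval_cases a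
        · exact h02 ha
        · exact h12 ha
        · exact h22 ha) (fun a ha => hv a (by simp [ha]))
      by_cases he : τ = []
      · subst he
        refine ⟨[], by simp, ?_⟩
        simp only [comp, List.foldl_nil]
        rw [rst_append]
        simp only [rst, f_zero hc, W, List.map_nil]
        exact Or.inr (Or.inl rfl)
      · have hne : PP H (fr τ) ≠ QQ G (fr τ) := by
          rw [PP_fr, QQ_fr]
          intro hc
          apply hns
          refine ⟨τ.map Prod.fst, by simpa using he, ?_, hc⟩
          intro i hi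
          obtain ⟨t, ht, rfl⟩ := List.mem_map.1 hi
          exact hτ2 t ht
        obtain ⟨k, hk⟩ := kill_tiles hmH hmG _ (rout (f m H G) 1 v1) (fr τ) rfl
          (rout_no_one v1 h11 1) (GD_fr hm τ) (by simpa [fr] using he) hne
        refine ⟨1 :: List.replicate k 0, ?_, ?_⟩
        · intro q hq
          rcases List.mem_cons.1 hq with rfl | hq
          · omega
          · rw [List.eq_of_mem_replicate hq]; omega
        · have e : comp (f m H G) (1 :: List.replicate k 0) (v1 ++ 0 :: W m τ) =
            comp (f m H G) (List.replicate k 0) (rout (f m H G) 1 v1 ++ 0 :: W m (fr τ)) := by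
            simp only [comp, List.foldl_cons]
            congr 1
            rw [rout_append]
            simp only [rout, st1_keep v1 h11, refresh_zero, (sweep_refresh τ hτ1).2]
          rw [e]
          exact hk
  · refine ⟨[], by simp, ?_⟩
    simp only [comp, List.foldl_nil]
    rw [err_keep v h0 h1]
    exact Or.inl rfl

/-- applying states to a word with a reset letter acts on the part before it -/
theorem comp_split (qs : List ℕ) (z : List ℕ) : ∀ v : List ℕ, 1 ∉ v →
    (comp (f m H G) qs (v ++ 1 :: z) = comp (f m H G) qs v ++ 1 :: z ∧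
      1 ∉ comp (f m H G) qs v) ∨
    (comp (f m H G) qs (v ++ 1 :: z)).count 1 ≤ z.count 1 := by
  induction qs with
  | nil => intro v hv; exact Or.inl ⟨rfl, hv⟩
  | cons q qs ih =>
    intro v hv
    have e : ∀ u, comp (f m H G) (q :: qs) u = comp (f m H G) qs (rout (f m H G) q u) :=
      fun u => rfl
    rw [e, e]
    have hr := rout_no_one (m := m) (H := H) (G := G) v hv q
    rcases rout_split (m := m) (H := H) (G := G) v z q with ⟨_, h⟩ | ⟨_, h⟩
    · right
      rw [h]
      refine (count_comp qs _).trans ?_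
      rw [List.count_append, List.count_eq_zero_of_not_mem hr]
      simp
    · rw [h]
      exact ih _ hr

/-- If the instance has no solution, the number of reset letters of a word can be decreased. -/
theorem decrease (hmH : Sh m H) (hmG : Sh m G) (hm : 0 < m) (hns : ¬ Sol H G) (u : List ℕ)
    (h1 : 1 ∈ u) (hu : ∀ a ∈ u, Lt m H.length a) :
    ∃ qs : List ℕ, (∀ q ∈ qs, q < 2) ∧ (comp (f m H G) qs u).count 1 < u.count 1 := by
  obtain ⟨v, z, rfl, hv⟩ : ∃ v z, u = v ++ 1 :: z ∧ 1 ∉ v := by
    obtain ⟨v1, v2, h, h2⟩ := split_last (a := 1) (v := u.reverse) (by simpa using h1)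
    refine ⟨v2.reverse, v1.reverse, ?_, by simpa using h2⟩
    have := congrArg List.reverse h
    simpa using this
  obtain ⟨qs, hqs, hb⟩ := kill hmH hmG hm hns v hv (fun a ha => hu a (by simp [ha]))
  have hc : (v ++ 1 :: z).count 1 = z.count 1 + 1 := by
    rw [List.count_append, List.count_eq_zero_of_not_mem hv]
    simp
  rw [hc]
  rcases comp_split (m := m) (H := H) (G := G) qs z v hv with ⟨h2, h3⟩ | h2
  · refine ⟨qs ++ [0], ?_, ?_⟩
    · intro q hq
      rcases List.mem_append.1 hq with hq | hq
      · exact hqs q hq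
      · rw [List.mem_singleton.1 hq]; omega
    · rw [comp_append, h2]
      have e : ∀ u, comp (f m H G) [0] u = rout (f m H G) 0 u := fun u => rfl
      rw [e]
      rcases rout_split (m := m) (H := H) (G := G) (comp (f m H G) qs v) z 0 with ⟨_, h⟩ | ⟨h', _⟩
      · rw [h, List.count_append, List.count_eq_zero_of_not_mem (rout_no_one _ h3 0)]
        simp
      · exact absurd hb h'
  · exact ⟨qs, hqs, by omega⟩

/-! #### Solutions are stable -/

/-- The words obtained from a solution. -/
def St (m : ℕ) (H G : List (List ℕ)) (x : List ℕ) (u : List ℕ) : Prop :=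
  ∃ τ : List (ℕ × ℕ × ℕ), GD m τ ∧ τ.map Prod.fst = x ∧ PP H τ = QQ G τ ∧
    u = 0 :: (W m τ ++ [1])

theorem st_step (hmH : Sh m H) (hmG : Sh m G) (hm : 0 < m) {x : List ℕ} (hx0 : x ≠ [])
    (hx : im H x = im G x) {u : List ℕ} (h : St m H G x u) (q : ℕ) :
    St m H G x (rout (f m H G) q u) := by
  obtain ⟨τ, h1, h2, h3, rfl⟩ := h
  by_cases hq : Cs q
  · simp only [rout, f_zero hq]
    have hτ0 : τ ≠ [] := by
      rintro rfl
      exact hx0 (by simpa using h2.symm)
    rcases rout_split (m := m) (H := H) (G := G) (W m τ) [] 2 with ⟨hb, h⟩ | ⟨_, h⟩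
    · exfalso
      rcases sweep hmH hmG τ 2 h1 (Or.inr ⟨rfl, hτ0⟩) with ⟨_, _, k3, _⟩ |
        ⟨x, P, Q, τ', _, _, _, _, _, _, k7, _⟩ | ⟨k1, _⟩
      · rw [k3] at hb; unfold Bad at hb; omega
      · rw [k7] at hb; unfold Bad at hb; omega
      · exact k1 h3
    · rw [h]
      rcases sweep hmH hmG τ 2 h1 (Or.inr ⟨rfl, hτ0⟩) with ⟨_, _, _, k4⟩ |
        ⟨y, P, Q, τ', k1, k2, k3, k4, k5, k6, k7, k8⟩ | ⟨k1, _⟩
      · exact ⟨τ, h1, h2, h3, by rw [k4]⟩
      · refine ⟨τ', k5, k6.trans h2, ?_, by rw [k8]⟩
        rw [k3, k4]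
        rw [k1, k2] at h3
        exact (List.cons.inj h3).2
      · exact absurd h3 k1
  · have hq' : q = 1 ∨ q = 5 ∨ q = 6 := by unfold Cs at hq; omega
    rcases hq' with rfl | rfl | rfl
    · have e : (f m H G 1 0) = (1, 0) := by simp [f]
      simp only [rout, e]
      rw [rout_append, (sweep_refresh τ h1).2, (sweep_refresh τ h1).1]
      refine ⟨fr τ, GD_fr hm τ, by rw [← h2]; simp [fr], ?_, ?_⟩
      · rw [PP_fr, QQ_fr, h2, hx]
      · simp [rout, f_one]
    · rw [(id5 _).2]
      exact ⟨τ, h1, h2, h3, rfl⟩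
    · have e : (f m H G 6 0) = (6, 0) := by simp [f]
      simp only [rout, e]
      have hi := sweep_id (H := H) (G := G) (m := m) (q := 6) (by omega) τ h1
      rw [rout_append, hi.2, hi.1]
      refine ⟨τ, h1, h2, h3, ?_⟩
      simp [rout, f_one]

end

end Pool.Agent.R652.WReset
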