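import Mathlib
import Pool.Agent.R652.WReset2

/-!
Coded Mealy automata, the weakly reset property, and the reduction.
-/

set_option autoImplicit false

namespace Pool.Agent.R652.WReset

open PCPBase

/-- A coded Mealy automaton: the number of letters, and the table whose row `q` lists, for every
letter `a`, the pair (next state, output letter). The states are `0, …, length of the table - 1`,
the letters are `0, …, (number of letters) - 1`. -/
abbrev Aut := ℕ × List (List (ℕ × ℕ))

/-- The table entry for the state `q` and the letter `a`. -/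
def en (T : List (List (ℕ × ℕ))) (q a : ℕ) : ℕ × ℕ := (T.getD q []).getD a (0, 0)

/-- The code describes a Mealy automaton. -/
def Valid (A : Aut) : Prop :=
  0 < A.1 ∧ A.2 ≠ [] ∧ ∀ row ∈ A.2, row.length = A.1 ∧ ∀ e ∈ row, e.1 < A.2.length ∧ e.2 < A.1

/-- Words over the alphabet of the automaton. -/
def IsWord (A : Aut) (u : List ℕ) : Prop := ∀ a ∈ u, a < A.1

/-- The reset words: after reading the word the state does not depend on the initial state. -/
def Syn (A : Aut) : Set (List ℕ) :=
  {u | IsWord A u ∧ ∀ p < A.2.length, ∀ q < A.2.length, rst (en A.2) p u = rst (en A.2) q u}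

/-- The automaton is weakly reset: it has a reset word, and there is a nonempty two-sided ideal of
the monoid of words which consists of reset words and is mapped into itself by the maps of all
states. -/
def WeaklyReset (A : Aut) : Prop :=
  (Syn A).Nonempty ∧ ∃ I : Set (List ℕ), I.Nonempty ∧ I ⊆ Syn A ∧
    (∀ u ∈ I, ∀ v w, IsWord A v → IsWord A w → v ++ u ++ w ∈ I) ∧
    ∀ q < A.2.length, ∀ u ∈ I, rout (en A.2) q u ∈ I

section

variable (H G : List (List ℕ))

/-- the length bound -/
def mm : ℕ := (H ++ G).flatten.length + 1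

/-- the bound on the letters -/
def xx : ℕ := (H ++ G).flatten.sum

/-- number of states -/
def ns : ℕ := 9 + 2 * xx H G

/-- number of letters -/
def nl : ℕ := 3 + H.length * mm H G * mm H G

/-- the automaton of an instance -/
def au : Aut :=
  (nl H G, (List.range (ns H G)).map fun q => (List.range (nl H G)).map fun a =>
    f (mm H G) H G q a)

theorem en_au {q a : ℕ} (hq : q < ns H G) (ha : a < nl H G) :
    en (au H G).2 q a = f (mm H G) H G q a := by
  unfold en au
  rw [List.getD_eq_getElem?_getD, List.getD_eq_getElem?_getD]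
  simp [hq, ha]

theorem length_au : (au H G).2.length = ns H G := by simp [au]

theorem getD_mem_or (L : List (List ℕ)) (i : ℕ) : L.getD i [] ∈ L ∨ L.getD i [] = [] := by
  rw [List.getD_eq_getElem?_getD]
  cases h : L[i]? with
  | none => right; rfl
  | some x => left; exact List.mem_of_getElem? h

theorem sh_H : Sh (mm H G) H := by
  intro i
  unfold mm
  rcases getD_mem_or H i with h | h
  · have := List.Sublist.length_le (List.sublist_flatten_of_mem (List.mem_append_left G h))
    omega
  · rw [h]; simp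

theorem sh_G : Sh (mm H G) G := by
  intro i
  unfold mm
  rcases getD_mem_or G i with h | h
  · have := List.Sublist.length_le (List.sublist_flatten_of_mem (List.mem_append_right H h))
    omega
  · rw [h]; simp

theorem mm_pos : 0 < mm H G := by unfold mm; omega

theorem hd_H (t : ℕ × ℕ × ℕ) : (hp H t).head?.getD 0 ≤ xx H G := by
  cases h : (hp H t) with
  | nil => simp
  | cons x l =>
    simp only [List.head?_cons, Option.getD_some]
    have hx : x ∈ hp H t := by rw [h]; exact List.mem_cons_self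
    have hx2 : x ∈ H.getD t.1 [] := List.mem_of_mem_drop hx
    have hx3 : x ∈ (H ++ G).flatten := by
      rcases getD_mem_or H t.1 with h' | h'
      · exact List.mem_flatten.2 ⟨_, List.mem_append_left G h', hx2⟩
      · rw [h'] at hx2; simp at hx2
    exact List.single_le_sum (by simp) x hx3

theorem hd_G (t : ℕ × ℕ × ℕ) : (gp G t).head?.getD 0 ≤ xx H G := by
  cases h : (gp G t) with
  | nil => simp
  | cons x l =>
    simp only [List.head?_cons, Option.getD_some]
    have hx : x ∈ gp G t := by rw [h]; exact List.mem_cons_self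
    have hx2 : x ∈ G.getD t.1 [] := List.mem_of_mem_drop hx
    have hx3 : x ∈ (H ++ G).flatten := by
      rcases getD_mem_or G t.1 with h' | h'
      · exact List.mem_flatten.2 ⟨_, List.mem_append_right H h', hx2⟩
      · rw [h'] at hx2; simp at hx2
    exact List.single_le_sum (by simp) x hx3

theorem tl_lt {m N : ℕ} {t : ℕ × ℕ × ℕ} (h1 : t.1 < N) (ht : Gd m t) : tl m t < 3 + N * m * m := by
  obtain ⟨i, j, k⟩ := t
  obtain ⟨hj, hk⟩ := ht
  simp only at h1 hj hk
  simp only [tl]
  have a1 : i * m + j + 1 ≤ N * m := by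
    have : (i + 1) * m ≤ N * m := Nat.mul_le_mul_right _ h1
    rw [Nat.add_mul] at this
    omega
  have a2 : (i * m + j + 1) * m ≤ N * m * m := Nat.mul_le_mul_right _ a1
  rw [Nat.add_mul] at a2
  omega

theorem bounds {q a : ℕ} (hq : q < ns H G) (ha : a < nl H G) :
    (f (mm H G) H G q a).1 < ns H G ∧ (f (mm H G) H G q a).2 < nl H G := by
  have hn : 9 ≤ ns H G := by unfold ns; omega
  have hl : 3 ≤ nl H G := by unfold nl; omega
  by_cases h3 : 3 ≤ a
  · obtain ⟨t, ht, hN, rfl⟩ := exists_tile (m := mm H G) (N := H.length) (mm_pos H G) h3 ha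
    rw [f_tile q ht]
    have b1 := hd_H H G t
    have b2 := hd_G H G t
    have c0 : tl (mm H G) (t.1, 0, 0) < nl H G := tl_lt hN ⟨mm_pos H G, mm_pos H G⟩
    have cg : (gp G t).head? ≠ none → t.2.2 + 1 < mm H G := by
      intro h
      cases hg : gp G t with
      | nil => rw [hg] at h; simp at h
      | cons x l => exact (gp_step (sh_G H G) hg).1
    have ch : (hp H t).head? ≠ none → t.2.1 + 1 < mm H G := by
      intro h
      cases hh : hp H t with
      | nil => rw [hh] at h; simp at h
      | cons x l => exact (hp_step (sh_H H G) hh).1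
    have e1 : (gp G t).head? ≠ none → tl (mm H G) (t.1, t.2.1, t.2.2 + 1) < nl H G :=
      fun h => tl_lt hN ⟨ht.1, cg h⟩
    have e2 : (hp H t).head? ≠ none → tl (mm H G) (t.1, t.2.1 + 1, t.2.2) < nl H G :=
      fun h => tl_lt hN ⟨ch h, ht.2⟩
    have e3 : (gp G t).head? ≠ none → (hp H t).head? ≠ none →
        tl (mm H G) (t.1, t.2.1 + 1, t.2.2 + 1) < nl H G :=
      fun h h' => tl_lt hN ⟨ch h', cg h⟩
    have hns : ns H G = 9 + 2 * xx H G := rfl
    split_ifs with i1 i2 i3 i4 i5 i6 i7 i8 i9 i10 i11 i12 <;> dsimp only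
    all_goals first
      | exact ⟨by omega, ha⟩
      | exact ⟨by omega, c0⟩
      | exact ⟨by omega, e1 (by assumption)⟩
      | exact ⟨by omega, e2 (by assumption)⟩
      | exact ⟨by omega, e3 (by assumption) (by assumption)⟩
  · have : a = 0 ∨ a = 1 ∨ a = 2 := by omega
    unfold f
    rcases this with rfl | rfl | rfl
    · simp only [if_true]
      refine ⟨?_, by omega⟩
      split_ifs <;> omega
    · simp only [one_ne_zero, if_false, if_true]
      refine ⟨by omega, ?_⟩
      split_ifs <;> omega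
    · simp only [OfNat.ofNat_ne_zero, OfNat.ofNat_ne_one, if_false, if_true]
      refine ⟨?_, by omega⟩
      split_ifs <;> omega

theorem valid_au : Valid (au H G) := by
  refine ⟨by simp [au, nl], ?_, ?_⟩
  · intro h
    have := congrArg List.length h
    rw [length_au] at this
    simp [ns] at this
  · intro row hrow
    rw [length_au]
    simp only [au, List.mem_map, List.mem_range] at hrow
    obtain ⟨q, hq, rfl⟩ := hrow
    refine ⟨by simp [au], ?_⟩
    intro e he
    simp only [List.mem_map, List.mem_range] at he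
    obtain ⟨a, ha, rfl⟩ := he
    exact bounds H G hq ha

theorem run_au {q : ℕ} (hq : q < ns H G) {u : List ℕ} (hu : IsWord (au H G) u) :
    rout (en (au H G).2) q u = rout (f (mm H G) H G) q u ∧
      rst (en (au H G).2) q u = rst (f (mm H G) H G) q u := by
  have := rout_congr (f := f (mm H G) H G) (g := en (au H G).2) (n := ns H G) (k := nl H G)
    (fun q hq a ha => ⟨(en_au H G hq ha).symm, (bounds H G hq ha).1⟩) u q hq hu
  exact ⟨this.1.symm, this.2.symm⟩

theorem run_bounds (u : List ℕ) : ∀ q < ns H G, IsWord (au H G) u →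
    rst (f (mm H G) H G) q u < ns H G ∧ IsWord (au H G) (rout (f (mm H G) H G) q u) := by
  induction u with
  | nil => intro q hq _; exact ⟨hq, by intro a ha; simp [rout] at ha⟩
  | cons a u ih =>
    intro q hq hu
    have hb := bounds H G hq (hu a List.mem_cons_self)
    obtain ⟨h1, h2⟩ := ih (f (mm H G) H G q a).1 hb.1 (fun b hb => hu b (List.mem_cons_of_mem _ hb))
    refine ⟨h1, ?_⟩
    intro b hb'
    simp only [rout, List.mem_cons] at hb'
    rcases hb' with rfl | hb'
    · exact hb.2
    · exact h2 b hb'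

theorem comp_bounds (qs : List ℕ) : ∀ u : List ℕ, (∀ q ∈ qs, q < ns H G) → IsWord (au H G) u →
    IsWord (au H G) (comp (f (mm H G) H G) qs u) ∧
      comp (en (au H G).2) qs u = comp (f (mm H G) H G) qs u := by
  induction qs with
  | nil => intro u _ hu; exact ⟨hu, rfl⟩
  | cons q qs ih =>
    intro u hq hu
    have hq0 := hq q List.mem_cons_self
    have e : ∀ (g : ℕ → ℕ → ℕ × ℕ) u, comp g (q :: qs) u = comp g qs (rout g q u) := fun _ _ => rfl
    rw [e, e, (run_au H G hq0 hu).1]
    exact ih _ (fun q' hq' => hq q' (List.mem_cons_of_mem _ hq')) (run_bounds H G u q hq0 hu).2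

theorem comp_app (qs : List ℕ) : ∀ v : List ℕ, (∀ q ∈ qs, q < ns H G) → IsWord (au H G) v →
    ∃ rs : List ℕ, (∀ q ∈ rs, q < ns H G) ∧ ∀ u, comp (f (mm H G) H G) qs (v ++ u) =
      comp (f (mm H G) H G) qs v ++ comp (f (mm H G) H G) rs u := by
  induction qs with
  | nil => intro v _ _; exact ⟨[], by simp, fun u => rfl⟩
  | cons q qs ih =>
    intro v hq hv
    have hq0 := hq q List.mem_cons_self
    have hb := run_bounds H G v q hq0 hv
    obtain ⟨rs, h1, h2⟩ := ih (rout (f (mm H G) H G) q v)
      (fun q' hq' => hq q' (List.mem_cons_of_mem _ hq')) hb.2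
    refine ⟨rst (f (mm H G) H G) q v :: rs, ?_, ?_⟩
    · intro p hp
      rcases List.mem_cons.1 hp with rfl | hp
      · exact hb.1
      · exact h1 p hp
    · intro u
      have e : ∀ q qs u, comp (f (mm H G) H G) (q :: qs) u =
        comp (f (mm H G) H G) qs (rout (f (mm H G) H G) q u) := fun _ _ _ => rfl
      rw [e, e, e, rout_append, h2]

theorem syn_iff (u : List ℕ) : u ∈ Syn (au H G) ↔ IsWord (au H G) u ∧ 1 ∈ u := by
  have hn : 9 ≤ ns H G := by unfold ns; omega
  constructor
  · rintro ⟨h1, h2⟩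
    refine ⟨h1, ?_⟩
    by_contra hc
    rw [length_au] at h2
    have := h2 5 (by omega) 6 (by omega)
    rw [(run_au H G (by omega) h1).2, (run_au H G (by omega) h1).2, (id5 u).1, st6 u hc] at this
    omega
  · rintro ⟨h1, h2⟩
    refine ⟨h1, ?_⟩
    rw [length_au]
    intro p hp q hq
    rw [(run_au H G hp h1).2, (run_au H G hq h1).2, rst_of_mem u h2, rst_of_mem u h2]

theorem weaklyReset_of_sol (h : Sol H G) : WeaklyReset (au H G) := by
  obtain ⟨x, hx0, hx, he⟩ := h
  have hm := mm_pos H G
  let τ : List (ℕ × ℕ × ℕ) := x.map fun i => (i, 0, 0)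
  have hτ : GD (mm H G) τ := by
    intro t ht
    obtain ⟨i, _, rfl⟩ := List.mem_map.1 ht
    exact ⟨hm, hm⟩
  have hfst : τ.map Prod.fst = x := by simp [τ, Function.comp_def]
  have hfr : fr τ = τ := by simp [τ, fr, Function.comp_def]
  let u0 : List ℕ := 0 :: (W (mm H G) τ ++ [1])
  have hst : St (mm H G) H G x u0 := by
    refine ⟨τ, hτ, hfst, ?_, rfl⟩
    rw [← hfr, PP_fr, QQ_fr, hfst, he]
  have hw0 : IsWord (au H G) u0 := by
    intro a ha
    have h3 : 3 ≤ (au H G).1 := by simp [au, nl]
    simp only [u0, List.mem_cons, List.mem_append, W, List.mem_map] at ha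
    rcases ha with rfl | ⟨t, ht, rfl⟩ | rfl | ha
    · omega
    · obtain ⟨i, hi, rfl⟩ := List.mem_map.1 ht
      exact tl_lt (hx i hi) ⟨hm, hm⟩
    · omega
    · simp at ha
  have hstep : ∀ (qs : List ℕ) (u : List ℕ), St (mm H G) H G x u →
      St (mm H G) H G x (comp (f (mm H G) H G) qs u) := by
    intro qs
    induction qs with
    | nil => intro u hu; exact hu
    | cons q qs ih => intro u hu; exact ih _ (st_step (sh_H H G) (sh_G H G) hm hx0 he hu q)
  have hone : ∀ u, St (mm H G) H G x u → 1 ∈ u := by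
    rintro u ⟨τ, _, _, _, rfl⟩
    simp
  have hu1 : 1 ∈ u0 := hone _ hst
  refine ⟨⟨u0, (syn_iff H G _).2 ⟨hw0, hu1⟩⟩,
    {w | IsWord (au H G) w ∧ ∀ qs : List ℕ, (∀ q ∈ qs, q < ns H G) →
      1 ∈ comp (f (mm H G) H G) qs w}, ⟨u0, hw0, fun qs _ => hone _ (hstep qs _ hst)⟩, ?_, ?_, ?_⟩
  · rintro w ⟨h1, h2⟩
    exact (syn_iff H G _).2 ⟨h1, h2 [] (by simp)⟩
  · rintro u ⟨h1, h2⟩ v w hv hw
    refine ⟨?_, ?_⟩
    · intro a ha
      simp only [List.mem_append] at ha
      rcases ha with (ha | ha) | ha
      · exact hv a ha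
      · exact h1 a ha
      · exact hw a ha
    · intro qs hqs
      rw [List.append_assoc]
      obtain ⟨rs, hrs, e1⟩ := comp_app H G qs v hqs hv
      obtain ⟨ts, _, e2⟩ := comp_app H G rs u hrs h1
      rw [e1, e2]
      exact List.mem_append_right _ (List.mem_append_left _ (h2 rs hrs))
  · rintro q hq u ⟨h1, h2⟩
    rw [length_au] at hq
    rw [(run_au H G hq h1).1]
    refine ⟨(run_bounds H G u q hq h1).2, ?_⟩
    intro qs hqs
    exact h2 (q :: qs) (by
      intro p hp
      rcases List.mem_cons.1 hp with rfl | hp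
      · exact hq
      · exact hqs p hp)

theorem sol_of_weaklyReset (h : WeaklyReset (au H G)) : Sol H G := by
  by_contra hns
  obtain ⟨_, I, ⟨u, hu⟩, hsyn, _, hinv⟩ := h
  have hn : 9 ≤ ns H G := by unfold ns; omega
  have hcomp : ∀ (qs : List ℕ) (u : List ℕ), (∀ q ∈ qs, q < ns H G) → u ∈ I →
      comp (en (au H G).2) qs u ∈ I := by
    intro qs
    induction qs with
    | nil => intro u _ hu; exact hu
    | cons q qs ih =>
      intro u hq hu
      exact ih _ (fun p hp => hq p (List.mem_cons_of_mem _ hp))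
        (hinv q (by rw [length_au]; exact hq q List.mem_cons_self) u hu)
  have key : ∀ n, ∀ u ∈ I, u.count 1 = n → False := by
    intro n
    induction n using Nat.strong_induction_on with
    | _ n ih =>
      intro u hu hn'
      obtain ⟨h1, h2⟩ := (syn_iff H G u).1 (hsyn hu)
      obtain ⟨qs, hqs, hlt⟩ := decrease (sh_H H G) (sh_G H G) (mm_pos H G) hns u h2 h1
      have hqs' : ∀ q ∈ qs, q < ns H G := fun q hq => by
        have := hqs q hq
        omega
      have := hcomp qs u hqs' hu
      rw [(comp_bounds H G qs u hqs' h1).2] at this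
      exact ih _ (by omega) _ this rfl
  exact key _ u hu rfl

end

/-! ### Computability -/

theorem primrec_mm : Primrec fun p : List (List ℕ) × List (List ℕ) => mm p.1 p.2 :=
  Primrec.succ.comp (Primrec.list_length.comp (Primrec.list_flatten.comp Primrec.list_append))

theorem primrec_sum : Primrec fun l : List ℕ => l.sum := by
  have : Primrec fun l : List ℕ => l.foldr (fun b s => b + s) 0 :=
    Primrec.list_foldr Primrec.id (Primrec.const 0) (h := fun _ q => q.1 + q.2)
      (Primrec.nat_add.comp (Primrec.fst.comp Primrec.snd) (Primrec.snd.comp Primrec.snd)).to₂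
  exact this.of_eq fun l => by rw [List.sum]

theorem primrec_ns : Primrec fun p : List (List ℕ) × List (List ℕ) => ns p.1 p.2 :=
  Primrec.nat_add.comp (Primrec.const 9) (Primrec.nat_mul.comp (Primrec.const 2)
    (primrec_sum.comp (Primrec.list_flatten.comp Primrec.list_append)))

theorem primrec_nl : Primrec fun p : List (List ℕ) × List (List ℕ) => nl p.1 p.2 :=
  Primrec.nat_add.comp (Primrec.const 3) (Primrec.nat_mul.comp (Primrec.nat_mul.comp
    (Primrec.list_length.comp Primrec.fst) primrec_mm) primrec_mm)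

/-- the arguments of the transition function -/
abbrev Arg := ((List (List ℕ) × List (List ℕ)) × ℕ) × ℕ

theorem primrec_f : Primrec fun z : Arg => f (mm z.1.1.1 z.1.1.2) z.1.1.1 z.1.1.2 z.1.2 z.2 := by
  have hq : Primrec fun z : Arg => z.1.2 := Primrec.snd.comp Primrec.fst
  have ha : Primrec fun z : Arg => z.2 := Primrec.snd
  have hm : Primrec fun z : Arg => mm z.1.1.1 z.1.1.2 := primrec_mm.comp (Primrec.fst.comp Primrec.fst)
  have h3 : Primrec fun z : Arg => z.2 - 3 := Primrec.nat_sub.comp ha (Primrec.const 3)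
  have hi : Primrec fun z : Arg => (z.2 - 3) / mm z.1.1.1 z.1.1.2 / mm z.1.1.1 z.1.1.2 :=
    Primrec.nat_div.comp (Primrec.nat_div.comp h3 hm) hm
  have hj : Primrec fun z : Arg => (z.2 - 3) / mm z.1.1.1 z.1.1.2 % mm z.1.1.1 z.1.1.2 :=
    Primrec.nat_mod.comp (Primrec.nat_div.comp h3 hm) hm
  have hk : Primrec fun z : Arg => (z.2 - 3) % mm z.1.1.1 z.1.1.2 :=
    Primrec.nat_mod.comp h3 hm
  have hx : Primrec fun z : Arg => ((z.1.1.1.getD ((z.2 - 3) / mm z.1.1.1 z.1.1.2 /
      mm z.1.1.1 z.1.1.2) []).drop ((z.2 - 3) / mm z.1.1.1 z.1.1.2 % mm z.1.1.1 z.1.1.2)).head? := by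
    have : Primrec fun z : Arg => ((z.1.1.1.getD ((z.2 - 3) / mm z.1.1.1 z.1.1.2 /
      mm z.1.1.1 z.1.1.2) [])[((z.2 - 3) / mm z.1.1.1 z.1.1.2 % mm z.1.1.1 z.1.1.2)]?) :=
      Primrec.list_getElem?.comp ((Primrec.list_getD []).comp (Primrec.fst.comp
        (Primrec.fst.comp Primrec.fst)) hi) hj
    exact this.of_eq fun z => by rw [List.head?_drop]
  have hy : Primrec fun z : Arg => ((z.1.1.2.getD ((z.2 - 3) / mm z.1.1.1 z.1.1.2 /
      mm z.1.1.1 z.1.1.2) []).drop ((z.2 - 3) % mm z.1.1.1 z.1.1.2)).head? := by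
    have : Primrec fun z : Arg => ((z.1.1.2.getD ((z.2 - 3) / mm z.1.1.1 z.1.1.2 /
      mm z.1.1.1 z.1.1.2) [])[((z.2 - 3) % mm z.1.1.1 z.1.1.2)]?) :=
      Primrec.list_getElem?.comp ((Primrec.list_getD []).comp (Primrec.snd.comp
        (Primrec.fst.comp Primrec.fst)) hi) hk
    exact this.of_eq fun z => by rw [List.head?_drop]
  have c : ∀ n : ℕ, Primrec fun _ : Arg => n := fun n => Primrec.const n
  have eqc : ∀ n : ℕ, PrimrecPred fun z : Arg => z.1.2 = n := fun n => Primrec.eq.comp hq (c n)
  have eqa : ∀ n : ℕ, PrimrecPred fun z : Arg => z.2 = n := fun n => Primrec.eq.comp ha (c n)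
  have xn := PrimrecPred.comp (p := fun o : Option ℕ => o = none)
    (Primrec.eq.comp Primrec.id (Primrec.const none)) hx
  have yn := PrimrecPred.comp (p := fun o : Option ℕ => o = none)
    (Primrec.eq.comp Primrec.id (Primrec.const none)) hy
  have hh : Primrec fun z : Arg => some ((z.1.2 - 7) / 2) :=
    Primrec.option_some.comp (Primrec.nat_div.comp (Primrec.nat_sub.comp hq (c 7)) (c 2))
  unfold f
  refine Primrec.ite (eqa 0) ?_ (Primrec.ite (eqa 1) ?_ (Primrec.ite (eqa 2) ?_
    (Primrec.ite (eqc 1) ?_ (Primrec.ite ?_ ?_ (Primrec.ite ?_ ?_ (Primrec.ite ?_ ?_ ?_))))))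
  · exact Primrec.pair (Primrec.ite (eqc 1) (c 1) (Primrec.ite (eqc 5) (c 5)
      (Primrec.ite (eqc 6) (c 6) (c 2)))) (c 0)
  · exact Primrec.pair (c 5) (Primrec.ite (PrimrecPred.or (eqc 0) (PrimrecPred.or (eqc 2)
      (Primrec.nat_le.comp (c 7) hq))) (c 2) (c 1))
  · exact Primrec.pair (Primrec.ite (eqc 1) (c 1) (Primrec.ite (eqc 5) (c 5)
      (Primrec.ite (eqc 6) (c 6) (c 0)))) (c 2)
  · exact Primrec.pair (c 1) (Primrec.nat_add.comp (c 3)
      (Primrec.nat_mul.comp (Primrec.nat_mul.comp hi hm) hm))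
  · exact PrimrecPred.or (eqc 0) (PrimrecPred.or (eqc 4) (PrimrecPred.or (eqc 5) (eqc 6)))
  · exact Primrec.pair hq ha
  · exact PrimrecPred.or (eqc 2) (eqc 3)
  · refine Primrec.ite xn (Primrec.ite yn (Primrec.pair (c 3) ha) ?_)
      (Primrec.ite yn ?_ (Primrec.ite (Primrec.eq.comp hx hy) ?_ (Primrec.pair (c 0) ha)))
    · exact Primrec.pair (Primrec.nat_add.comp (c 8) (Primrec.nat_mul.comp (c 2)
        (Primrec.option_getD.comp hy (c 0)))) (Primrec.nat_add.comp ha (c 1))
    · exact Primrec.pair (Primrec.nat_add.comp (c 7) (Primrec.nat_mul.comp (c 2)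
        (Primrec.option_getD.comp hx (c 0)))) (Primrec.nat_add.comp ha hm)
    · exact Primrec.pair (c 4) (Primrec.nat_add.comp (Primrec.nat_add.comp ha hm) (c 1))
  · exact Primrec.eq.comp (Primrec.nat_mod.comp hq (c 2)) (c 1)
  · exact Primrec.ite yn (Primrec.pair hq ha) (Primrec.ite (Primrec.eq.comp hy hh)
      (Primrec.pair (c 4) (Primrec.nat_add.comp ha (c 1))) (Primrec.pair (c 0) ha))
  · exact Primrec.ite xn (Primrec.pair hq ha) (Primrec.ite (Primrec.eq.comp hx hh)
      (Primrec.pair (c 4) (Primrec.nat_add.comp ha hm)) (Primrec.pair (c 0) ha))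

theorem primrec_au : Primrec fun p : List (List ℕ) × List (List ℕ) => au p.1 p.2 := by
  refine Primrec.pair primrec_nl ?_
  refine Primrec.list_map (Primrec.list_range.comp primrec_ns) ?_
  have : Primrec fun y : (List (List ℕ) × List (List ℕ)) × ℕ =>
      (List.range (nl y.1.1 y.1.2)).map fun a => f (mm y.1.1 y.1.2) y.1.1 y.1.2 y.2 a := by
    refine Primrec.list_map (Primrec.list_range.comp (primrec_nl.comp Primrec.fst)) ?_
    exact primrec_f.to₂
  exact this.to₂

/-- The weakly reset property is undecidable. -/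
theorem undecidable : ¬ ∃ P : Aut → Prop, ComputablePred P ∧
    ∀ A, Valid A → (P A ↔ WeaklyReset A) := by
  rintro ⟨P, hP, hs⟩
  refine not_computable_of_reduces (p := P) ⟨fun p => au p.1 p.2, primrec_au.to_comp,
    fun H G _ => ?_⟩ hP
  rw [hs _ (valid_au H G)]
  exact ⟨weaklyReset_of_sol H G, sol_of_weaklyReset H G⟩

end Pool.Agent.R652.WReset
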